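import Pool.Agent.LUB.Defs

/-!
# The analysis of the recurrence with memory
-/

namespace LUB

namespace Ana

open Finset

/-- the weight of `X g` in the potential at `h` -/
noncomputable def wgt (lam : ℝ) (h g : ℕ) : ℝ :=
  max 0 (1 - (1 - 1 / lam) * ((h : ℝ) / ((g : ℝ) + 1)) ^ (1 / lam))

theorem wgt_nonneg (lam : ℝ) (h g : ℕ) : 0 ≤ wgt lam h g := le_max_left _ _

theorem wgt_le_one {lam : ℝ} (hl : 1 ≤ lam) (h g : ℕ) : wgt lam h g ≤ 1 := by
  apply max_le zero_le_one
  have h1 : 1 / lam ≤ 1 := by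
    rw [div_le_one (by linarith)]
    exact hl
  have h2 : 0 ≤ ((h : ℝ) / ((g : ℝ) + 1)) ^ (1 / lam) := Real.rpow_nonneg (by positivity) _
  have h3 : 0 ≤ (1 - 1 / lam) * ((h : ℝ) / ((g : ℝ) + 1)) ^ (1 / lam) := mul_nonneg (by linarith) h2
  linarith

theorem wgt_diag {lam : ℝ} (hl : 1 ≤ lam) (h : ℕ) : wgt lam (h + 1) h = 1 / lam := by
  unfold wgt
  have h0 : ((h : ℝ) + 1) ≠ 0 := by positivity
  rw [show (((h + 1 : ℕ) : ℝ)) = (h : ℝ) + 1 by push_cast; ring, div_self h0, Real.one_rpow]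
  have h1 : 0 ≤ 1 / lam := by positivity
  rw [max_eq_right (by linarith)]
  ring

/-- outside the window the weight vanishes -/
theorem wgt_zero {lam : ℝ} (hl : 5 ≤ lam) {h g : ℕ} (hg : 1 ≤ g) (hw : 8 * g < h) : wgt lam h g = 0 := by
  unfold wgt
  apply max_eq_left
  have hlam : 0 < lam := by linarith
  have hx : 1 / lam ≤ 1 / 5 := one_div_le_one_div_of_le (by norm_num) hl
  have hx0 : 0 < 1 / lam := by positivity
  have hc : 0 < 1 - 1 / lam := by linarith
  have hq : (4 : ℝ) ≤ (h : ℝ) / ((g : ℝ) + 1) := by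
    rw [le_div_iff₀ (by positivity)]
    have h1 : (1 : ℝ) ≤ g := by exact_mod_cast hg
    have h2 : (8 : ℝ) * g + 1 ≤ h := by exact_mod_cast hw
    linarith
  have h4 : (4 : ℝ) ^ (1 / lam) ≤ ((h : ℝ) / ((g : ℝ) + 1)) ^ (1 / lam) :=
    Real.rpow_le_rpow (by norm_num) hq hx0.le
  have hlog : Real.log (1 / (1 - 1 / lam)) ≤ 1 / lam * Real.log 4 := by
    have e1 : Real.log (1 / (1 - 1 / lam)) ≤ 1 / (1 - 1 / lam) - 1 :=
      Real.log_le_sub_one_of_pos (by positivity)
    have e2 : 1 / (1 - 1 / lam) - 1 = (1 / lam) / (1 - 1 / lam) := by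
      rw [div_sub_one hc.ne']
      congr 1
      ring
    have e3 : (1 / lam) / (1 - 1 / lam) ≤ 1 / lam * (5 / 4) := by
      rw [div_le_iff₀ hc]
      nlinarith
    have e4 : Real.log 4 = 2 * Real.log 2 := by
      rw [show (4 : ℝ) = 2 ^ (2 : ℕ) by norm_num, Real.log_pow]
      norm_num
    have e5 := Real.log_two_gt_d9
    have e6 : 1 / lam * (5 / 4) ≤ 1 / lam * Real.log 4 := by
      apply mul_le_mul_of_nonneg_left _ hx0.le
      rw [e4]
      linarith
    linarith
  have h5 : 1 / (1 - 1 / lam) ≤ (4 : ℝ) ^ (1 / lam) := by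
    rw [← Real.log_le_log_iff (by positivity) (by positivity), Real.log_rpow (by norm_num)]
    exact hlog
  have h6 : 1 / (1 - 1 / lam) ≤ ((h : ℝ) / ((g : ℝ) + 1)) ^ (1 / lam) := h5.trans h4
  rw [div_le_iff₀ hc] at h6
  linarith

/-- the change of the weight -/
theorem wgt_step {lam : ℝ} (hl : 5 ≤ lam) {h g : ℕ} (hh : 1 ≤ h) :
    wgt lam h g - wgt lam (h + 1) g ≤ (1 - wgt lam h g) / (lam * h) := by
  have hlam : 0 < lam := by linarith
  have hh' : (0 : ℝ) < h := by exact_mod_cast hh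
  rcases le_or_gt (wgt lam h g) 0 with h0 | h0
  · have e := le_antisymm h0 (wgt_nonneg lam h g)
    rw [e]
    have := wgt_nonneg lam (h + 1) g
    have h1 : 0 ≤ (1 - 0) / (lam * h) := by positivity
    linarith
  · set u : ℝ := ((h : ℝ) / ((g : ℝ) + 1)) ^ (1 / lam) with hu
    have hu0 : 0 ≤ u := Real.rpow_nonneg (by positivity) _
    have e1 : wgt lam h g = 1 - (1 - 1 / lam) * u := by
      unfold wgt at h0 ⊢
      rcases le_total (1 - (1 - 1 / lam) * ((h : ℝ) / ((g : ℝ) + 1)) ^ (1 / lam)) 0 with h1 | h1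
      · rw [max_eq_left h1] at h0
        exact absurd h0 (lt_irrefl 0)
      · rw [max_eq_right h1]
    have e2 : 1 - (1 - 1 / lam) * (u * (1 + 1 / (h : ℝ)) ^ (1 / lam)) ≤ wgt lam (h + 1) g := by
      have h1 : (((h + 1 : ℕ) : ℝ) / ((g : ℝ) + 1)) ^ (1 / lam) = u * (1 + 1 / (h : ℝ)) ^ (1 / lam) := by
        rw [hu, ← Real.mul_rpow (by positivity) (by positivity)]
        congr 1
        push_cast
        field_simp
      unfold wgt
      rw [h1]
      exact le_max_right _ _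
    have e3 : (1 + 1 / (h : ℝ)) ^ (1 / lam) ≤ 1 + 1 / lam * (1 / (h : ℝ)) := by
      apply rpow_one_add_le_one_add_mul_self
      · have : (0 : ℝ) ≤ 1 / h := by positivity
        linarith
      · positivity
      · rw [div_le_one hlam]
        linarith
    have hc : 0 ≤ 1 - 1 / lam := by
      have : 1 / lam ≤ 1 := by
        rw [div_le_one hlam]
        linarith
      linarith
    have e4 : (1 - 1 / lam) * (u * (1 + 1 / (h : ℝ)) ^ (1 / lam)) ≤
        (1 - 1 / lam) * (u * (1 + 1 / lam * (1 / (h : ℝ)))) :=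
      mul_le_mul_of_nonneg_left (mul_le_mul_of_nonneg_left e3 hu0) hc
    have e5 : (1 - wgt lam h g) / (lam * h) = (1 - 1 / lam) * u * (1 / lam * (1 / (h : ℝ))) := by
      rw [e1]
      field_simp
      ring
    rw [e5]
    rw [e1]
    nlinarith [e2, e4]

theorem ana_step {lam A : ℝ} (hl : 5 ≤ lam) {n : ℕ} {N X : ℕ → ℝ}
    (hX : ∀ h, 1 ≤ h → 0 ≤ X h ∧ X h ≤ N (h + 1) - N h) {h : ℕ} (hh : 1 ≤ h)
    (hrec : N h + ∑ g ∈ (Ico 1 h).filter (fun g => h ≤ 8 * g), X g ≤
      h * (lam * (N (h + 1) - N h) + X h) + A * (n * h + h ^ 2)) :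
    (1 + 1 / (lam * h)) * (N h + ∑ g ∈ Ico 1 h, wgt lam h g * X g) ≤
      (N (h + 1) + ∑ g ∈ Ico 1 (h + 1), wgt lam (h + 1) g * X g) + A / lam * (n + h) := by
  have hlam : 0 < lam := by linarith
  have hh' : (0 : ℝ) < h := by exact_mod_cast hh
  rw [Finset.sum_Ico_succ_top (by omega), wgt_diag (by linarith)]
  -- the terms
  have key : ∑ g ∈ Ico 1 h, (wgt lam h g - wgt lam (h + 1) g + wgt lam h g / (lam * h)) * X g ≤
      (∑ g ∈ (Ico 1 h).filter (fun g => h ≤ 8 * g), X g) / (lam * h) := by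
    rw [Finset.sum_div, Finset.sum_filter]
    apply Finset.sum_le_sum
    intro g hg
    rw [Finset.mem_Ico] at hg
    have hXg := (hX g hg.1).1
    split_ifs with hw
    · rw [div_eq_mul_one_div (X g), mul_comm (X g)]
      apply mul_le_mul_of_nonneg_right _ hXg
      have := wgt_step hl (h := h) (g := g) hh
      have e : (1 - wgt lam h g) / (lam * h) + wgt lam h g / (lam * h) = 1 / (lam * h) := by
        rw [← add_div]
        congr 1
        ring
      linarith
    · have e0 := wgt_zero hl hg.1 (h := h) (by omega)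
      rw [e0]
      have := wgt_nonneg lam (h + 1) g
      have : 0 ≤ wgt lam (h + 1) g * X g := mul_nonneg this hXg
      simp only [zero_div, add_zero, zero_sub]
      linarith
  have e1 : ∑ g ∈ Ico 1 h, (wgt lam h g - wgt lam (h + 1) g + wgt lam h g / (lam * h)) * X g =
      (1 + 1 / (lam * h)) * ∑ g ∈ Ico 1 h, wgt lam h g * X g - ∑ g ∈ Ico 1 h, wgt lam (h + 1) g * X g := by
    rw [Finset.mul_sum, ← Finset.sum_sub_distrib]
    apply Finset.sum_congr rfl
    intro g _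
    ring
  have e2 : (N h + ∑ g ∈ (Ico 1 h).filter (fun g => h ≤ 8 * g), X g) / (lam * h) ≤
      (N (h + 1) - N h) + X h / lam + A / lam * (n + h) := by
    rw [div_le_iff₀ (by positivity)]
    have : ((N (h + 1) - N h) + X h / lam + A / lam * (n + h)) * (lam * h) =
        h * (lam * (N (h + 1) - N h) + X h) + A * (n * h + h ^ 2) := by
      field_simp
    rw [this]
    exact hrec
  rw [add_div] at e2
  have e3 : (1 + 1 / (lam * h)) * (N h + ∑ g ∈ Ico 1 h, wgt lam h g * X g) =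
      N h + N h / (lam * h) + (1 + 1 / (lam * h)) * ∑ g ∈ Ico 1 h, wgt lam h g * X g := by
    ring
  rw [e3]
  have e4 : 1 / lam * X h = X h / lam := by ring
  rw [e4]
  linarith

end Ana

open Finset Ana in
/-- the recurrence with memory gives the exponent `2 - 1 / lam` -/
theorem ana (lam A : ℝ) (hlam : 5 ≤ lam) (hA : 0 ≤ A) :
    ∃ C : ℝ, 0 ≤ C ∧ ∀ n : ℕ, 1 ≤ n → ∀ N X : ℕ → ℝ,
      (∀ h, 1 ≤ h → 0 ≤ X h ∧ X h ≤ N (h + 1) - N h) →
      (∀ h, 0 ≤ N h ∧ N h ≤ A * (n : ℝ) ^ 2) →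
      (∀ h, 1 ≤ h → N h + ∑ g ∈ (Finset.Ico 1 h).filter (fun g => h ≤ 8 * g), X g ≤
        h * (lam * (N (h + 1) - N h) + X h) + A * (n * h + (h : ℝ) ^ 2)) →
      N 2 ≤ C * (n : ℝ) ^ (2 - 1 / lam) := by
  have hl : 5 ≤ lam := hlam
  have hlam0 : 0 < lam := by linarith
  have hx : 1 / lam ≤ 1 / 5 := one_div_le_one_div_of_le (by norm_num) hl
  have hx0 : 0 < 1 / lam := by positivity
  refine ⟨11 * A, by positivity, ?_⟩
  intro n hn N X hX hN hrec
  have hn' : (1 : ℝ) ≤ n := by exact_mod_cast hn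
  have hn0 : (0 : ℝ) < n := by linarith
  have hpw : (1 : ℝ) ≤ (n : ℝ) ^ (2 - 1 / lam) := Real.one_le_rpow hn' (by linarith)
  rcases Nat.lt_or_ge n 2 with hn2 | hn2
  · have : n = 1 := by omega
    subst this
    have := (hN 2).2
    norm_num at this ⊢
    nlinarith
  -- bound of the potential
  have hPhi : ∀ h, 1 ≤ h → N h + ∑ g ∈ Ico 1 h, wgt lam h g * X g ≤ 2 * A * (n : ℝ) ^ 2 := by
    intro h hh
    have h1 : ∑ g ∈ Ico 1 h, wgt lam h g * X g ≤ ∑ g ∈ Ico 1 h, (N (g + 1) - N g) := by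
      apply Finset.sum_le_sum
      intro g hg
      rw [Finset.mem_Ico] at hg
      have a1 := hX g hg.1
      have a2 := wgt_le_one (lam := lam) (by linarith) h g
      have a3 := wgt_nonneg lam h g
      nlinarith [mul_le_mul_of_nonneg_right a2 a1.1]
    have h2 : ∑ g ∈ Ico 1 h, (N (g + 1) - N g) = N h - N 1 := by
      rw [Finset.sum_Ico_sub N hh]
    have h3 := (hN h).2
    have h4 := (hN 1).1
    rw [h2] at h1
    linarith
  -- the down induction
  have main : ∀ d h : ℕ, 1 ≤ h → h + d = n → N h + ∑ g ∈ Ico 1 h, wgt lam h g * X g ≤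
      5 * A * ((n : ℝ) ^ (2 - 1 / lam) * (h : ℝ) ^ (1 / lam)) - A * (h : ℝ) ^ 2 - 2 * A * (n * h) := by
    intro d
    induction d with
    | zero =>
      intro h hh hd
      have hhn : h = n := by omega
      subst hhn
      have e1 : (h : ℝ) ^ (2 - 1 / lam) * (h : ℝ) ^ (1 / lam) = (h : ℝ) ^ 2 := by
        rw [← Real.rpow_add hn0]
        rw [show 2 - 1 / lam + 1 / lam = ((2 : ℕ) : ℝ) by push_cast; ring, Real.rpow_natCast]
      rw [e1]
      have := hPhi h hh
      nlinarith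
    | succ d ih =>
      intro h hh hd
      have i1 := ih (h + 1) (by omega) (by omega)
      have st := ana_step hl hX hh (hrec h hh)
      have hh' : (0 : ℝ) < h := by exact_mod_cast hh
      have hh1 : (1 : ℝ) ≤ h := by exact_mod_cast hh
      have hB : (((h + 1 : ℕ) : ℝ)) ^ (1 / lam) ≤ (h : ℝ) ^ (1 / lam) * (1 + 1 / (lam * h)) := by
        have e1 : (((h + 1 : ℕ) : ℝ)) = (h : ℝ) * (1 + 1 / (h : ℝ)) := by
          push_cast
          field_simp
        rw [e1, Real.mul_rpow (by positivity) (by positivity)]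
        apply mul_le_mul_of_nonneg_left _ (Real.rpow_nonneg hh'.le _)
        have e3 : (1 + 1 / (h : ℝ)) ^ (1 / lam) ≤ 1 + 1 / lam * (1 / (h : ℝ)) := by
          apply rpow_one_add_le_one_add_mul_self
          · have : (0 : ℝ) ≤ 1 / h := by positivity
            linarith
          · positivity
          · linarith
        refine e3.trans (le_of_eq ?_)
        field_simp
      set Q : ℝ := (n : ℝ) ^ (2 - 1 / lam) with hQ
      set R : ℝ := (h : ℝ) ^ (1 / lam) with hR
      have hR0 : 0 ≤ R := Real.rpow_nonneg hh'.le _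
      have hQ0 : 0 ≤ Q := by linarith
      have hB2 : 5 * A * (Q * (((h + 1 : ℕ) : ℝ)) ^ (1 / lam)) ≤ 5 * A * (Q * (R * (1 + 1 / (lam * h)))) :=
        mul_le_mul_of_nonneg_left (mul_le_mul_of_nonneg_left hB hQ0) (by positivity)
      have hAl : A / lam ≤ A / 5 := div_le_div_of_nonneg_left hA (by norm_num) hl
      have hAl' : A / lam * (n + h) ≤ A / 5 * (n + h) := mul_le_mul_of_nonneg_right hAl (by positivity)
      have hfac : 0 < 1 + 1 / (lam * h) := by positivity
      have hinv : 1 / (lam * h) * h = 1 / lam := by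
        field_simp
      -- multiply the goal by the factor
      have goal : (1 + 1 / (lam * h)) * (N h + ∑ g ∈ Ico 1 h, wgt lam h g * X g) ≤
          (1 + 1 / (lam * h)) * (5 * A * (Q * R) - A * (h : ℝ) ^ 2 - 2 * A * (n * h)) := by
        have e5 : (1 + 1 / (lam * h)) * (5 * A * (Q * R) - A * (h : ℝ) ^ 2 - 2 * A * (n * h)) =
            5 * A * (Q * (R * (1 + 1 / (lam * h)))) - A * (h : ℝ) ^ 2 - A * h * (1 / lam) -
              2 * A * (n * h) - 2 * A * n * (1 / lam) := by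
          rw [← hinv]
          ring
        rw [e5]
        push_cast at i1 st hB2
        have e6 : A * h * (1 / lam) ≤ A * h * (1 / 5) := mul_le_mul_of_nonneg_left hx (by positivity)
        have e7 : 2 * A * n * (1 / lam) ≤ 2 * A * n * (1 / 5) := mul_le_mul_of_nonneg_left hx (by positivity)
        have e8 : 0 ≤ A * h := by positivity
        have e9 : 0 ≤ A * n := by positivity
        nlinarith
      exact le_of_mul_le_mul_left goal hfac
  have m2 := main (n - 2) 2 (by norm_num) (by omega)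
  have hs : 0 ≤ ∑ g ∈ Ico 1 2, wgt lam 2 g * X g := by
    apply Finset.sum_nonneg
    intro g hg
    rw [Finset.mem_Ico] at hg
    exact mul_nonneg (wgt_nonneg _ _ _) (hX g hg.1).1
  have h2p : ((2 : ℕ) : ℝ) ^ (1 / lam) ≤ 2 := by
    calc ((2 : ℕ) : ℝ) ^ (1 / lam) ≤ ((2 : ℕ) : ℝ) ^ (1 : ℝ) :=
          Real.rpow_le_rpow_of_exponent_le (by norm_num) (by linarith)
      _ = 2 := by norm_num
  have hQ0 : (0 : ℝ) ≤ (n : ℝ) ^ (2 - 1 / lam) := by linarith
  have h3 : (n : ℝ) ^ (2 - 1 / lam) * ((2 : ℕ) : ℝ) ^ (1 / lam) ≤ (n : ℝ) ^ (2 - 1 / lam) * 2 :=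
    mul_le_mul_of_nonneg_left h2p hQ0
  have h4 : 5 * A * ((n : ℝ) ^ (2 - 1 / lam) * ((2 : ℕ) : ℝ) ^ (1 / lam)) ≤
      5 * A * ((n : ℝ) ^ (2 - 1 / lam) * 2) := mul_le_mul_of_nonneg_left h3 (by positivity)
  have h5 : 0 ≤ A * ((2 : ℕ) : ℝ) ^ 2 := by positivity
  have h6 : 0 ≤ 2 * A * (n * ((2 : ℕ) : ℝ)) := by positivity
  have h7 : 0 ≤ A * (n : ℝ) ^ (2 - 1 / lam) := mul_nonneg hA hQ0
  nlinarith

end LUB
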