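import Pool.Agent.LUB.CoreDefs

/-!
# Upper bounds for a level: which curves are in the band
-/

open scoped Classical

namespace LUB

variable {V : Type} [DecidableEq V] [Fintype V] {s : ℕ}

/-- positions before and after an exchange -/
theorem Sweep.pos_swap (S : Sweep V s) {t : ℕ} (ht : t < S.M) (h : S.gap t ≠ 0) :
    S.x t ≠ S.y t ∧ S.x t ∈ S.L t ∧ S.y t ∈ S.L t ∧ (∀ v, v ∈ S.L (t + 1) ↔ v ∈ S.L t) ∧
      (S.L t).idxOf (S.x t) + 1 = S.gap t ∧ (S.L t).idxOf (S.y t) = S.gap t ∧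
      (S.L (t + 1)).idxOf (S.y t) + 1 = S.gap t ∧ (S.L (t + 1)).idxOf (S.x t) = S.gap t ∧
      ∀ v, v ≠ S.x t → v ≠ S.y t → (S.L (t + 1)).idxOf v = (S.L t).idxOf v := by
  obtain ⟨a, b, hg, h1, h2⟩ := S.swap t ht h
  have nd := S.nodup t ht.le
  rw [h1] at nd ⊢
  rw [h2]
  have hn := List.nodup_append.1 nd
  have hxa : S.x t ∉ a := fun hx => hn.2.2 _ hx _ (by simp) rfl
  have hya : S.y t ∉ a := fun hy => hn.2.2 _ hy _ (by simp) rfl
  have hxy : S.x t ≠ S.y t := by
    have := (List.nodup_cons.1 hn.2.1).1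
    intro e
    exact this (by simp [e])
  refine ⟨hxy, by simp, by simp, fun v => ?_, ?_, ?_, ?_, ?_, fun v hvx hvy => ?_⟩
  · simp only [List.mem_append, List.mem_cons]
    tauto
  · rw [List.idxOf_append_of_notMem hxa, List.idxOf_cons_self, ← hg]
  · rw [List.idxOf_append_of_notMem hya, List.idxOf_cons_ne _ hxy, List.idxOf_cons_self, ← hg]
  · rw [List.idxOf_append_of_notMem hya, List.idxOf_cons_self, ← hg]
  · rw [List.idxOf_append_of_notMem hxa, List.idxOf_cons_ne _ hxy.symm, List.idxOf_cons_self,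
      ← hg]
  · by_cases hva : v ∈ a
    · rw [List.idxOf_append_of_mem hva, List.idxOf_append_of_mem hva]
    · rw [List.idxOf_append_of_notMem hva, List.idxOf_append_of_notMem hva,
        List.idxOf_cons_ne _ hvy.symm, List.idxOf_cons_ne _ hvx.symm,
        List.idxOf_cons_ne _ hvx.symm, List.idxOf_cons_ne _ hvy.symm]

theorem Sweep.in_card (S : Sweep V s) (k g t : ℕ) :
    ((Finset.univ : Finset V).filter fun v => S.In k g t v).card ≤ 2 * g := by
  have h : ((Finset.univ : Finset V).filter fun v => S.In k g t v).card ≤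
      (Finset.Ioc (k - g) (k + g)).card := by
    refine Finset.card_le_card_of_injOn (fun v => (S.L t).idxOf v + 1) ?_ ?_
    · intro v hv
      simp only [Finset.coe_filter, Finset.mem_univ, true_and, Set.mem_ofPred_eq, Sweep.In] at hv
      simp only [Finset.coe_Ioc, Set.mem_Ioc]
      omega
    · intro v hv w hw e
      simp only [Finset.coe_filter, Finset.mem_univ, true_and, Set.mem_ofPred_eq, Sweep.In] at hv
      have e' : (S.L t).idxOf v = (S.L t).idxOf w := by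
        simpa using e
      exact (List.idxOf_inj hv.1).1 e'
  rw [Nat.card_Ioc] at h
  omega

theorem Sweep.mem_swap (S : Sweep V s) {t : ℕ} (ht : t < S.M) (h : S.gap t ≠ 0) (v : V) :
    v ∈ S.L (t + 1) ↔ v ∈ S.L t :=
  (S.pos_swap ht h).2.2.2.1 v

/-- nothing enters or leaves the band at an exchange which is not at the boundary -/
theorem Sweep.in_swap (S : Sweep V s) {k g t : ℕ} (ht : t < S.M) (h : S.gap t ≠ 0)
    (hb : ¬ S.Bd k g t) (v : V) : S.In k g (t + 1) v ↔ S.In k g t v := by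
  obtain ⟨hxy, hx, hy, hm, p1, p2, p3, p4, p5⟩ := S.pos_swap ht h
  have hb' : S.gap t ≠ k + g ∧ S.gap t + g ≠ k := by
    constructor
    · exact fun e => hb ⟨h, Or.inl e⟩
    · exact fun e => hb ⟨h, Or.inr e⟩
  unfold Sweep.In
  rw [hm v]
  by_cases hvx : v = S.x t
  · subst hvx
    constructor
    · rintro ⟨m, h1, h2⟩
      exact ⟨m, by omega, by omega⟩
    · rintro ⟨m, h1, h2⟩
      exact ⟨m, by omega, by omega⟩
  · by_cases hvy : v = S.y t
    · subst hvy
      constructor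
      · rintro ⟨m, h1, h2⟩
        exact ⟨m, by omega, by omega⟩
      · rintro ⟨m, h1, h2⟩
        exact ⟨m, by omega, by omega⟩
    · rw [p5 v hvx hvy]

theorem Sweep.in_bd (S : Sweep V s) {k g t : ℕ} (ht : t < S.M) (hb : S.Bd k g t) (v : V)
    (h1 : v ≠ S.ex k g t) (h2 : v ≠ S.en k g t) : S.In k g (t + 1) v ↔ S.In k g t v := by
  obtain ⟨hxy, hx, hy, hm, p1, p2, p3, p4, p5⟩ := S.pos_swap ht hb.1
  have hv : v ≠ S.x t ∧ v ≠ S.y t := by
    unfold Sweep.ex at h1
    unfold Sweep.en at h2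
    by_cases e : S.gap t = k + g
    · rw [if_pos e] at h1 h2
      exact ⟨h1, h2⟩
    · rw [if_neg e] at h1 h2
      exact ⟨h2, h1⟩
  unfold Sweep.In
  rw [hm v, p5 v hv.1 hv.2]

theorem Sweep.bd (S : Sweep V s) {k g t : ℕ} (hg : 1 ≤ g) (ht : t < S.M) (hb : S.Bd k g t) :
    S.In k g t (S.ex k g t) ∧ ¬ S.In k g (t + 1) (S.ex k g t) ∧ ¬ S.In k g t (S.en k g t) ∧
      S.In k g (t + 1) (S.en k g t) ∧ S.ex k g t ≠ S.en k g t ∧
      s(S.ex k g t, S.en k g t) = s(S.x t, S.y t) := by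
  obtain ⟨hxy, hx, hy, hm, p1, p2, p3, p4, p5⟩ := S.pos_swap ht hb.1
  unfold Sweep.ex Sweep.en Sweep.In
  by_cases e : S.gap t = k + g
  · rw [if_pos e, if_pos e]
    refine ⟨⟨hx, by omega, by omega⟩, ?_, ?_, ⟨(hm _).2 hy, by omega, by omega⟩, hxy, rfl⟩
    · rintro ⟨-, h1, h2⟩
      omega
    · rintro ⟨-, h1, h2⟩
      omega
  · have e' : S.gap t + g = k := hb.2.resolve_left e
    rw [if_neg e, if_neg e]
    refine ⟨⟨hy, by omega, by omega⟩, ?_, ?_, ⟨(hm _).2 hx, by omega, by omega⟩, hxy.symm,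
      Sym2.eq_swap⟩
    · rintro ⟨-, h1, h2⟩
      omega
    · rintro ⟨-, h1, h2⟩
      omega

/-- an exchange with one of the two curves in the band before and after is in the band -/
theorem Sweep.sw_in (S : Sweep V s) {k g t : ℕ} (hg : 1 ≤ g) {u v : V} (h : S.Sw t s(u, v))
    (hu : S.In k g t u) (hu' : S.In k g (t + 1) u) :
    S.In k g t v ∧ S.In k g (t + 1) v ∧ k < S.gap t + g ∧ S.gap t < k + g := by
  obtain ⟨ht, h0, hp⟩ := h
  obtain ⟨hxy, hx, hy, hm, p1, p2, p3, p4, p5⟩ := S.pos_swap ht h0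
  unfold Sweep.In at hu hu' ⊢
  obtain ⟨-, a1, a2⟩ := hu
  obtain ⟨-, a3, a4⟩ := hu'
  rcases Sym2.eq_iff.1 hp with ⟨e1, e2⟩ | ⟨e1, e2⟩
  · rw [← e1] at a1 a2 a3 a4
    rw [← e2]
    exact ⟨⟨hy, by omega, by omega⟩, ⟨(hm _).2 hy, by omega, by omega⟩, by omega, by omega⟩
  · rw [← e2] at a1 a2 a3 a4
    rw [← e1]
    exact ⟨⟨hx, by omega, by omega⟩, ⟨(hm _).2 hx, by omega, by omega⟩, by omega, by omega⟩

/-- the pair of an exchange in the band -/
theorem Sweep.int_in (S : Sweep V s) {k g t : ℕ} (ht : t < S.M) (h : S.gap t ≠ 0)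
    (h1 : k < S.gap t + g) (h2 : S.gap t < k + g) :
    S.J k g t s(S.x t, S.y t) ∧ S.J k g (t + 1) s(S.x t, S.y t) := by
  obtain ⟨hxy, hx, hy, hm, p1, p2, p3, p4, p5⟩ := S.pos_swap ht h
  unfold Sweep.J Sweep.In
  refine ⟨⟨by simpa using hxy, ?_⟩, ⟨by simpa using hxy, ?_⟩⟩
  · intro v hv
    rcases Sym2.mem_iff.1 hv with rfl | rfl
    · exact ⟨hx, by omega, by omega⟩
    · exact ⟨hy, by omega, by omega⟩
  · intro v hv
    rcases Sym2.mem_iff.1 hv with rfl | rfl
    · exact ⟨(hm _).2 hx, by omega, by omega⟩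
    · exact ⟨(hm _).2 hy, by omega, by omega⟩

/-- an insertion or deletion concerns one curve -/
theorem Sweep.mem_jump (S : Sweep V s) {t : ℕ} (ht : t < S.M) (h : S.gap t = 0) :
    ∃ v, ∀ w, w ≠ v → (w ∈ S.L (t + 1) ↔ w ∈ S.L t) := by
  obtain ⟨a, b, v, ⟨h1, h2⟩ | ⟨h1, h2⟩⟩ := S.jump t ht h
  · refine ⟨v, fun w hw => ?_⟩
    rw [h1, h2]
    simp only [List.mem_append, List.mem_cons]
    tauto
  · refine ⟨v, fun w hw => ?_⟩
    rw [h1, h2]
    simp only [List.mem_append, List.mem_cons]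
    tauto

omit [Fintype V] in
/-- insertion of one element in a list: at most one element enters the band and at most one
leaves it -/
theorem ins_aux (k g : ℕ) (a b : List V) (v : V) (nd : (a ++ v :: b).Nodup) :
    (∀ u w, (u ∈ a ++ v :: b ∧ k < (a ++ v :: b).idxOf u + 1 + g ∧
        (a ++ v :: b).idxOf u + 1 ≤ k + g) →
      ¬ (u ∈ a ++ b ∧ k < (a ++ b).idxOf u + 1 + g ∧ (a ++ b).idxOf u + 1 ≤ k + g) →
      (w ∈ a ++ v :: b ∧ k < (a ++ v :: b).idxOf w + 1 + g ∧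
        (a ++ v :: b).idxOf w + 1 ≤ k + g) →
      ¬ (w ∈ a ++ b ∧ k < (a ++ b).idxOf w + 1 + g ∧ (a ++ b).idxOf w + 1 ≤ k + g) → u = w) ∧
    (∀ u w, (u ∈ a ++ b ∧ k < (a ++ b).idxOf u + 1 + g ∧ (a ++ b).idxOf u + 1 ≤ k + g) →
      ¬ (u ∈ a ++ v :: b ∧ k < (a ++ v :: b).idxOf u + 1 + g ∧
        (a ++ v :: b).idxOf u + 1 ≤ k + g) →
      (w ∈ a ++ b ∧ k < (a ++ b).idxOf w + 1 + g ∧ (a ++ b).idxOf w + 1 ≤ k + g) →
      ¬ (w ∈ a ++ v :: b ∧ k < (a ++ v :: b).idxOf w + 1 + g ∧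
        (a ++ v :: b).idxOf w + 1 ≤ k + g) → u = w) := by
  have hn := List.nodup_append.1 nd
  have hva : v ∉ a := fun hx => hn.2.2 _ hx _ (by simp) rfl
  have hvb : v ∉ b := (List.nodup_cons.1 hn.2.1).1
  -- positions
  have pa : ∀ u ∈ a, (a ++ v :: b).idxOf u = (a ++ b).idxOf u := by
    intro u hu
    rw [List.idxOf_append_of_mem hu, List.idxOf_append_of_mem hu]
  have pb : ∀ u ∈ b, (a ++ v :: b).idxOf u = (a ++ b).idxOf u + 1 ∧
      a.length ≤ (a ++ b).idxOf u := by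
    intro u hu
    have hua : u ∉ a := fun hx => hn.2.2 _ hx _ (by simp [hu]) rfl
    have huv : v ≠ u := fun e => hvb (e ▸ hu)
    rw [List.idxOf_append_of_notMem hua, List.idxOf_append_of_notMem hua,
      List.idxOf_cons_ne _ huv]
    omega
  have pv : (a ++ v :: b).idxOf v = a.length := by
    rw [List.idxOf_append_of_notMem hva, List.idxOf_cons_self]
    simp
  constructor
  · intro u w hu hu' hw hw'
    have key : ∀ u, (u ∈ a ++ v :: b ∧ k < (a ++ v :: b).idxOf u + 1 + g ∧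
        (a ++ v :: b).idxOf u + 1 ≤ k + g) →
      ¬ (u ∈ a ++ b ∧ k < (a ++ b).idxOf u + 1 + g ∧ (a ++ b).idxOf u + 1 ≤ k + g) →
      u = v ∨ (k + 1 = (a ++ v :: b).idxOf u + 1 + g ∧ a.length < (a ++ v :: b).idxOf u) := by
      rintro u ⟨hu, h1, h2⟩ h3
      simp only [List.mem_append, List.mem_cons] at hu
      rcases hu with hu | hu | hu
      · exfalso
        refine h3 ⟨by simp [hu], ?_, ?_⟩
        · rw [← pa u hu]
          exact h1
        · rw [← pa u hu]
          exact h2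
      · exact Or.inl hu
      · right
        obtain ⟨q1, q2⟩ := pb u hu
        constructor
        · by_contra hc
          refine h3 ⟨by simp [hu], ?_, ?_⟩ <;> omega
        · omega
    have kv : ∀ u, (k + 1 = (a ++ v :: b).idxOf u + 1 + g ∧
        a.length < (a ++ v :: b).idxOf u) →
      ¬ (k < (a ++ v :: b).idxOf v + 1 + g) := by
      rintro u ⟨h1, h2⟩
      rw [pv]
      omega
    rcases key u hu hu' with e1 | e1 <;> rcases key w hw hw' with e2 | e2
    · rw [e1, e2]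
    · exact absurd (e1 ▸ hu.2.1) (kv w e2)
    · exact absurd (e2 ▸ hw.2.1) (kv u e1)
    · refine (List.idxOf_inj hu.1).1 ?_
      omega
  · intro u w hu hu' hw hw'
    have key : ∀ u, (u ∈ a ++ b ∧ k < (a ++ b).idxOf u + 1 + g ∧
        (a ++ b).idxOf u + 1 ≤ k + g) →
      ¬ (u ∈ a ++ v :: b ∧ k < (a ++ v :: b).idxOf u + 1 + g ∧
        (a ++ v :: b).idxOf u + 1 ≤ k + g) →
      (a ++ b).idxOf u + 1 = k + g := by
      rintro u ⟨hu, h1, h2⟩ h3
      simp only [List.mem_append] at hu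
      rcases hu with hu | hu
      · exfalso
        refine h3 ⟨by simp [hu], ?_, ?_⟩
        · rw [pa u hu]
          exact h1
        · rw [pa u hu]
          exact h2
      · obtain ⟨q1, q2⟩ := pb u hu
        by_contra hc
        refine h3 ⟨by simp [hu], ?_, ?_⟩ <;> omega
    refine (List.idxOf_inj hu.1).1 ?_
    have := key u hu hu'
    have := key w hw hw'
    omega

/-- at most one curve enters and at most one curve leaves the band at a jump -/
theorem Sweep.in_jump (S : Sweep V s) {k g t : ℕ} (ht : t < S.M) (h : S.gap t = 0) :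
    (∀ u v, S.In k g (t + 1) u → ¬ S.In k g t u → S.In k g (t + 1) v → ¬ S.In k g t v → u = v) ∧
      ∀ u v, S.In k g t u → ¬ S.In k g (t + 1) u → S.In k g t v → ¬ S.In k g (t + 1) v →
        u = v := by
  obtain ⟨a, b, v, ⟨h1, h2⟩ | ⟨h1, h2⟩⟩ := S.jump t ht h
  · have nd : (a ++ v :: b).Nodup := h2 ▸ S.nodup (t + 1) ht
    unfold Sweep.In
    rw [h1, h2]
    exact ins_aux k g a b v nd
  · have nd : (a ++ v :: b).Nodup := h1 ▸ S.nodup t ht.le
    unfold Sweep.In
    rw [h1, h2]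
    exact (ins_aux k g a b v nd).symm

end LUB
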