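import Pool.Agent.LUB.Defs

/-!
# Bubble sort: from one order to another by exchanges of neighbours

Every inverted pair is exchanged exactly once, the other pairs are never exchanged.
-/

namespace LUB.Bub

variable {V : Type*}

/-- `Chain l S l'`: the steps `S` (gap, lower curve, upper curve) lead from `l` to `l'`; a step
`(a.length + 1, x, y)` turns `a ++ x :: y :: b` into `a ++ y :: x :: b`. -/
inductive Chain : List V → List (ℕ × V × V) → List V → Prop
  | nil (l : List V) : Chain l [] l
  | cons (a b : List V) (x y : V) (S : List (ℕ × V × V)) (l' : List V) :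
      Chain (a ++ y :: x :: b) S l' → Chain (a ++ x :: y :: b) ((a.length + 1, x, y) :: S) l'

/-- raise all gaps by `m` -/
def up (m : ℕ) (S : List (ℕ × V × V)) : List (ℕ × V × V) := S.map fun p => (p.1 + m, p.2.1, p.2.2)

theorem Chain.append {l l' l'' : List V} {S S' : List (ℕ × V × V)} (h : Chain l S l')
    (h' : Chain l' S' l'') : Chain l (S ++ S') l'' := by
  induction h with
  | nil l => simpa using h'
  | cons a b x y S l1 _ ih => exact Chain.cons a b x y (S ++ S') l'' (ih h')

theorem Chain.addLeft (c : List V) {l l' : List V} {S : List (ℕ × V × V)} (h : Chain l S l') :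
    Chain (c ++ l) (up c.length S) (c ++ l') := by
  induction h with
  | nil l => exact Chain.nil _
  | cons a b x y S l1 _ ih =>
    have h1 := Chain.cons (c ++ a) b x y (up c.length S) (c ++ l1) (by simpa using ih)
    have h2 : (c ++ a).length + 1 = a.length + 1 + c.length := by
      rw [List.length_append]; omega
    rw [h2] at h1
    simpa [up] using h1

theorem Chain.addRight (c : List V) {l l' : List V} {S : List (ℕ × V × V)} (h : Chain l S l') :
    Chain (l ++ c) S (l' ++ c) := by
  induction h with
  | nil l => exact Chain.nil _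
  | cons a b x y S l1 _ ih =>
    have h1 := Chain.cons a (b ++ c) x y S (l1 ++ c) (by simpa using ih)
    simpa using h1

theorem Chain.perm {l l' : List V} {S : List (ℕ × V × V)} (h : Chain l S l') : l.Perm l' := by
  induction h with
  | nil l => exact List.Perm.refl _
  | cons a b x y S l1 _ ih =>
    exact ((List.Perm.swap y x b).append_left a).trans ih

/-- move `z` to the bottom -/
theorem exists_move (z : V) (a : List V) : ∀ b : List V, ∃ S : List (ℕ × V × V),
    Chain (a ++ z :: b) S (z :: (a ++ b)) ∧ S.map (fun p => p.2.1) = a.reverse ∧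
      ∀ p ∈ S, p.2.2 = z := by
  induction a using List.reverseRecOn with
  | nil => exact fun b => ⟨[], by simpa using Chain.nil (z :: b), by simp, by simp⟩
  | append_singleton a u ih =>
    intro b
    obtain ⟨S, h1, h2, h3⟩ := ih (u :: b)
    refine ⟨(a.length + 1, u, z) :: S, ?_, ?_, ?_⟩
    · have h4 := Chain.cons a b u z S (z :: (a ++ u :: b)) h1
      simpa using h4
    · simp [h2]
    · intro p hp
      rcases List.mem_cons.1 hp with rfl | hp
      · rfl
      · exact h3 p hp

theorem sublist_pair_of_mem {a b : List V} {u z : V} (hu : u ∈ a) :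
    [u, z].Sublist (a ++ z :: b) := by
  have h1 : [u].Sublist a := List.singleton_sublist.2 hu
  have h2 : [z].Sublist (z :: b) := (List.nil_sublist b).cons_cons z
  exact h1.append h2

/-- **Bubble sort.** Between two orders of the same set there is a chain of exchanges of neighbours
in which every pair occurs at most once, and only pairs whose order is different occur. -/
theorem exists_chain [DecidableEq V] : ∀ (l' l : List V), l.Nodup → l.Perm l' →
    ∃ S : List (ℕ × V × V), Chain l S l' ∧ (S.map fun p => s(p.2.1, p.2.2)).Nodup ∧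
      (∀ p ∈ S, p.2.1 ≠ p.2.2 ∧ [p.2.1, p.2.2].Sublist l ∧ [p.2.2, p.2.1].Sublist l') := by
  intro l'
  induction l' with
  | nil =>
    intro l hl hp
    have h : l = [] := hp.eq_nil
    subst h
    exact ⟨[], Chain.nil _, by simp, by simp⟩
  | cons z l' ih =>
    intro l hl hp
    have hz : z ∈ l := hp.symm.subset (by simp)
    obtain ⟨a, b, rfl⟩ := List.append_of_mem hz
    have hp' : (a ++ b).Perm l' := by
      have h1 : (z :: (a ++ b)).Perm (z :: l') := List.perm_middle.symm.trans hp
      exact (List.perm_cons z).1 h1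
    have hsub : (a ++ b).Sublist (a ++ z :: b) := (List.sublist_cons_self z b).append_left a
    have hab : (a ++ b).Nodup := hl.sublist hsub
    have hza : z ∉ a := by
      intro h
      have := List.nodup_append.1 hl
      exact this.2.2 z h z (by simp) rfl
    have hzb : z ∉ b := by
      have h1 := (List.nodup_append.1 hl).2.1
      exact (List.nodup_cons.1 h1).1
    have hzl : z ∉ l' := by
      intro h
      have := hp'.symm.subset h
      rcases List.mem_append.1 this with h | h
      · exact hza h
      · exact hzb h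
    obtain ⟨S1, c1, f1, g1⟩ := exists_move z a b
    obtain ⟨S2, c2, n2, q2⟩ := ih (a ++ b) hab hp'
    have hmem2 : ∀ p ∈ S2, p.2.1 ≠ z ∧ p.2.2 ≠ z := by
      intro p hp
      obtain ⟨_, h1, h2⟩ := q2 p hp
      have h3 : p.2.1 ∈ l' := h2.subset (by simp)
      have h4 : p.2.2 ∈ l' := h2.subset (by simp)
      exact ⟨fun h => hzl (h ▸ h3), fun h => hzl (h ▸ h4)⟩
    have hmem1 : ∀ p ∈ S1, p.2.1 ∈ a := by
      intro p hp
      have h1 : p.2.1 ∈ S1.map (fun p => p.2.1) := List.mem_map_of_mem hp
      rw [f1] at h1
      simpa using h1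
    have c3 : Chain (z :: (a ++ b)) (up 1 S2) (z :: l') := c2.addLeft [z]
    refine ⟨S1 ++ up 1 S2, c1.append c3, ?_, ?_⟩
    · rw [List.map_append, List.nodup_append]
      refine ⟨?_, ?_, ?_⟩
      · have h1 : S1.map (fun p => s(p.2.1, p.2.2)) = (S1.map fun p => p.2.1).map fun u => s(u, z) := by
          rw [List.map_map]
          refine List.map_congr_left fun p hp => ?_
          simp [g1 p hp]
        rw [h1, f1]
        refine List.Nodup.map_on ?_ (List.nodup_reverse.2 (hl.sublist (List.sublist_append_left a _)))
        intro u _ v _ huv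
        rw [Sym2.eq_iff] at huv
        rcases huv with ⟨h, _⟩ | ⟨h, h'⟩
        · exact h
        · rw [h, h']
      · have h1 : (up 1 S2).map (fun p => s(p.2.1, p.2.2)) = S2.map fun p => s(p.2.1, p.2.2) := by
          simp [up, Function.comp_def]
        rw [h1]
        exact n2
      · intro e he e' he' hee
        subst hee
        obtain ⟨p, hp, rfl⟩ := List.mem_map.1 he
        obtain ⟨p', hp', h1⟩ := List.mem_map.1 he'
        obtain ⟨p'', hp'', rfl⟩ := List.mem_map.1 hp'
        have h2 := hmem2 p'' hp''
        have h3 := g1 p hp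
        simp only [Sym2.eq_iff] at h1
        rcases h1 with ⟨_, h⟩ | ⟨h, _⟩
        · exact h2.2 (h.trans h3)
        · exact h2.1 (h.trans h3)
    · intro p hp
      rcases List.mem_append.1 hp with hp | hp
      · have h1 := hmem1 p hp
        have h2 := g1 p hp
        rw [h2]
        refine ⟨fun h => hza (h ▸ h1), sublist_pair_of_mem h1, ?_⟩
        have h3 : p.2.1 ∈ l' := hp'.subset (List.mem_append_left b h1)
        exact (List.singleton_sublist.2 h3).cons_cons z
      · obtain ⟨p', hp', rfl⟩ := List.mem_map.1 hp
        obtain ⟨h0, h1, h2⟩ := q2 p' hp'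
        exact ⟨h0, h1.trans hsub, h2.cons z⟩

/-- the states of a chain as a function of the time -/
theorem Chain.states {l l' : List V} {S : List (ℕ × V × V)} (h : Chain l S l') :
    ∃ L : ℕ → List V, L 0 = l ∧ L S.length = l' ∧ (∀ t, (L t).Perm l) ∧
      ∀ (t : ℕ) (ht : t < S.length), ∃ a b : List V, a.length + 1 = (S[t]).1 ∧
        L t = a ++ (S[t]).2.1 :: (S[t]).2.2 :: b ∧
        L (t + 1) = a ++ (S[t]).2.2 :: (S[t]).2.1 :: b := by
  induction h with
  | nil l =>
    exact ⟨fun _ => l, rfl, rfl, fun _ => List.Perm.refl _, fun t ht => absurd ht (by simp)⟩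
  | cons a b x y S l1 _ ih =>
    obtain ⟨L, h0, h1, hp, h2⟩ := ih
    refine ⟨fun t => Nat.casesOn t (a ++ x :: y :: b) L, rfl, ?_, ?_, ?_⟩
    · simpa using h1
    · intro t
      cases t with
      | zero => exact List.Perm.refl _
      | succ t => exact (hp t).trans ((List.Perm.swap x y b).append_left a)
    · intro t ht
      cases t with
      | zero => exact ⟨a, b, by simp, by simp, by simpa using h0⟩
      | succ t =>
        obtain ⟨a', b', e1, e2, e3⟩ := h2 t (by simpa using ht)
        exact ⟨a', b', by simpa using e1, by simpa using e2, by simpa using e3⟩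

/-- a chain as a run -/
theorem Chain.run {V : Type} [DecidableEq V] {l l' : List V} {S : List (ℕ × V × V)}
    (h : Chain l S l') : ∃ R : List (Stp V × List V), Run l R l' ∧ (∀ q ∈ R, q.2.Perm l) ∧
      R.map (fun q => q.1) = S.map fun p => Stp.swp p.1 p.2.1 p.2.2 := by
  induction h with
  | nil l => exact ⟨[], rfl, by simp, rfl⟩
  | cons a b x y S l1 _ ih =>
    obtain ⟨R, h1, h2, h3⟩ := ih
    refine ⟨(Stp.swp (a.length + 1) x y, a ++ y :: x :: b) :: R, ⟨⟨a, b, rfl, rfl, rfl⟩, h1⟩, ?_, ?_⟩
    · intro q hq
      have hsw : (a ++ y :: x :: b).Perm (a ++ x :: y :: b) :=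
        (List.Perm.swap x y b).append_left a
      rcases List.mem_cons.1 hq with rfl | hq
      · exact hsw
      · exact (h2 q hq).trans hsw
    · simp [h3]

theorem idxOf_lt_of_sublist {V : Type} [DecidableEq V] : ∀ {l : List V} {x y : V}, l.Nodup →
    [x, y].Sublist l → l.idxOf x < l.idxOf y := by
  intro l
  induction l with
  | nil => intro x y _ h; simp at h
  | cons z l ih =>
    intro x y hn h
    obtain ⟨hz, hn'⟩ := List.nodup_cons.1 hn
    by_cases hx : z = x
    · subst hx
      have hy : y ≠ z := by
        intro h1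
        subst h1
        have := h.nodup hn
        simp at this
      rw [List.idxOf_cons_self, List.idxOf_cons_ne _ (Ne.symm hy)]
      omega
    · have h' : [x, y].Sublist l := by
        rcases List.sublist_cons_iff.1 h with h1 | ⟨r, h1, _⟩
        · exact h1
        · simp only [List.cons.injEq] at h1
          exact absurd h1.1.symm hx
      have hy : y ∈ l := h'.subset (by simp)
      have hy' : z ≠ y := fun h1 => hz (h1 ▸ hy)
      rw [List.idxOf_cons_ne _ hx, List.idxOf_cons_ne _ hy']
      exact Nat.succ_lt_succ (ih hn' h')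

end LUB.Bub

namespace LUB

open Bub

/-- Bubble sort as a run. -/
theorem bubble {V : Type} [DecidableEq V] (l l' : List V) (hl : l.Nodup) (hp : l.Perm l') :
    ∃ R : List (Stp V × List V), Run l R l' ∧ (∀ q ∈ R, q.1.isJ = false ∧ q.2.Perm l) ∧
      ∀ u v, u ≠ v → R.countP (fun q => q.1.sw u v) ≤ if Inv l l' u v then 1 else 0 := by
  obtain ⟨S, hc, hn, hS⟩ := exists_chain l' l hl hp
  obtain ⟨R, h1, h2, h3⟩ := hc.run
  have hl' : l'.Nodup := hp.nodup_iff.1 hl
  refine ⟨R, h1, fun q hq => ⟨?_, h2 q hq⟩, ?_⟩
  · have : q.1 ∈ R.map (fun q => q.1) := List.mem_map_of_mem hq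
    rw [h3] at this
    obtain ⟨p, _, hp⟩ := List.mem_map.1 this
    rw [← hp]
    rfl
  · intro u v huv
    have e1 : R.countP (fun q => q.1.sw u v) =
        (S.map fun p => s(p.2.1, p.2.2)).count s(u, v) := by
      have a1 : R.countP (fun q => q.1.sw u v) =
          (R.map (fun q => q.1)).countP fun q => q.sw u v := by
        rw [List.countP_map]
        rfl
      rw [a1, h3, List.countP_map, List.count, List.countP_map]
      refine List.countP_congr fun p _ => ?_
      obtain ⟨g, x, y⟩ := p
      simp [Stp.sw]
    rw [e1]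
    split_ifs with hI
    · exact List.nodup_iff_count_le_one.1 hn _
    · rw [Nat.le_zero, List.count_eq_zero]
      intro hm
      obtain ⟨p, hpS, hp2⟩ := List.mem_map.1 hm
      obtain ⟨_, g1, g2⟩ := hS p hpS
      have i1 := idxOf_lt_of_sublist hl g1
      have i2 := idxOf_lt_of_sublist hl' g2
      apply hI
      unfold Inv
      rcases Sym2.eq_iff.1 hp2 with ⟨rfl, rfl⟩ | ⟨rfl, rfl⟩
      · exact fun h => absurd (h.1 i1) (by omega)
      · exact fun h => absurd (h.2 i2) (by omega)

end LUB
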