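import Pool.Agent.LUB.Defs

/-!
# The pair next to a gap changes rarely
-/

namespace LUB

namespace Cen

variable {V : Type}

theorem get_swap (a b : List V) (x y : V) {i : ℕ} (h : i < a.length ∨ a.length + 2 ≤ i) :
    (a ++ x :: y :: b)[i]? = (a ++ y :: x :: b)[i]? := by
  rcases h with h | h
  · rw [List.getElem?_append_left h, List.getElem?_append_left h]
  · obtain ⟨k, rfl⟩ := Nat.exists_eq_add_of_le h
    have h1 : a.length ≤ a.length + 2 + k := by omega
    rw [List.getElem?_append_right h1, List.getElem?_append_right h1]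
    have h2 : a.length + 2 + k - a.length = k + 1 + 1 := by omega
    rw [h2]
    simp

variable [DecidableEq V] [Fintype V] {s : ℕ}

/-- the steps at which the pair next to the gap `κ` may change -/
def bad (S : Sweep V s) (κ : ℕ) : Finset ℕ :=
  ((Finset.range S.M).filter fun t => S.gap t = 0) ∪
    ((Finset.range S.M).filter fun t => S.gap t ≠ 0 ∧ κ < S.gap t + 2 ∧ S.gap t < κ + 2)

theorem card_bad (S : Sweep V s) (κ : ℕ) :
    (bad S κ).card ≤ 2 * Fintype.card V + S.N κ 2 :=
  (Finset.card_union_le _ _).trans (Nat.add_le_add_right S.jumps _)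

/-- the pair next to the gap -/
def pr (S : Sweep V s) (κ t : ℕ) : Option V × Option V := ((S.L t)[κ - 1]?, (S.L t)[κ]?)

theorem pr_succ (S : Sweep V s) {κ t : ℕ} (hκ : 1 ≤ κ) (ht : t < S.M) (hb : t ∉ bad S κ) :
    pr S κ (t + 1) = pr S κ t := by
  simp only [bad, Finset.mem_union, Finset.mem_filter, Finset.mem_range, not_or, not_and] at hb
  obtain ⟨h1, h2⟩ := hb
  have g0 : S.gap t ≠ 0 := h1 ht
  have g1 := h2 ht g0
  obtain ⟨a, b, ha, e1, e2⟩ := S.swap t ht g0
  unfold pr
  rw [e1, e2]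
  have key : κ < a.length ∨ a.length + 2 ≤ κ - 1 := by
    by_cases hk : κ < S.gap t + 2
    · have := g1 hk
      left; omega
    · right; omega
  have k1 : κ - 1 < a.length ∨ a.length + 2 ≤ κ - 1 := by omega
  have k2 : κ < a.length ∨ a.length + 2 ≤ κ := by omega
  rw [get_swap a b (S.x t) (S.y t) k1, get_swap a b (S.x t) (S.y t) k2]

theorem pr_const (S : Sweep V s) {κ t : ℕ} (hκ : 1 ≤ κ) :
    ∀ t', t ≤ t' → t' ≤ S.M → (∀ b ∈ bad S κ, ¬ (t ≤ b ∧ b < t')) → pr S κ t' = pr S κ t := by
  intro t' h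
  induction t', h using Nat.le_induction with
  | base => intro _ _; rfl
  | succ k hk ih =>
    intro hM hb
    rw [pr_succ S hκ (by omega) fun hbk => hb k hbk ⟨hk, by omega⟩]
    exact ih (by omega) fun b hb' h => hb b hb' ⟨h.1, by omega⟩

/-- number of bad steps before `t` -/
def cnt (S : Sweep V s) (κ t : ℕ) : ℕ := ((bad S κ).filter fun b => b < t).card

theorem pr_eq (S : Sweep V s) {κ t t' : ℕ} (hκ : 1 ≤ κ) (h : t ≤ t') (hM : t' ≤ S.M)
    (hc : cnt S κ t = cnt S κ t') : pr S κ t' = pr S κ t := by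
  refine pr_const S hκ t' h hM fun b hb hbt => ?_
  have hsub : (bad S κ).filter (fun b => b < t) ⊆ (bad S κ).filter fun b => b < t' := by
    intro c hc
    rw [Finset.mem_filter] at hc ⊢
    exact ⟨hc.1, hc.2.trans_le h⟩
  have heq := Finset.eq_of_subset_of_card_le hsub (le_of_eq hc.symm)
  have hm : b ∈ (bad S κ).filter fun b => b < t' := Finset.mem_filter.2 ⟨hb, hbt.2⟩
  rw [← heq, Finset.mem_filter] at hm
  exact absurd hm.2 (by omega)

end Cen

open Cen in
/-- C1, file Centre.lean: the pair next to the gap `κ` changes rarely -/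
theorem centre {V : Type} [DecidableEq V] [Fintype V] {s : ℕ} (S : Sweep V s) (T : ℕ → ℕ)
    (hT : Monotone T) (κ : ℕ) (hκ : 1 ≤ κ) (J : Finset ℕ) (hJ : ∀ j ∈ J, T j ≤ S.M)
    (u v : ℕ → V) (hu : ∀ j ∈ J, (S.L (T j))[κ - 1]? = some (u j))
    (hv : ∀ j ∈ J, (S.L (T j))[κ]? = some (v j))
    (hs : ∀ a b, a ≠ b → (J.filter fun j => s(u j, v j) = s(a, b)).card ≤ s) :
    J.card ≤ s * (1 + 2 * Fintype.card V + S.N κ 2) := by
  have hmaps : ∀ j ∈ J, cnt S κ (T j) ∈ Finset.range ((bad S κ).card + 1) := by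
    intro j _
    rw [Finset.mem_range]
    exact Nat.lt_succ_of_le (Finset.card_le_card (Finset.filter_subset _ _))
  have hfib : ∀ c ∈ Finset.range ((bad S κ).card + 1),
      (J.filter fun j => cnt S κ (T j) = c).card ≤ s := by
    intro c _
    rcases (J.filter fun j => cnt S κ (T j) = c).eq_empty_or_nonempty with he | ⟨i, hi⟩
    · rw [he]; simp
    rw [Finset.mem_filter] at hi
    obtain ⟨hiJ, hic⟩ := hi
    have hne : u i ≠ v i := by
      intro he
      have h1 := hu i hiJ
      have h2 := hv i hiJ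
      rw [he] at h1
      have h3 : κ - 1 < (S.L (T i)).length := (List.getElem?_eq_some_iff.1 h1).1
      have h4 := (List.getElem?_inj h3 (S.nodup _ (hJ i hiJ))).1 (h1.trans h2.symm)
      omega
    refine (Finset.card_le_card fun j hj => ?_).trans (hs (u i) (v i) hne)
    rw [Finset.mem_filter] at hj ⊢
    obtain ⟨hjJ, hjc⟩ := hj
    have hp : pr S κ (T j) = pr S κ (T i) := by
      rcases le_total (T i) (T j) with h | h
      · exact pr_eq S hκ h (hJ j hjJ) (hic.trans hjc.symm)
      · exact (pr_eq S hκ h (hJ i hiJ) (hjc.trans hic.symm)).symm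
    unfold pr at hp
    rw [hu i hiJ, hv i hiJ, hu j hjJ, hv j hjJ, Prod.mk.injEq, Option.some.injEq,
      Option.some.injEq] at hp
    exact ⟨hjJ, by rw [hp.1, hp.2]⟩
  have h := Finset.card_le_mul_card_image_of_maps_to hmaps s hfib
  rw [Finset.card_range] at h
  refine h.trans (Nat.mul_le_mul_left s ?_)
  have := card_bad S κ
  omega

end LUB
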