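import Pool.Agent.LUB.CoreDefs

/-!
# Upper bounds for a level: the order of two curves and their exchanges
-/

open scoped Classical

namespace LUB

variable {V : Type} [DecidableEq V] [Fintype V] {s : ℕ}

/-- positions around an exchange -/
theorem idx_pair {V : Type} [DecidableEq V] {a b : List V} {x y : V}
    (h : (a ++ x :: y :: b).Nodup) :
    x ≠ y ∧ (a ++ x :: y :: b).idxOf x = a.length ∧ (a ++ x :: y :: b).idxOf y = a.length + 1 ∧
      ∀ c, c ≠ x → c ≠ y → (a ++ x :: y :: b).idxOf c < a.length ∨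
        a.length + 2 ≤ (a ++ x :: y :: b).idxOf c := by
  rw [List.nodup_append] at h
  obtain ⟨-, h2, h3⟩ := h
  rw [List.nodup_cons, List.nodup_cons] at h2
  have hx : x ∉ a := fun hx => h3 x hx x (by simp) rfl
  have hy : y ∉ a := fun hy => h3 y hy y (by simp) rfl
  have hxy : x ≠ y := fun e => h2.1 (by simp [e])
  refine ⟨hxy, ?_, ?_, ?_⟩
  · rw [List.idxOf_append_of_notMem hx, List.idxOf_cons_self, Nat.add_zero]
  · rw [List.idxOf_append_of_notMem hy, List.idxOf_cons_ne _ hxy, List.idxOf_cons_self]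
  · intro c hcx hcy
    by_cases hc : c ∈ a
    · left
      rw [List.idxOf_append_of_mem hc]
      exact List.idxOf_lt_length_of_mem hc
    · right
      rw [List.idxOf_append_of_notMem hc, List.idxOf_cons_ne _ (Ne.symm hcx),
        List.idxOf_cons_ne _ (Ne.symm hcy)]
      omega

/-- the other positions do not change -/
theorem idx_swap {V : Type} [DecidableEq V] (a b : List V) (x y c : V) (hx : c ≠ x)
    (hy : c ≠ y) : (a ++ y :: x :: b).idxOf c = (a ++ x :: y :: b).idxOf c := by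
  by_cases hc : c ∈ a
  · rw [List.idxOf_append_of_mem hc, List.idxOf_append_of_mem hc]
  · rw [List.idxOf_append_of_notMem hc, List.idxOf_append_of_notMem hc,
      List.idxOf_cons_ne _ (Ne.symm hx), List.idxOf_cons_ne _ (Ne.symm hy),
      List.idxOf_cons_ne _ (Ne.symm hx), List.idxOf_cons_ne _ (Ne.symm hy)]

/-- an insertion does not change the order of the others -/
theorem idx_jump {V : Type} [DecidableEq V] (a b : List V) (w u v : V) (hu : u ≠ w)
    (hv : v ≠ w) : ((a ++ w :: b).idxOf u < (a ++ w :: b).idxOf v) ↔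
      ((a ++ b).idxOf u < (a ++ b).idxOf v) := by
  by_cases h1 : u ∈ a
  · have h := List.idxOf_lt_length_of_mem h1
    by_cases h2 : v ∈ a
    · simp only [List.idxOf_append_of_mem h1, List.idxOf_append_of_mem h2]
    · simp only [List.idxOf_append_of_mem h1, List.idxOf_append_of_notMem h2]
      omega
  · by_cases h2 : v ∈ a
    · have h := List.idxOf_lt_length_of_mem h2
      simp only [List.idxOf_append_of_notMem h1, List.idxOf_append_of_mem h2]
      omega
    · simp only [List.idxOf_append_of_notMem h1, List.idxOf_append_of_notMem h2,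
        List.idxOf_cons_ne _ (Ne.symm hu), List.idxOf_cons_ne _ (Ne.symm hv)]
      omega

theorem Sweep.xy (S : Sweep V s) {t : ℕ} (ht : t < S.M) (h : S.gap t ≠ 0) :
    S.x t ≠ S.y t ∧ S.x t ∈ S.L t ∧ S.y t ∈ S.L t ∧ S.x t ∈ S.L (t + 1) ∧
      S.y t ∈ S.L (t + 1) := by
  obtain ⟨a, b, -, h1, h2⟩ := S.swap t ht h
  have hn := S.nodup t ht.le
  rw [h1] at hn
  refine ⟨(idx_pair hn).1, ?_, ?_, ?_, ?_⟩
  · rw [h1]; simp
  · rw [h1]; simp
  · rw [h2]; simp
  · rw [h2]; simp

theorem Sweep.cnt_le (S : Sweep V s) {u v : V} (huv : u ≠ v) (t : ℕ) :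
    S.cnt t s(u, v) ≤ s := by
  refine le_trans (Finset.card_le_card ?_) (S.budget u v huv)
  intro τ hτ
  rw [Finset.mem_filter] at hτ ⊢
  obtain ⟨-, h1, h2, h3⟩ := hτ
  exact ⟨Finset.mem_range.2 h1, h2, h3⟩

/-- the number of exchanges after one more step -/
theorem Sweep.cnt_succ (S : Sweep V s) (t : ℕ) (p : Sym2 V) :
    S.cnt (t + 1) p = S.cnt t p + if S.Sw t p then 1 else 0 := by
  unfold Sweep.cnt
  rw [Finset.range_add_one, Finset.filter_insert]
  split_ifs with h
  · rw [Finset.card_insert_of_notMem (by simp)]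
  · rfl

theorem Sweep.adj (S : Sweep V s) {t : ℕ} {u v c : V} (h : S.Sw t s(u, v)) (hc : c ∈ S.L t)
    (hu : c ≠ u) (hv : c ≠ v) :
    (S.Lt t c u ↔ S.Lt t c v) ∧ (S.Lt (t + 1) c u ↔ S.Lt (t + 1) c v) ∧
      (S.Lt (t + 1) c u ↔ S.Lt t c u) := by
  obtain ⟨ht, hg, hp⟩ := h
  obtain ⟨a, b, -, h1, h2⟩ := S.swap t ht hg
  have hn := S.nodup t ht.le
  have hn' := S.nodup (t + 1) ht
  rw [h1] at hn
  rw [h2] at hn'
  obtain ⟨-, i1, i2, i3⟩ := idx_pair hn
  obtain ⟨-, j1, j2, j3⟩ := idx_pair hn'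
  have key : ∀ c, c ≠ S.x t → c ≠ S.y t →
      (S.Lt t c (S.x t) ↔ S.Lt t c (S.y t)) ∧ (S.Lt (t + 1) c (S.x t) ↔ S.Lt (t + 1) c (S.y t)) ∧
      (S.Lt (t + 1) c (S.x t) ↔ S.Lt t c (S.x t)) ∧
      (S.Lt (t + 1) c (S.y t) ↔ S.Lt t c (S.y t)) := by
    intro c hx hy
    unfold Sweep.Lt
    rw [h1, h2]
    have k1 := i3 c hx hy
    have k2 := idx_swap a b (S.x t) (S.y t) c hx hy
    rw [i1, i2, j1, j2, k2]
    refine ⟨?_, ?_, ?_, ?_⟩ <;> omega
  rcases Sym2.eq_iff.1 hp with ⟨e1, e2⟩ | ⟨e1, e2⟩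
  · subst e1 e2
    obtain ⟨k1, k2, k3, -⟩ := key c hu hv
    exact ⟨k1, k2, k3⟩
  · subst e1 e2
    obtain ⟨k1, k2, -, k4⟩ := key c hv hu
    exact ⟨k1.symm, k2.symm, k4⟩

/-- one step changes the order of two curves iff it exchanges them -/
theorem Sweep.lt_step (S : Sweep V s) {t : ℕ} (ht : t < S.M) {u v : V} (huv : u ≠ v)
    (hu : u ∈ S.L t) (hv : v ∈ S.L t) (hu' : u ∈ S.L (t + 1)) (hv' : v ∈ S.L (t + 1)) :
    (S.Lt (t + 1) u v ↔ S.Lt t u v) ↔ ¬ S.Sw t s(u, v) := by
  have hn := S.nodup t ht.le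
  have hn' := S.nodup (t + 1) ht
  by_cases hg : S.gap t = 0
  · have hsw : ¬ S.Sw t s(u, v) := fun h => h.2.1 hg
    refine iff_of_true ?_ hsw
    obtain ⟨a, b, w, ⟨h1, h2⟩ | ⟨h1, h2⟩⟩ := S.jump t ht hg
    · rw [h2, List.nodup_middle, List.nodup_cons] at hn'
      rw [h1] at hu hv
      have hw : ∀ z, z ∈ a ++ b → z ≠ w := fun z hz e => hn'.1 (e ▸ hz)
      unfold Sweep.Lt
      rw [h1, h2]
      exact idx_jump a b w u v (hw u hu) (hw v hv)
    · rw [h1, List.nodup_middle, List.nodup_cons] at hn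
      rw [h2] at hu' hv'
      have hw : ∀ z, z ∈ a ++ b → z ≠ w := fun z hz e => hn.1 (e ▸ hz)
      unfold Sweep.Lt
      rw [h1, h2]
      exact (idx_jump a b w u v (hw u hu') (hw v hv')).symm
  · obtain ⟨a, b, -, h1, h2⟩ := S.swap t ht hg
    rw [h1] at hn
    rw [h2] at hn'
    obtain ⟨hxy, i1, i2, i3⟩ := idx_pair hn
    obtain ⟨-, j1, j2, j3⟩ := idx_pair hn'
    have hrefl : S.Sw t s(S.x t, S.y t) := ⟨ht, hg, rfl⟩
    by_cases hs : S.Sw t s(u, v)
    · refine iff_of_false ?_ (not_not.2 hs)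
      rcases Sym2.eq_iff.1 hs.2.2 with ⟨e1, e2⟩ | ⟨e1, e2⟩
      · subst e1 e2
        unfold Sweep.Lt
        rw [h1, h2, i1, i2, j1, j2]
        omega
      · subst e1 e2
        unfold Sweep.Lt
        rw [h1, h2, i1, i2, j1, j2]
        omega
    · refine iff_of_true ?_ hs
      by_cases hux : u = S.x t ∨ u = S.y t
      · have hvx : v ≠ S.x t ∧ v ≠ S.y t := by
          rcases hux with rfl | rfl
          · exact ⟨huv.symm, fun e => hs (e ▸ hrefl)⟩
          · exact ⟨fun e => hs ⟨ht, hg, by rw [e]; exact Sym2.eq_swap⟩, huv.symm⟩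
        have k1 := i3 v hvx.1 hvx.2
        have k2 := idx_swap a b (S.x t) (S.y t) v hvx.1 hvx.2
        unfold Sweep.Lt
        rw [h1, h2, k2]
        rcases hux with rfl | rfl
        · rw [i1, j2]; omega
        · rw [i2, j1]; omega
      · push Not at hux
        have k0 := idx_swap a b (S.x t) (S.y t) u hux.1 hux.2
        have k3 := i3 u hux.1 hux.2
        unfold Sweep.Lt
        rw [h1, h2, k0]
        by_cases hvx : v = S.x t
        · subst hvx
          rw [i1, j2]; omega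
        · by_cases hvy : v = S.y t
          · subst hvy
            rw [i2, j1]; omega
          · rw [idx_swap a b (S.x t) (S.y t) v hvx hvy]

/-- the order changes exactly at the exchanges of the two curves -/
theorem Sweep.lt_iff (S : Sweep V s) {a b : ℕ} (hab : a ≤ b) (hb : b ≤ S.M) {u v : V}
    (huv : u ≠ v) (hu : u ∈ S.L a) (hv : v ∈ S.L a) (hu' : u ∈ S.L b) (hv' : v ∈ S.L b) :
    (S.Lt b u v ↔ S.Lt a u v) ↔ Even (S.cnt a s(u, v) + S.cnt b s(u, v)) := by
  have main : ∀ t, a ≤ t → t ≤ b →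
      ((S.Lt t u v ↔ S.Lt a u v) ↔ Even (S.cnt a s(u, v) + S.cnt t s(u, v))) := by
    intro t hat
    induction t, hat using Nat.le_induction with
    | base =>
      intro _
      refine iff_of_true Iff.rfl ?_
      exact Even.add_self _
    | succ t hat ih =>
      intro htb
      have ih' := ih (by omega)
      have e : ∀ w, w ∈ S.L a → w ∈ S.L b → ∀ r, a ≤ r → r ≤ b → w ∈ S.L r :=
        fun w h1 h2 r h3 h4 => S.life w a r b h3 h4 hb h1 h2
      have st := S.lt_step (t := t) (by omega) huv (e u hu hu' t hat (by omega))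
        (e v hv hv' t hat (by omega)) (e u hu hu' (t + 1) (by omega) htb)
        (e v hv hv' (t + 1) (by omega) htb)
      rw [S.cnt_succ]
      by_cases hs : S.Sw t s(u, v)
      · rw [if_pos hs, ← add_assoc, Nat.even_add_one]
        have st' : ¬ (S.Lt (t + 1) u v ↔ S.Lt t u v) := fun h => (st.1 h) hs
        tauto
      · rw [if_neg hs, Nat.add_zero]
        have st' := st.2 hs
        tauto
  exact main b hab le_rfl

end LUB
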