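import Pool.Agent.LUB.Band
import Pool.Agent.LUB.Order

/-!
# Upper bounds for a level: the backward part of the key lemma
-/

open scoped Classical

namespace LUB

variable {V : Type} [DecidableEq V] [Fintype V] {s : ℕ}

namespace KeyB

theorem cntMono (S : Sweep V s) {a b : ℕ} (h : a ≤ b) (p : Sym2 V) : S.cnt a p ≤ S.cnt b p := by
  unfold Sweep.cnt
  apply Finset.card_le_card
  intro u hu
  simp only [Finset.mem_filter, Finset.mem_range] at hu ⊢
  exact ⟨lt_of_lt_of_le hu.1 h, hu.2⟩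

theorem cntSucc (S : Sweep V s) {τ b : ℕ} (p : Sym2 V) (h : S.Sw τ p) (hb : τ < b) :
    S.cnt τ p + 1 ≤ S.cnt b p := by
  have h1 : S.cnt (τ + 1) p = S.cnt τ p + 1 := by
    unfold Sweep.cnt
    rw [Finset.range_add_one, Finset.filter_insert, if_pos h, Finset.card_insert_of_notMem]
    simp
  rw [← h1]
  exact cntMono S hb p

/-- the first moment of a run -/
theorem runFirst (S : Sweep V s) {k g : ℕ} {p : Sym2 V} : ∀ b : ℕ, S.J k g b p →
    ∃ a, a ≤ b ∧ S.Rn k g a b p ∧ (a = 0 ∨ ¬ S.J k g (a - 1) p) := by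
  intro b
  induction b with
  | zero =>
    intro h
    refine ⟨0, le_rfl, fun u h1 h2 => ?_, Or.inl rfl⟩
    have : u = 0 := by omega
    rw [this]
    exact h
  | succ b ih =>
    intro h
    by_cases h1 : S.J k g b p
    · obtain ⟨a, a1, a2, a3⟩ := ih h1
      refine ⟨a, by omega, fun u h2 h3 => ?_, a3⟩
      rcases Nat.eq_or_lt_of_le h3 with h4 | h4
      · rw [h4]
        exact h
      · exact a2 u h2 (by omega)
    · refine ⟨b + 1, le_rfl, fun u h2 h3 => ?_, Or.inr ?_⟩
      · have : u = b + 1 := by omega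
        rw [this]
        exact h
      · rw [Nat.add_sub_cancel]
        exact h1

/-- the last moment with a property -/
theorem lastTrue (P : ℕ → Prop) {a : ℕ} : ∀ b : ℕ, a ≤ b → P a → ¬ P b →
    ∃ e, a ≤ e ∧ e < b ∧ P e ∧ ∀ u, e < u → u ≤ b → ¬ P u := by
  intro b
  induction b with
  | zero =>
    intro h1 h2 h3
    have : a = 0 := by omega
    rw [this] at h2
    exact absurd h2 h3
  | succ b ih =>
    intro h1 h2 h3
    by_cases h4 : P b
    · refine ⟨b, ?_, by omega, h4, fun u h5 h6 => ?_⟩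
      · by_contra hn
        have : a = b + 1 := by omega
        rw [this] at h2
        exact h3 h2
      · have : u = b + 1 := by omega
        rw [this]
        exact h3
    · have hab : a ≤ b := by
        by_contra hn
        have : a = b + 1 := by omega
        rw [this] at h2
        exact h3 h2
      obtain ⟨e, e1, e2, e3, e4⟩ := ih hab h2 h4
      refine ⟨e, e1, by omega, e3, fun u h5 h6 => ?_⟩
      rcases Nat.eq_or_lt_of_le h6 with h7 | h7
      · rw [h7]
        exact h3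
      · exact e4 u h5 (by omega)

end KeyB

open KeyB in
/-- K5b, file KeyB.lean -/
theorem Sweep.key_b (hs : Odd s) (h3 : 3 ≤ s) (S : Sweep V s) {k g : ℕ} (hg : 1 ≤ g) {t : ℕ}
    {c : V} (hq : (t, c) ∈ S.NL k g)
    (hx : ∃ t', t' < t ∧ S.Sw t' s(S.x t, S.y t) ∧ c ∈ S.L t') :
    (∃ a, a ≤ t ∧ S.Rn k g a t s(S.ex k g t, c) ∧
      (a = 0 ∨ ¬ S.J k g (a - 1) s(S.ex k g t, c)) ∧ S.cnt a s(S.ex k g t, c) < s ∧
      ¬ S.LB k g a s(S.ex k g t, c) ∧ ¬ S.LMs k g a s(S.ex k g t, c)) ∨
    (∃ e, e < t ∧ (∀ u, e < u → u ≤ t → ¬ S.In k g u (S.en k g t)) ∧ S.In k g e c ∧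
      S.In k g (e + 1) c ∧ S.In k g e (S.en k g t) ∧ S.cnt e s(S.en k g t, c) = 0) := by
  simp only [Sweep.NL, Finset.mem_filter, Sweep.Q, Finset.mem_product, Finset.mem_range,
    Finset.mem_univ, and_true] at hq
  obtain ⟨⟨htM, hBd, hc0, hc1⟩, ⟨τ1, l1, l2, l3, l4⟩, ⟨τ0, r1, r2, r3, r4⟩⟩ := hq
  obtain ⟨b1, b2, b3, b4, b5, b6⟩ := S.bd hg htM hBd
  obtain ⟨t0, ht0, hsw0, hct0⟩ := hx
  rw [← b6] at hsw0
  generalize hen : S.en k g t = en at *
  generalize hex : S.ex k g t = ex at *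
  have ht0M : t0 < S.M := hsw0.1
  -- the curves are different
  have hJ1 : S.J k g (t + 1) s(en, c) := l2 (t + 1) le_rfl (by omega)
  have hJ0 : S.J k g t s(ex, c) := r2 t r1.le le_rfl
  have hcen : en ≠ c := fun h => hJ1.1 (by rw [h]; exact Sym2.diag_isDiag c)
  have hcex : ex ≠ c := fun h => hJ0.1 (by rw [h]; exact Sym2.diag_isDiag c)
  -- the first moment of the run of {ex, c}
  obtain ⟨a, ha1, ha2, ha3⟩ := runFirst S t hJ0
  have haτ : a ≤ τ0 := by
    by_contra hn
    push Not at hn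
    rcases ha3 with h | h
    · omega
    · exact h (r2 (a - 1) (by omega) (by omega))
  by_cases hLB : S.LB k g a s(ex, c)
  · right
    obtain ⟨τ, q1, q2, q3, q4⟩ := hLB
    -- the counts
    have hcen_0 : ∀ T, T ≤ t + 1 → S.cnt T s(en, c) = 0 := by
      intro T hT
      have := cntMono S (show T ≤ τ1 by omega) s(en, c)
      omega
    have hcex_s : S.cnt t s(ex, c) = s := by
      apply le_antisymm (S.cnt_le hcex t)
      have := cntSucc S _ r3 r1
      omega
    -- τ < t0
    have hlt : τ < t0 := by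
      by_contra hn
      push Not at hn
      have hne : t0 ≠ τ := by
        rintro rfl
        have e1 : s(ex, en) = s(ex, c) := hsw0.2.2.symm.trans q3.2.2
        rw [Sym2.eq_iff] at e1
        rcases e1 with ⟨-, e1⟩ | ⟨e1, -⟩
        · exact hcen e1
        · exact hcex e1
      have hτt0 : t0 + 1 ≤ τ := by omega
      have hcex_0 : S.cnt (t0 + 1) s(ex, c) = 0 := by
        have := cntMono S hτt0 s(ex, c)
        omega
      have hgap : S.gap t ≠ 0 := hBd.1
      have hswt : S.Sw t s(ex, en) := ⟨htM, hgap, b6.symm⟩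
      -- alive
      have hcL0 : c ∈ S.L t := hc0.1
      have hcL1 : c ∈ S.L (t0 + 1) := (S.mem_swap ht0M hsw0.2.1 c).2 hct0
      have hxy := S.xy htM hgap
      have hxy0 := S.xy ht0M hsw0.2.1
      have halive : ∀ v, v ∈ s(ex, en) → v ∈ S.L t := by
        intro v hv
        rw [b6, Sym2.mem_iff] at hv
        rcases hv with rfl | rfl
        · exact hxy.2.1
        · exact hxy.2.2.1
      have halive0 : ∀ v, v ∈ s(ex, en) → v ∈ S.L (t0 + 1) := by
        intro v hv
        rw [← hsw0.2.2, Sym2.mem_iff] at hv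
        rcases hv with rfl | rfl
        · exact hxy0.2.2.2.1
        · exact hxy0.2.2.2.2
      have f1 := S.lt_iff (show t0 + 1 ≤ t by omega) htM.le (Ne.symm hcex) hcL1
        (halive0 ex (Sym2.mem_mk_left _ _)) hcL0 (halive ex (Sym2.mem_mk_left _ _))
      have f2 := S.lt_iff (show t0 + 1 ≤ t by omega) htM.le (Ne.symm hcen) hcL1
        (halive0 en (Sym2.mem_mk_right _ _)) hcL0 (halive en (Sym2.mem_mk_right _ _))
      rw [Sym2.eq_swap, hcex_0, hcex_s, Nat.zero_add] at f1
      rw [Sym2.eq_swap, hcen_0 (t0 + 1) (by omega), hcen_0 t (by omega), Nat.zero_add] at f2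
      have f1' : ¬ (S.Lt t c ex ↔ S.Lt (t0 + 1) c ex) := fun h => (Nat.not_even_iff_odd.2 hs) (f1.1 h)
      have f2' : S.Lt t c en ↔ S.Lt (t0 + 1) c en := f2.2 ⟨0, rfl⟩
      have g1 := S.adj hswt hcL0 (Ne.symm hcex) (Ne.symm hcen)
      have g2 := S.adj hsw0 hct0 (Ne.symm hcex) (Ne.symm hcen)
      exact f1' (g1.1.trans (f2'.trans g2.2.1.symm))
    -- en is in the band at t0 and t0 + 1
    have hin0 : S.In k g t0 ex := (ha2 t0 (by omega) (by omega)).2 ex (Sym2.mem_mk_left _ _)
    have hin0' : S.In k g (t0 + 1) ex := (ha2 (t0 + 1) (by omega) (by omega)).2 ex (Sym2.mem_mk_left _ _)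
    have henin := (S.sw_in hg hsw0 hin0 hin0').2.1
    obtain ⟨e, e1, e2, e3, e4⟩ := lastTrue (fun u => S.In k g u en) t (show t0 + 1 ≤ t by omega) henin b3
    have hcin : ∀ u, a ≤ u → u ≤ t → S.In k g u c := fun u h1 h2 =>
      (ha2 u h1 h2).2 c (Sym2.mem_mk_right _ _)
    exact ⟨e, e2, e4, hcin _ (by omega) (by omega), hcin _ (by omega) (by omega), e3,
      hcen_0 _ (by omega)⟩
  · left
    refine ⟨a, ha1, ha2, ha3, ?_, hLB, ?_⟩
    · have := cntMono S haτ s(ex, c)
      omega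
    · rintro ⟨τ, q1, q2, q3, q4, q5, q6⟩
      have hp : s(S.x τ, S.y τ) = s(ex, c) := q3.2.2
      have e := q6 τ0 (by rw [hp]; exact r3) (by
        rw [hp]
        intro u h1 h2
        by_cases h4 : u ≤ τ + 1
        · exact q2 u (by omega) h4
        · exact ha2 u (by omega) (by omega))
      rw [← e] at q5
      omega

end LUB
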