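import Pool.Agent.LUB.KeyF
import Pool.Agent.LUB.KeyB

/-!
# Upper bounds for a level: the charging
-/

open scoped Classical

namespace LUB

variable {V : Type} [DecidableEq V] [Fintype V] {s : ℕ}

namespace Ch

theorem cnt_mono (S : Sweep V s) (p : Sym2 V) {a b : ℕ} (h : a ≤ b) : S.cnt a p ≤ S.cnt b p := by
  unfold Sweep.cnt
  exact Finset.card_le_card (Finset.filter_subset_filter _ (Finset.range_subset_range.2 h))

theorem mem_Q (S : Sweep V s) {k g t : ℕ} {c : V} (h : (t, c) ∈ S.Q k g) :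
    t < S.M ∧ S.Bd k g t ∧ S.In k g t c ∧ S.In k g (t + 1) c := by
  unfold Sweep.Q at h
  simp only [Finset.mem_filter, Finset.mem_product, Finset.mem_range, Finset.mem_univ,
    and_true] at h
  exact ⟨h.1, h.2⟩

theorem mem_NL (S : Sweep V s) {k g t : ℕ} {c : V} (h : (t, c) ∈ S.NL k g) :
    (t, c) ∈ S.Q k g ∧ S.LB k g (t + 1) s(S.en k g t, c) ∧ S.RB k g t s(S.ex k g t, c) := by
  unfold Sweep.NL at h
  simpa only [Finset.mem_filter] using h

theorem mem_comps (S : Sweep V s) {k g a : ℕ} {p : Sym2 V} (ha : a ≤ S.M) (h : S.J k g a p)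
    (h' : a = 0 ∨ ¬ S.J k g (a - 1) p) : (a, p) ∈ S.comps k g := by
  unfold Sweep.comps
  simp only [Finset.mem_filter, Finset.mem_product, Finset.mem_range, Finset.mem_univ,
    and_true]
  exact ⟨by omega, h, h'⟩

theorem mem_compsE (S : Sweep V s) {k g a : ℕ} {p : Sym2 V} (ha : a ≤ S.M) (h : S.J k g a p)
    (h' : a = S.M ∨ ¬ S.J k g (a + 1) p) : (a, p) ∈ S.compsE k g := by
  unfold Sweep.compsE
  simp only [Finset.mem_filter, Finset.mem_product, Finset.mem_range, Finset.mem_univ,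
    and_true]
  exact ⟨by omega, h, h'⟩

theorem J_mk (S : Sweep V s) {k g t : ℕ} {u v : V} :
    S.J k g t s(u, v) ↔ u ≠ v ∧ S.In k g t u ∧ S.In k g t v := by
  unfold Sweep.J
  simp

/-- the first type -/
theorem F1_card (S : Sweep V s) {k g : ℕ} (hg : 1 ≤ g) (C : Finset (ℕ × V)) (D : Finset (ℕ × Sym2 V))
    (hC : C ⊆ S.Q k g)
    (h : ∀ q ∈ C, ∃ b, q.1 + 1 ≤ b ∧ S.Rn k g (q.1 + 1) b s(S.en k g q.1, q.2) ∧
      (b, s(S.en k g q.1, q.2)) ∈ D) : C.card ≤ D.card := by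
  refine Finset.card_le_card_of_forall_subsingleton
    (fun q d => q.1 + 1 ≤ d.1 ∧ S.Rn k g (q.1 + 1) d.1 d.2 ∧ d.2 = s(S.en k g q.1, q.2)) ?_ ?_
  · intro q hq
    obtain ⟨b, hb, hR, hD⟩ := h q hq
    exact ⟨(b, s(S.en k g q.1, q.2)), hD, hb, hR, rfl⟩
  · rintro ⟨b, p⟩ -
    have key : ∀ q ∈ C, ∀ q' ∈ C, q.1 + 1 ≤ b → S.Rn k g (q.1 + 1) b p →
        p = s(S.en k g q.1, q.2) → q'.1 + 1 ≤ b → S.Rn k g (q'.1 + 1) b p →
        p = s(S.en k g q'.1, q'.2) → q'.1 ≤ q.1 := by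
      rintro ⟨t, c⟩ hq ⟨t', c'⟩ hq' h1 h2 h3 h1' h2' h3'
      simp only at h1 h2 h3 h1' h2' h3' ⊢
      by_contra hlt
      push Not at hlt
      obtain ⟨hM, hB, -, -⟩ := mem_Q S (hC hq')
      have hJ := h2 t' (by omega) (by omega)
      rw [h3'] at hJ
      exact (S.bd hg hM hB).2.2.1 (J_mk S |>.1 hJ).2.1
    rintro ⟨t, c⟩ ⟨hq, h1, h2, h3⟩ ⟨t', c'⟩ ⟨hq', h1', h2', h3'⟩
    have e1 := key _ hq _ hq' h1 h2 h3 h1' h2' h3'
    have e2 := key _ hq' _ hq h1' h2' h3' h1 h2 h3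
    simp only at e1 e2 h3 h3'
    obtain rfl : t = t' := by omega
    rw [h3, Sym2.congr_right] at h3'
    rw [h3']

theorem B1_card (S : Sweep V s) {k g : ℕ} (hg : 1 ≤ g) (C : Finset (ℕ × V)) (D : Finset (ℕ × Sym2 V))
    (hC : C ⊆ S.Q k g)
    (h : ∀ q ∈ C, ∃ a, a ≤ q.1 ∧ S.Rn k g a q.1 s(S.ex k g q.1, q.2) ∧
      (a, s(S.ex k g q.1, q.2)) ∈ D) : C.card ≤ D.card := by
  refine Finset.card_le_card_of_forall_subsingleton
    (fun q d => d.1 ≤ q.1 ∧ S.Rn k g d.1 q.1 d.2 ∧ d.2 = s(S.ex k g q.1, q.2)) ?_ ?_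
  · intro q hq
    obtain ⟨b, hb, hR, hD⟩ := h q hq
    exact ⟨(b, s(S.ex k g q.1, q.2)), hD, hb, hR, rfl⟩
  · rintro ⟨a, p⟩ -
    have key : ∀ q ∈ C, ∀ q' ∈ C, a ≤ q.1 → S.Rn k g a q.1 p →
        p = s(S.ex k g q.1, q.2) → a ≤ q'.1 → S.Rn k g a q'.1 p →
        p = s(S.ex k g q'.1, q'.2) → q.1 ≤ q'.1 := by
      rintro ⟨t, c⟩ hq ⟨t', c'⟩ hq' h1 h2 h3 h1' h2' h3'
      simp only at h1 h2 h3 h1' h2' h3' ⊢
      by_contra hlt
      push Not at hlt
      obtain ⟨hM, hB, -, -⟩ := mem_Q S (hC hq')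
      have hJ := h2 (t' + 1) (by omega) (by omega)
      rw [h3'] at hJ
      exact (S.bd hg hM hB).2.1 (J_mk S |>.1 hJ).2.1
    rintro ⟨t, c⟩ ⟨hq, h1, h2, h3⟩ ⟨t', c'⟩ ⟨hq', h1', h2', h3'⟩
    have e1 := key _ hq _ hq' h1 h2 h3 h1' h2' h3'
    have e2 := key _ hq' _ hq h1' h2' h3' h1 h2 h3
    simp only at e1 e2 h3 h3'
    obtain rfl : t = t' := by omega
    rw [h3, Sym2.congr_right] at h3'
    rw [h3']

theorem pair_eq {k g e : ℕ} (S : Sweep V s) {x c x' c' : V} (h : s(x, c) = s(x', c'))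
    (hx : ¬ S.In k g e x) (hc' : S.In k g e c') :
    x = x' ∧ c = c' := by
  rw [Sym2.eq_iff] at h
  rcases h with h | ⟨h1, h2⟩
  · exact h
  · exfalso
    rw [h1] at hx
    exact hx hc'

theorem F2_card (S : Sweep V s) {k g : ℕ} (hg : 1 ≤ g) (C : Finset (ℕ × V)) (D : Finset (ℕ × Sym2 V))
    (hC : C ⊆ S.Q k g)
    (h : ∀ q ∈ C, ∃ e, q.1 < e ∧ (∀ u, q.1 < u → u ≤ e → ¬ S.In k g u (S.ex k g q.1)) ∧
      S.In k g e q.2 ∧ (e + 1, s(S.ex k g q.1, q.2)) ∈ D) : C.card ≤ D.card := by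
  refine Finset.card_le_card_of_forall_subsingleton
    (fun q d => ∃ e, d.1 = e + 1 ∧ q.1 < e ∧
      (∀ u, q.1 < u → u ≤ e → ¬ S.In k g u (S.ex k g q.1)) ∧
      S.In k g e q.2 ∧ d.2 = s(S.ex k g q.1, q.2)) ?_ ?_
  · intro q hq
    obtain ⟨b, hb, hR, hc, hD⟩ := h q hq
    exact ⟨(b + 1, s(S.ex k g q.1, q.2)), hD, b, rfl, hb, hR, hc, rfl⟩
  · rintro ⟨b, p⟩ -
    rintro ⟨t, c⟩ ⟨hq, e, he, h1, h2, h3, h4⟩ ⟨t', c'⟩ ⟨hq', e', he', h1', h2', h3', h4'⟩
    simp only at he h1 h2 h3 h4 he' h1' h2' h3' h4'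
    obtain rfl : e = e' := by omega
    obtain ⟨hex, rfl⟩ := pair_eq S (h4.symm.trans h4') (h2 e h1 le_rfl) h3'
    obtain ⟨hM, hB, -, -⟩ := mem_Q S (hC hq)
    obtain ⟨hM', hB', -, -⟩ := mem_Q S (hC hq')
    have i1 : ¬ t < t' := by
      intro hlt
      apply h2 t' hlt (by omega)
      rw [hex]
      exact (S.bd hg hM' hB').1
    have i2 : ¬ t' < t := by
      intro hlt
      apply h2' t hlt (by omega)
      rw [← hex]
      exact (S.bd hg hM hB).1
    obtain rfl : t = t' := by omega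
    rfl

theorem B2_card (S : Sweep V s) {k g : ℕ} (hg : 1 ≤ g) (C : Finset (ℕ × V)) (D : Finset (ℕ × Sym2 V))
    (hC : C ⊆ S.Q k g)
    (h : ∀ q ∈ C, ∃ e, e < q.1 ∧ (∀ u, e < u → u ≤ q.1 → ¬ S.In k g u (S.en k g q.1)) ∧
      S.In k g (e + 1) q.2 ∧ (e, s(S.en k g q.1, q.2)) ∈ D) : C.card ≤ D.card := by
  refine Finset.card_le_card_of_forall_subsingleton
    (fun q d => d.1 < q.1 ∧
      (∀ u, d.1 < u → u ≤ q.1 → ¬ S.In k g u (S.en k g q.1)) ∧
      S.In k g (d.1 + 1) q.2 ∧ d.2 = s(S.en k g q.1, q.2)) ?_ ?_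
  · intro q hq
    obtain ⟨b, hb, hR, hc, hD⟩ := h q hq
    exact ⟨(b, s(S.en k g q.1, q.2)), hD, hb, hR, hc, rfl⟩
  · rintro ⟨e, p⟩ -
    rintro ⟨t, c⟩ ⟨hq, h1, h2, h3, h4⟩ ⟨t', c'⟩ ⟨hq', h1', h2', h3', h4'⟩
    simp only at h1 h2 h3 h4 h1' h2' h3' h4'
    obtain ⟨hex, rfl⟩ := pair_eq S (h4.symm.trans h4')
      (h2 (e + 1) (by omega) (by omega)) h3'
    obtain ⟨hM, hB, -, -⟩ := mem_Q S (hC hq)
    obtain ⟨hM', hB', -, -⟩ := mem_Q S (hC hq')
    have i1 : ¬ t < t' := by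
      intro hlt
      apply h2' (t + 1) (by omega) (by omega)
      rw [← hex]
      exact (S.bd hg hM hB).2.2.2.1
    have i2 : ¬ t' < t := by
      intro hlt
      apply h2 (t' + 1) (by omega) (by omega)
      rw [hex]
      exact (S.bd hg hM' hB').2.2.2.1
    obtain rfl : t = t' := by omega
    rfl

theorem not_LB_of_LMs (S : Sweep V s) {k g a : ℕ} {p : Sym2 V} (h : S.LMs k g a p) :
    ¬ S.LB k g a p := by
  rintro ⟨τ', h1', h2', h3', h4'⟩
  obtain ⟨τ, h1, h2, h3, h4, h5, h6⟩ := h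
  have hp : s(S.x τ, S.y τ) = p := h3.2.2
  have : τ' = τ := by
    apply h6 τ'
    · rw [hp]
      exact h3'
    · rw [hp]
      intro u hu1 hu2
      by_cases h : u ≤ τ + 1
      · exact h2 u (by omega) h
      · exact h2' u (by omega) (by omega)
  subst this
  omega

theorem not_RB_of_LMe (S : Sweep V s) {k g b : ℕ} {p : Sym2 V} (h : S.LMe k g b p) :
    ¬ S.RB k g b p := by
  rintro ⟨τ', h1', h2', h3', h4'⟩
  obtain ⟨τ, h1, h2, h3, h4, h5, h6⟩ := h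
  have hp : s(S.x τ, S.y τ) = p := h3.2.2
  have : τ' = τ := by
    apply h6 τ'
    · rw [hp]
      exact h3'
    · rw [hp]
      intro u hu1 hu2
      by_cases h : τ ≤ u
      · exact h2 u h (by omega)
      · exact h2' u (by omega) (by omega)
  subst this
  omega

theorem three_card {α : Type*} (C : Finset α) (P1 P2 P3 A : α → Prop) [DecidablePred P1]
    [DecidablePred P2] [DecidablePred P3] [DecidablePred A] (h1 : ∀ q, P1 q → A q)
    (h2 : ∀ q, P2 q → A q) (h3 : ∀ q, P3 q → A q) (h12 : ∀ q, P1 q → P2 q → False)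
    (h13 : ∀ q, P1 q → P3 q → False) (h23 : ∀ q, P2 q → P3 q → False) :
    (C.filter P1).card + (C.filter P2).card + (C.filter P3).card ≤ (C.filter A).card := by
  classical
  rw [← Finset.card_union_of_disjoint, ← Finset.card_union_of_disjoint]
  · apply Finset.card_le_card
    intro q
    simp only [Finset.mem_union, Finset.mem_filter]
    rintro ((⟨g1, g2⟩ | ⟨g1, g2⟩) | ⟨g1, g2⟩)
    · exact ⟨g1, h1 q g2⟩
    · exact ⟨g1, h2 q g2⟩
    · exact ⟨g1, h3 q g2⟩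
  · rw [← Finset.filter_or, Finset.disjoint_filter]
    rintro q - (g | g) g'
    · exact h13 q g g'
    · exact h23 q g g'
  · rw [Finset.disjoint_filter]
    exact fun q _ g g' => h12 q g g'

end Ch

open Ch

theorem Sweep.charge (hs : Odd s) (h3 : 3 ≤ s) (S : Sweep V s) (k g : ℕ) (hg : 1 ≤ g) :
    (S.NL k g).card + ((S.comps k g).filter fun q => S.LMs k g q.1 q.2).card +
      ((S.compsE k g).filter fun q => S.LMe k g q.1 q.2).card ≤
      (S.QX k g).card + ((S.comps k g).filter fun q => ¬ S.LB k g q.1 q.2).card +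
      ((S.compsE k g).filter fun q => ¬ S.RB k g q.1 q.2).card := by
  classical
  set DF1 := (S.compsE k g).filter fun q => ¬ S.RB k g q.1 q.2 ∧ ¬ S.LMe k g q.1 q.2 ∧
    0 < S.cnt q.1 q.2 with hDF1
  set DB2 := (S.compsE k g).filter fun q => ¬ S.RB k g q.1 q.2 ∧ ¬ S.LMe k g q.1 q.2 ∧
    S.cnt q.1 q.2 = 0 with hDB2
  set DF2 := (S.comps k g).filter fun q => ¬ S.LB k g q.1 q.2 ∧ ¬ S.LMs k g q.1 q.2 ∧
    S.cnt q.1 q.2 = s with hDF2
  set DB1 := (S.comps k g).filter fun q => ¬ S.LB k g q.1 q.2 ∧ ¬ S.LMs k g q.1 q.2 ∧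
    S.cnt q.1 q.2 < s with hDB1
  have hE : ((S.compsE k g).filter fun q => S.LMe k g q.1 q.2).card + DF1.card + DB2.card ≤
      ((S.compsE k g).filter fun q => ¬ S.RB k g q.1 q.2).card := by
    apply three_card (S.compsE k g) (fun q => S.LMe k g q.1 q.2)
      (fun q => ¬ S.RB k g q.1 q.2 ∧ ¬ S.LMe k g q.1 q.2 ∧ 0 < S.cnt q.1 q.2)
      (fun q => ¬ S.RB k g q.1 q.2 ∧ ¬ S.LMe k g q.1 q.2 ∧ S.cnt q.1 q.2 = 0)
      (fun q => ¬ S.RB k g q.1 q.2)
    · exact fun q h => not_RB_of_LMe S h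
    · exact fun q h => h.1
    · exact fun q h => h.1
    · exact fun q h h' => h'.2.1 h
    · exact fun q h h' => h'.2.1 h
    · rintro q h h'
      have h1 := h.2.2
      have h2 := h'.2.2
      omega
  have hS : ((S.comps k g).filter fun q => S.LMs k g q.1 q.2).card + DF2.card + DB1.card ≤
      ((S.comps k g).filter fun q => ¬ S.LB k g q.1 q.2).card := by
    apply three_card (S.comps k g) (fun q => S.LMs k g q.1 q.2)
      (fun q => ¬ S.LB k g q.1 q.2 ∧ ¬ S.LMs k g q.1 q.2 ∧ S.cnt q.1 q.2 = s)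
      (fun q => ¬ S.LB k g q.1 q.2 ∧ ¬ S.LMs k g q.1 q.2 ∧ S.cnt q.1 q.2 < s)
      (fun q => ¬ S.LB k g q.1 q.2)
    · exact fun q h => not_LB_of_LMs S h
    · exact fun q h => h.1
    · exact fun q h => h.1
    · exact fun q h h' => h'.2.1 h
    · exact fun q h h' => h'.2.1 h
    · rintro q h h'
      have h1 := h.2.2
      have h2 := h'.2.2
      omega
  -- the four classes
  set F1 := (S.NL k g).filter fun q => ∃ b, q.1 + 1 ≤ b ∧ b ≤ S.M ∧
      S.Rn k g (q.1 + 1) b s(S.en k g q.1, q.2) ∧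
      (b = S.M ∨ ¬ S.J k g (b + 1) s(S.en k g q.1, q.2)) ∧ 0 < S.cnt b s(S.en k g q.1, q.2) ∧
      ¬ S.RB k g b s(S.en k g q.1, q.2) ∧ ¬ S.LMe k g b s(S.en k g q.1, q.2) with hF1
  set F2 := (S.NL k g).filter fun q => ∃ e, q.1 < e ∧ e < S.M ∧
      (∀ u, q.1 < u → u ≤ e → ¬ S.In k g u (S.ex k g q.1)) ∧ S.In k g e q.2 ∧
      S.In k g (e + 1) q.2 ∧ S.In k g (e + 1) (S.ex k g q.1) ∧
      S.cnt (e + 1) s(S.ex k g q.1, q.2) = s with hF2
  set B1 := (S.NL k g).filter fun q => ∃ a, a ≤ q.1 ∧ S.Rn k g a q.1 s(S.ex k g q.1, q.2) ∧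
      (a = 0 ∨ ¬ S.J k g (a - 1) s(S.ex k g q.1, q.2)) ∧ S.cnt a s(S.ex k g q.1, q.2) < s ∧
      ¬ S.LB k g a s(S.ex k g q.1, q.2) ∧ ¬ S.LMs k g a s(S.ex k g q.1, q.2) with hB1
  set B2 := (S.NL k g).filter fun q => ∃ e, e < q.1 ∧
      (∀ u, e < u → u ≤ q.1 → ¬ S.In k g u (S.en k g q.1)) ∧ S.In k g e q.2 ∧
      S.In k g (e + 1) q.2 ∧ S.In k g e (S.en k g q.1) ∧
      S.cnt e s(S.en k g q.1, q.2) = 0 with hB2
  have hNLQ : S.NL k g ⊆ S.Q k g := by
    unfold Sweep.NL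
    exact Finset.filter_subset _ _
  have hcov : S.NL k g ⊆ S.QX k g ∪ ((F1 ∪ F2) ∪ (B1 ∪ B2)) := by
    rintro ⟨t, c⟩ hq
    by_cases hX : S.Ex t c
    · apply Finset.mem_union_left
      unfold Sweep.QX
      rw [Finset.mem_filter]
      exact ⟨hNLQ hq, hX⟩
    · apply Finset.mem_union_right
      unfold Sweep.Ex at hX
      push Not at hX
      obtain ⟨t', ht', hc, hne⟩ := hX
      rcases lt_or_gt_of_ne hne with hlt | hlt
      · apply Finset.mem_union_right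
        rcases S.key_b hs h3 hg hq ⟨t', hlt, ht', hc⟩ with h | h
        · apply Finset.mem_union_left
          rw [hB1, Finset.mem_filter]
          exact ⟨hq, h⟩
        · apply Finset.mem_union_right
          rw [hB2, Finset.mem_filter]
          exact ⟨hq, h⟩
      · apply Finset.mem_union_left
        rcases S.key_f hs h3 hg hq ⟨t', hlt, ht', hc⟩ with h | h
        · apply Finset.mem_union_left
          rw [hF1, Finset.mem_filter]
          exact ⟨hq, h⟩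
        · apply Finset.mem_union_right
          rw [hF2, Finset.mem_filter]
          exact ⟨hq, h⟩
  have c0 : (S.NL k g).card ≤ (S.QX k g).card + ((F1.card + F2.card) + (B1.card + B2.card)) := by
    refine (Finset.card_le_card hcov).trans ((Finset.card_union_le _ _).trans ?_)
    refine Nat.add_le_add_left ((Finset.card_union_le _ _).trans ?_) _
    exact Nat.add_le_add (Finset.card_union_le _ _) (Finset.card_union_le _ _)
  have c1 : F1.card ≤ DF1.card := by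
    apply F1_card S hg F1 DF1 ((Finset.filter_subset _ _).trans hNLQ)
    rintro ⟨t, c⟩ hq
    rw [hF1, Finset.mem_filter] at hq
    obtain ⟨hq, b, h1, h2, h3, h4, h5, h6, h7⟩ := hq
    refine ⟨b, h1, h3, ?_⟩
    rw [hDF1, Finset.mem_filter]
    exact ⟨mem_compsE S h2 (h3 b h1 le_rfl) h4, h6, h7, h5⟩
  have c2 : F2.card ≤ DF2.card := by
    apply F2_card S hg F2 DF2 ((Finset.filter_subset _ _).trans hNLQ)
    rintro ⟨t, c⟩ hq
    rw [hF2, Finset.mem_filter] at hq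
    obtain ⟨hq, e, h1, h2, h3', h4, h5, h6, h7⟩ := hq
    simp only at h1 h3' h4 h5 h6 h7
    refine ⟨e, h1, h3', h4, ?_⟩
    rw [hDF2, Finset.mem_filter]
    have hne : S.ex k g t ≠ c := fun h => h3' e h1 le_rfl (h ▸ h4)
    refine ⟨mem_comps S (by omega) ((J_mk S).2 ⟨hne, h6, h5⟩) (Or.inr ?_), ?_, ?_, h7⟩
    · rw [Nat.add_sub_cancel]
      exact fun h => h3' e h1 le_rfl ((J_mk S).1 h).2.1
    · rintro ⟨τ, g1, -, -, g4⟩
      have := cnt_mono S s(S.ex k g t, c) g1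
      simp only at g4 this
      omega
    · rintro ⟨τ, g1, -, -, -, g5, -⟩
      have := cnt_mono S s(S.ex k g t, c) g1
      simp only at g5 this
      omega
  have c3 : B1.card ≤ DB1.card := by
    apply B1_card S hg B1 DB1 ((Finset.filter_subset _ _).trans hNLQ)
    rintro ⟨t, c⟩ hq
    rw [hB1, Finset.mem_filter] at hq
    obtain ⟨hq, a, h1, h2, h3', h4, h5, h6⟩ := hq
    refine ⟨a, h1, h2, ?_⟩
    rw [hDB1, Finset.mem_filter]
    have hM := (mem_Q S (hNLQ hq)).1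
    simp only at h1
    exact ⟨mem_comps S (by omega) (h2 a le_rfl h1) h3', h5, h6, h4⟩
  have c4 : B2.card ≤ DB2.card := by
    apply B2_card S hg B2 DB2 ((Finset.filter_subset _ _).trans hNLQ)
    rintro ⟨t, c⟩ hq
    rw [hB2, Finset.mem_filter] at hq
    obtain ⟨hq, e, h1, h3', h4, h5, h6, h7⟩ := hq
    simp only at h1 h3' h4 h5 h6 h7
    refine ⟨e, h1, h3', h5, ?_⟩
    rw [hDB2, Finset.mem_filter]
    have hM := (mem_Q S (hNLQ hq)).1
    have hne : S.en k g t ≠ c := fun h => h3' (e + 1) (by omega) (by omega) (h ▸ h5)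
    refine ⟨mem_compsE S (by omega) ((J_mk S).2 ⟨hne, h6, h4⟩) (Or.inr ?_), ?_, ?_, h7⟩
    · exact fun h => h3' (e + 1) (by omega) (by omega) ((J_mk S).1 h).2.1
    · rintro ⟨τ, g1, -, -, g4⟩
      have := cnt_mono S s(S.en k g t, c) g1.le
      simp only at g4 this
      omega
    · rintro ⟨τ, g1, -, -, g4, -, -⟩
      have := cnt_mono S s(S.en k g t, c) g1.le
      simp only at g4 this
      omega
  omega

end LUB
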