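import Pool.Agent.LUB.Band

/-!
# Upper bounds for a level: counting the runs by the boundary exchanges
-/

open scoped Classical

namespace LUB

variable {V : Type} [DecidableEq V] [Fintype V] {s : ℕ}

/-- the pairs in the band at one moment -/
theorem Sweep.pairs_card (S : Sweep V s) (k g t : ℕ) :
    ((Finset.univ : Finset (Sym2 V)).filter fun p => S.J k g t p).card ≤ 2 * g ^ 2 := by
  set I := (Finset.univ : Finset V).filter fun v => S.In k g t v with hI
  have h1 : ((Finset.univ : Finset (Sym2 V)).filter fun p => S.J k g t p) ⊆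
      I.offDiag.image Sym2.mk.uncurry := by
    intro p hp
    obtain ⟨hd, hm⟩ := (Finset.mem_filter.mp hp).2
    induction p using Sym2.ind with
    | _ u v =>
      rw [Finset.mem_image]
      refine ⟨(u, v), ?_, rfl⟩
      rw [Finset.mem_offDiag]
      refine ⟨Finset.mem_filter.mpr ⟨Finset.mem_univ _, hm u (Sym2.mem_mk_left u v)⟩,
        Finset.mem_filter.mpr ⟨Finset.mem_univ _, hm v (Sym2.mem_mk_right u v)⟩, ?_⟩
      intro h
      exact hd (Sym2.mk_isDiag_iff.mpr h)
  have h2 := Finset.card_le_card h1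
  rw [Sym2.card_image_offDiag] at h2
  have h3 : I.card.choose 2 ≤ (2 * g).choose 2 := Nat.choose_le_choose 2 (S.in_card k g t)
  have h4 : (2 * g).choose 2 ≤ 2 * g ^ 2 := by
    rw [Nat.choose_two_right]
    apply Nat.div_le_of_le_mul
    have : 2 * g * (2 * g - 1) ≤ 2 * g * (2 * g) := Nat.mul_le_mul_left _ (Nat.sub_le _ _)
    nlinarith
  omega

/-- a new pair after an exchange -/
theorem Sweep.new_swap (S : Sweep V s) {k g t : ℕ} (hg : 1 ≤ g) (ht : t < S.M)
    (h : S.gap t ≠ 0) {p : Sym2 V} (h1 : S.J k g (t + 1) p) (h0 : ¬ S.J k g t p) :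
    ∃ c, p = s(S.en k g t, c) ∧ (t, c) ∈ S.Q k g := by
  by_cases hb : S.Bd k g t
  swap
  · exact absurd ⟨h1.1, fun v hv => (S.in_swap ht h hb v).mp (h1.2 v hv)⟩ h0
  obtain ⟨b1, b2, b3, b4, b5, b6⟩ := S.bd hg ht hb
  have hen : S.en k g t ∈ p := by
    by_contra hne
    apply h0
    refine ⟨h1.1, fun v hv => ?_⟩
    have hv1 := h1.2 v hv
    refine (S.in_bd ht hb v ?_ ?_).mp hv1
    · rintro rfl
      exact b2 hv1
    · rintro rfl
      exact hne hv
  obtain ⟨c, rfl⟩ := Sym2.mem_iff_exists.mp hen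
  have hc1 : S.In k g (t + 1) c := h1.2 c (Sym2.mem_mk_right _ _)
  have hce : c ≠ S.en k g t := by
    rintro rfl
    exact h1.1 (Sym2.mk_isDiag_iff.mpr rfl)
  have hcx : c ≠ S.ex k g t := by
    rintro rfl
    exact b2 hc1
  refine ⟨c, rfl, ?_⟩
  unfold Sweep.Q
  rw [Finset.mem_filter, Finset.mem_product]
  exact ⟨⟨Finset.mem_range.mpr ht, Finset.mem_univ _⟩, hb, (S.in_bd ht hb c hcx hce).mp hc1, hc1⟩

/-- a lost pair after an exchange -/
theorem Sweep.old_swap (S : Sweep V s) {k g t : ℕ} (hg : 1 ≤ g) (ht : t < S.M)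
    (h : S.gap t ≠ 0) {p : Sym2 V} (h0 : S.J k g t p) (h1 : ¬ S.J k g (t + 1) p) :
    ∃ c, p = s(S.ex k g t, c) ∧ (t, c) ∈ S.Q k g := by
  by_cases hb : S.Bd k g t
  swap
  · exact absurd ⟨h0.1, fun v hv => (S.in_swap ht h hb v).mpr (h0.2 v hv)⟩ h1
  obtain ⟨b1, b2, b3, b4, b5, b6⟩ := S.bd hg ht hb
  have hen : S.ex k g t ∈ p := by
    by_contra hne
    apply h1
    refine ⟨h0.1, fun v hv => ?_⟩
    have hv1 := h0.2 v hv
    refine (S.in_bd ht hb v ?_ ?_).mpr hv1
    · rintro rfl
      exact hne hv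
    · rintro rfl
      exact b3 hv1
  obtain ⟨c, rfl⟩ := Sym2.mem_iff_exists.mp hen
  have hc1 : S.In k g t c := h0.2 c (Sym2.mem_mk_right _ _)
  have hce : c ≠ S.ex k g t := by
    rintro rfl
    exact h0.1 (Sym2.mk_isDiag_iff.mpr rfl)
  have hcx : c ≠ S.en k g t := by
    rintro rfl
    exact b3 hc1
  refine ⟨c, rfl, ?_⟩
  unfold Sweep.Q
  rw [Finset.mem_filter, Finset.mem_product]
  exact ⟨⟨Finset.mem_range.mpr ht, Finset.mem_univ _⟩, hb, hc1, (S.in_bd ht hb c hce hcx).mpr hc1⟩

/-- the set of pairs `s(e t, c)` with `t` a jump and `c` in a set with at most `2 g` elements -/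
theorem Sweep.jump_count (S : Sweep V s) (k g : ℕ) (e : ℕ → V) (f : ℕ → ℕ) (τ : ℕ → ℕ) :
    (((Finset.range S.M).filter fun t => S.gap t = 0).biUnion fun t =>
      ((Finset.univ : Finset V).filter fun v => S.In k g (f t) v).image
        fun c => (τ t, s(e t, c))).card ≤ 4 * Fintype.card V * g := by
  refine Finset.card_biUnion_le.trans ?_
  have h1 : ∀ t ∈ (Finset.range S.M).filter fun t => S.gap t = 0,
      (((Finset.univ : Finset V).filter fun v => S.In k g (f t) v).image
        fun c => (τ t, s(e t, c))).card ≤ 2 * g :=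
    fun t _ => Finset.card_image_le.trans (S.in_card k g (f t))
  refine (Finset.sum_le_sum h1).trans ?_
  rw [Finset.sum_const, smul_eq_mul]
  have h2 := Nat.mul_le_mul_right (2 * g) S.jumps
  nlinarith

theorem Sweep.count_start (S : Sweep V s) (k g : ℕ) (hg : 1 ≤ g) (P : ℕ → Sym2 V → Prop) :
    ((S.comps k g).filter fun q => P q.1 q.2).card ≤
      ((S.Q k g).filter fun q => P (q.1 + 1) s(S.en k g q.1, q.2)).card +
        (2 * g ^ 2 + 4 * Fintype.card V * g) := by
  by_cases hV : Nonempty V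
  swap
  · have : S.comps k g = ∅ := by
      rw [Finset.eq_empty_iff_forall_notMem]
      rintro ⟨a, p⟩ _
      induction p using Sym2.ind with
      | _ u v => exact hV ⟨u⟩
    rw [this]
    simp
  obtain ⟨v₀⟩ := hV
  have he' : ∃ e : ℕ → V, ∀ t, t < S.M → S.gap t = 0 →
      ∀ u, S.In k g (t + 1) u → ¬ S.In k g t u → e t = u := by
    refine ⟨fun t => if h : t < S.M ∧ S.gap t = 0 ∧ ∃ u, S.In k g (t + 1) u ∧ ¬ S.In k g t u then
      h.2.2.choose else v₀, ?_⟩
    intro t h1 h2 u h3 h4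
    have hh : t < S.M ∧ S.gap t = 0 ∧ ∃ u, S.In k g (t + 1) u ∧ ¬ S.In k g t u :=
      ⟨h1, h2, u, h3, h4⟩
    change (if h : t < S.M ∧ S.gap t = 0 ∧ ∃ u, S.In k g (t + 1) u ∧ ¬ S.In k g t u then
      h.2.2.choose else v₀) = u
    rw [dif_pos hh]
    exact (S.in_jump h1 h2).1 _ u hh.2.2.choose_spec.1 hh.2.2.choose_spec.2 h3 h4
  obtain ⟨e, he⟩ := he'
  set A0 := ((Finset.univ : Finset (Sym2 V)).filter fun p => S.J k g 0 p).image
    fun p => ((0 : ℕ), p) with hA0
  set A1 := ((S.Q k g).filter fun q => P (q.1 + 1) s(S.en k g q.1, q.2)).image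
    fun q => (q.1 + 1, s(S.en k g q.1, q.2)) with hA1
  set A2 := ((Finset.range S.M).filter fun t => S.gap t = 0).biUnion fun t =>
      ((Finset.univ : Finset V).filter fun v => S.In k g (t + 1) v).image
        fun c => (t + 1, s(e t, c)) with hA2
  have hsub : ((S.comps k g).filter fun q => P q.1 q.2) ⊆ A1 ∪ (A0 ∪ A2) := by
    rintro ⟨a, p⟩ hq
    obtain ⟨hq1, hP⟩ := Finset.mem_filter.mp hq
    unfold Sweep.comps at hq1
    obtain ⟨hq2, hJ, h0⟩ := Finset.mem_filter.mp hq1
    have ha : a ≤ S.M := by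
      have := Finset.mem_range.mp (Finset.mem_product.mp hq2).1
      exact Nat.lt_succ_iff.mp this
    simp only at hP hJ h0
    rw [Finset.mem_union, Finset.mem_union]
    rcases Nat.eq_zero_or_pos a with rfl | hpos
    · right; left
      rw [hA0, Finset.mem_image]
      exact ⟨p, Finset.mem_filter.mpr ⟨Finset.mem_univ _, hJ⟩, rfl⟩
    obtain ⟨t, rfl⟩ : ∃ t, a = t + 1 := ⟨a - 1, by omega⟩
    have ht : t < S.M := by omega
    have hn : ¬ S.J k g t p := by
      rcases h0 with h0 | h0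
      · omega
      · simpa using h0
    by_cases hgap : S.gap t = 0
    · right; right
      rw [hA2, Finset.mem_biUnion]
      refine ⟨t, Finset.mem_filter.mpr ⟨Finset.mem_range.mpr ht, hgap⟩, ?_⟩
      have : ∃ u ∈ p, ¬ S.In k g t u := by
        by_contra hcon
        push Not at hcon
        exact hn ⟨hJ.1, hcon⟩
      obtain ⟨u, hu, hun⟩ := this
      have heu := he t ht hgap u (hJ.2 u hu) hun
      obtain ⟨c, rfl⟩ := Sym2.mem_iff_exists.mp hu
      rw [Finset.mem_image]
      refine ⟨c, Finset.mem_filter.mpr ⟨Finset.mem_univ _, hJ.2 c (Sym2.mem_mk_right _ _)⟩, ?_⟩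
      rw [heu]
    · left
      obtain ⟨c, hpc, hc⟩ := S.new_swap hg ht hgap hJ hn
      rw [hA1, Finset.mem_image]
      refine ⟨(t, c), Finset.mem_filter.mpr ⟨hc, ?_⟩, ?_⟩
      · simp only
        rw [← hpc]; exact hP
      · simp only
        rw [← hpc]
  have h1 := Finset.card_le_card hsub
  have h2 := Finset.card_union_le A1 (A0 ∪ A2)
  have h3 := Finset.card_union_le A0 A2
  have h4 : A1.card ≤ _ := Finset.card_image_le
  have h5 : A0.card ≤ 2 * g ^ 2 := Finset.card_image_le.trans (S.pairs_card k g 0)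
  have h6 : A2.card ≤ 4 * Fintype.card V * g := S.jump_count k g e (fun t => t + 1) fun t => t + 1
  omega

theorem Sweep.count_end (S : Sweep V s) (k g : ℕ) (hg : 1 ≤ g) (P : ℕ → Sym2 V → Prop) :
    ((S.compsE k g).filter fun q => P q.1 q.2).card ≤
      ((S.Q k g).filter fun q => P q.1 s(S.ex k g q.1, q.2)).card +
        (2 * g ^ 2 + 4 * Fintype.card V * g) := by
  by_cases hV : Nonempty V
  swap
  · have : S.compsE k g = ∅ := by
      rw [Finset.eq_empty_iff_forall_notMem]
      rintro ⟨a, p⟩ _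
      induction p using Sym2.ind with
      | _ u v => exact hV ⟨u⟩
    rw [this]
    simp
  obtain ⟨v₀⟩ := hV
  have he' : ∃ e : ℕ → V, ∀ t, t < S.M → S.gap t = 0 →
      ∀ u, S.In k g t u → ¬ S.In k g (t + 1) u → e t = u := by
    refine ⟨fun t => if h : t < S.M ∧ S.gap t = 0 ∧ ∃ u, S.In k g t u ∧ ¬ S.In k g (t + 1) u then
      h.2.2.choose else v₀, ?_⟩
    intro t h1 h2 u h3 h4
    have hh : t < S.M ∧ S.gap t = 0 ∧ ∃ u, S.In k g t u ∧ ¬ S.In k g (t + 1) u :=
      ⟨h1, h2, u, h3, h4⟩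
    change (if h : t < S.M ∧ S.gap t = 0 ∧ ∃ u, S.In k g t u ∧ ¬ S.In k g (t + 1) u then
      h.2.2.choose else v₀) = u
    rw [dif_pos hh]
    exact (S.in_jump h1 h2).2 _ u hh.2.2.choose_spec.1 hh.2.2.choose_spec.2 h3 h4
  obtain ⟨e, he⟩ := he'
  set A0 := ((Finset.univ : Finset (Sym2 V)).filter fun p => S.J k g S.M p).image
    fun p => (S.M, p) with hA0
  set A1 := ((S.Q k g).filter fun q => P q.1 s(S.ex k g q.1, q.2)).image
    fun q => (q.1, s(S.ex k g q.1, q.2)) with hA1
  set A2 := ((Finset.range S.M).filter fun t => S.gap t = 0).biUnion fun t =>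
      ((Finset.univ : Finset V).filter fun v => S.In k g t v).image
        fun c => (t, s(e t, c)) with hA2
  have hsub : ((S.compsE k g).filter fun q => P q.1 q.2) ⊆ A1 ∪ (A0 ∪ A2) := by
    rintro ⟨t, p⟩ hq
    obtain ⟨hq1, hP⟩ := Finset.mem_filter.mp hq
    unfold Sweep.compsE at hq1
    obtain ⟨hq2, hJ, h0⟩ := Finset.mem_filter.mp hq1
    have ha : t ≤ S.M := by
      have := Finset.mem_range.mp (Finset.mem_product.mp hq2).1
      exact Nat.lt_succ_iff.mp this
    simp only at hP hJ h0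
    rw [Finset.mem_union, Finset.mem_union]
    rcases Nat.eq_or_lt_of_le ha with rfl | ht
    · right; left
      rw [hA0, Finset.mem_image]
      exact ⟨p, Finset.mem_filter.mpr ⟨Finset.mem_univ _, hJ⟩, rfl⟩
    have hn : ¬ S.J k g (t + 1) p := by
      rcases h0 with h0 | h0
      · omega
      · exact h0
    by_cases hgap : S.gap t = 0
    · right; right
      rw [hA2, Finset.mem_biUnion]
      refine ⟨t, Finset.mem_filter.mpr ⟨Finset.mem_range.mpr ht, hgap⟩, ?_⟩
      have : ∃ u ∈ p, ¬ S.In k g (t + 1) u := by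
        by_contra hcon
        push Not at hcon
        exact hn ⟨hJ.1, hcon⟩
      obtain ⟨u, hu, hun⟩ := this
      have heu := he t ht hgap u (hJ.2 u hu) hun
      obtain ⟨c, rfl⟩ := Sym2.mem_iff_exists.mp hu
      rw [Finset.mem_image]
      refine ⟨c, Finset.mem_filter.mpr ⟨Finset.mem_univ _, hJ.2 c (Sym2.mem_mk_right _ _)⟩, ?_⟩
      rw [heu]
    · left
      obtain ⟨c, hpc, hc⟩ := S.old_swap hg ht hgap hJ hn
      rw [hA1, Finset.mem_image]
      refine ⟨(t, c), Finset.mem_filter.mpr ⟨hc, ?_⟩, ?_⟩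
      · simp only
        rw [← hpc]; exact hP
      · simp only
        rw [← hpc]
  have h1 := Finset.card_le_card hsub
  have h2 := Finset.card_union_le A1 (A0 ∪ A2)
  have h3 := Finset.card_union_le A0 A2
  have h4 : A1.card ≤ _ := Finset.card_image_le
  have h5 : A0.card ≤ 2 * g ^ 2 := Finset.card_image_le.trans (S.pairs_card k g S.M)
  have h6 : A2.card ≤ 4 * Fintype.card V * g := S.jump_count k g e (fun t => t) fun t => t
  omega

theorem Sweep.Q_card (S : Sweep V s) (k g : ℕ) (hg : 1 ≤ g) :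
    (S.Q k g).card + (2 * g - 1) * S.N k g ≤ (2 * g - 1) * S.N k (g + 1) := by
  set B := (Finset.range S.M).filter fun t => S.Bd k g t with hB
  have hN : B.card + S.N k g ≤ S.N k (g + 1) := by
    unfold Sweep.N
    rw [← Finset.card_union_of_disjoint]
    · apply Finset.card_le_card
      intro t ht
      rw [Finset.mem_union, hB, Finset.mem_filter, Finset.mem_filter] at ht
      rw [Finset.mem_filter]
      rcases ht with ⟨h1, h2, h3⟩ | ⟨h1, h2, h3, h4⟩
      · refine ⟨h1, h2, ?_, ?_⟩ <;> omega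
      · refine ⟨h1, h2, ?_, ?_⟩ <;> omega
    · rw [Finset.disjoint_left]
      intro t ht ht'
      rw [hB, Finset.mem_filter] at ht
      rw [Finset.mem_filter] at ht'
      obtain ⟨-, h2, h3⟩ := ht
      obtain ⟨-, -, h4, h5⟩ := ht'
      omega
  have hQ : (S.Q k g).card ≤ B.card * (2 * g - 1) := by
    have hsub : S.Q k g ⊆ B.biUnion fun t =>
        (((Finset.univ : Finset V).filter fun v => S.In k g t v).erase (S.ex k g t)).image
          fun c => (t, c) := by
      rintro ⟨t, c⟩ hq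
      unfold Sweep.Q at hq
      obtain ⟨hq1, hb, hi, hi'⟩ := Finset.mem_filter.mp hq
      have ht := Finset.mem_range.mp (Finset.mem_product.mp hq1).1
      simp only at hb hi hi' ht
      rw [Finset.mem_biUnion]
      refine ⟨t, Finset.mem_filter.mpr ⟨Finset.mem_range.mpr ht, hb⟩, ?_⟩
      rw [Finset.mem_image]
      refine ⟨c, ?_, rfl⟩
      rw [Finset.mem_erase]
      refine ⟨?_, Finset.mem_filter.mpr ⟨Finset.mem_univ _, hi⟩⟩
      rintro rfl
      exact (S.bd hg ht hb).2.1 hi'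
    refine (Finset.card_le_card hsub).trans (Finset.card_biUnion_le.trans ?_)
    have h1 : ∀ t ∈ B, ((((Finset.univ : Finset V).filter fun v => S.In k g t v).erase
        (S.ex k g t)).image fun c => (t, c)).card ≤ 2 * g - 1 := by
      intro t ht
      rw [hB, Finset.mem_filter] at ht
      refine Finset.card_image_le.trans ?_
      have h0 := S.in_card k g t
      have h2 := Finset.card_erase_of_mem (Finset.mem_filter.mpr ⟨Finset.mem_univ _,
        (S.bd hg (Finset.mem_range.mp ht.1) ht.2).1⟩ :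
          S.ex k g t ∈ (Finset.univ : Finset V).filter fun v => S.In k g t v)
      rw [h2]
      exact Nat.sub_le_sub_right h0 1
    refine (Finset.sum_le_sum h1).trans ?_
    rw [Finset.sum_const, smul_eq_mul]
  have h3 := Nat.mul_le_mul_left (2 * g - 1) hN
  rw [Nat.mul_add] at h3
  have h4 : B.card * (2 * g - 1) = (2 * g - 1) * B.card := Nat.mul_comm _ _
  omega

end LUB
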