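import Pool.Agent.LUB.Band
import Pool.Agent.LUB.Order

/-!
# Upper bounds for a level: counting the exchanges in the band by runs
-/

open scoped Classical

namespace LUB

variable {V : Type} [DecidableEq V] [Fintype V] {s : ℕ}

/-- the first moment of the run containing `t` -/
noncomputable def Sweep.rstR (S : Sweep V s) (k g t : ℕ) (p : Sym2 V) : ℕ :=
  Nat.find (p := fun a => S.Rn k g a t p) ⟨t + 1, fun u h1 h2 => by omega⟩

/-- the last moment of the run containing `t` -/
noncomputable def Sweep.renR (S : Sweep V s) (k g t : ℕ) (p : Sym2 V) : ℕ :=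
  Nat.findGreatest (fun b => S.Rn k g t b p) S.M

theorem Sweep.rst_rnR (S : Sweep V s) (k g t : ℕ) (p : Sym2 V) : S.Rn k g (S.rstR k g t p) t p :=
  Nat.find_spec (p := fun a => S.Rn k g a t p) _

theorem Sweep.rst_minR (S : Sweep V s) {k g t a : ℕ} {p : Sym2 V} (h : S.Rn k g a t p) :
    S.rstR k g t p ≤ a :=
  Nat.find_min' (p := fun a => S.Rn k g a t p) _ h

theorem Sweep.rst_leR (S : Sweep V s) {k g t : ℕ} {p : Sym2 V} (h : S.J k g t p) :
    S.rstR k g t p ≤ t :=
  S.rst_minR fun u h1 h2 => by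
    have : u = t := le_antisymm h2 h1
    rw [this]; exact h

theorem Sweep.rst_startR (S : Sweep V s) (k g t : ℕ) (p : Sym2 V)
    (_ : S.J k g t p) :
    S.rstR k g t p = 0 ∨ ¬ S.J k g (S.rstR k g t p - 1) p := by
  by_contra hc
  push Not at hc
  obtain ⟨h0, h1⟩ := hc
  have : S.rstR k g t p ≤ S.rstR k g t p - 1 := S.rst_minR fun u h2 h3 => by
    rcases Nat.eq_or_lt_of_le h2 with h4 | h4
    · rw [← h4]; exact h1
    · exact S.rst_rnR k g t p u (by omega) h3
  omega

theorem Sweep.rst_eqR (S : Sweep V s) {k g t a : ℕ} {p : Sym2 V} (hat : a ≤ t)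
    (h : S.Rn k g a t p) (ha : a = 0 ∨ ¬ S.J k g (a - 1) p) : S.rstR k g t p = a := by
  refine le_antisymm (S.rst_minR h) ?_
  by_contra hc
  push Not at hc
  rcases ha with ha | ha
  · omega
  · exact ha (S.rst_rnR k g t p (a - 1) (by omega) (by omega))

theorem Sweep.ren_leR (S : Sweep V s) (k g t : ℕ) (p : Sym2 V) : S.renR k g t p ≤ S.M :=
  Nat.findGreatest_le _

theorem Sweep.ren_rnR (S : Sweep V s) {k g t : ℕ} {p : Sym2 V} (ht : t ≤ S.M)
    (h : S.J k g t p) : S.Rn k g t (S.renR k g t p) p :=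
  Nat.findGreatest_spec (P := fun b => S.Rn k g t b p) ht fun u h1 h2 => by
    have : u = t := le_antisymm h2 h1
    rw [this]; exact h

theorem Sweep.ren_maxR (S : Sweep V s) {k g t b : ℕ} {p : Sym2 V} (hb : b ≤ S.M)
    (h : S.Rn k g t b p) : b ≤ S.renR k g t p :=
  Nat.le_findGreatest hb h

theorem Sweep.le_renR (S : Sweep V s) {k g t : ℕ} {p : Sym2 V} (ht : t ≤ S.M)
    (h : S.J k g t p) : t ≤ S.renR k g t p :=
  S.ren_maxR ht fun u h1 h2 => by
    have : u = t := le_antisymm h2 h1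
    rw [this]; exact h

theorem Sweep.ren_endR (S : Sweep V s) {k g t : ℕ} {p : Sym2 V} (ht : t ≤ S.M)
    (h : S.J k g t p) :
    S.renR k g t p = S.M ∨ ¬ S.J k g (S.renR k g t p + 1) p := by
  by_contra hc
  push Not at hc
  obtain ⟨h0, h1⟩ := hc
  have h5 := S.ren_leR k g t p
  have : S.renR k g t p + 1 ≤ S.renR k g t p := S.ren_maxR (by omega) fun u h2 h3 => by
    rcases Nat.eq_or_lt_of_le h3 with h4 | h4
    · rw [h4]; exact h1
    · exact S.ren_rnR ht h u h2 (by omega)
  omega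

theorem Sweep.ren_eqR (S : Sweep V s) {k g t b : ℕ} {p : Sym2 V} (htb : t ≤ b) (hb : b ≤ S.M)
    (h : S.Rn k g t b p) (he : b = S.M ∨ ¬ S.J k g (b + 1) p) : S.renR k g t p = b := by
  refine le_antisymm ?_ (S.ren_maxR hb h)
  by_contra hc
  push Not at hc
  have h5 := S.ren_leR k g t p
  have hJ : S.J k g t p := h t le_rfl htb
  rcases he with he | he
  · omega
  · exact he (S.ren_rnR (htb.trans hb) hJ (b + 1) (by omega) (by omega))

theorem Sweep.mem_compsR (S : Sweep V s) {k g : ℕ} {q : ℕ × Sym2 V} :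
    q ∈ S.comps k g ↔ q.1 ≤ S.M ∧ S.J k g q.1 q.2 ∧ (q.1 = 0 ∨ ¬ S.J k g (q.1 - 1) q.2) := by
  simp [Sweep.comps]

theorem Sweep.mem_compsER (S : Sweep V s) {k g : ℕ} {q : ℕ × Sym2 V} :
    q ∈ S.compsE k g ↔ q.1 ≤ S.M ∧ S.J k g q.1 q.2 ∧ (q.1 = S.M ∨ ¬ S.J k g (q.1 + 1) q.2) := by
  simp [Sweep.compsE]

theorem Sweep.ren_memR (S : Sweep V s) {k g : ℕ} {q : ℕ × Sym2 V} (hq : q ∈ S.comps k g) :
    (S.renR k g q.1 q.2, q.2) ∈ S.compsE k g := by
  rw [S.mem_compsR] at hq
  rw [S.mem_compsER]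
  exact ⟨S.ren_leR _ _ _ _, S.ren_rnR hq.1 hq.2.1 _ (S.le_renR hq.1 hq.2.1) le_rfl,
    S.ren_endR hq.1 hq.2.1⟩

theorem Sweep.rst_memR (S : Sweep V s) {k g t : ℕ} {p : Sym2 V} (ht : t ≤ S.M)
    (h : S.J k g t p) : (S.rstR k g t p, p) ∈ S.comps k g := by
  rw [S.mem_compsR]
  exact ⟨(S.rst_leR h).trans ht, S.rst_rnR k g t p _ le_rfl (S.rst_leR h), S.rst_startR k g t p h⟩

theorem Sweep.rst_renR (S : Sweep V s) {k g : ℕ} {q : ℕ × Sym2 V} (hq : q ∈ S.comps k g) :
    S.rstR k g (S.renR k g q.1 q.2) q.2 = q.1 := by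
  rw [S.mem_compsR] at hq
  exact S.rst_eqR (S.le_renR hq.1 hq.2.1) (S.ren_rnR hq.1 hq.2.1) hq.2.2

theorem Sweep.ren_rstR (S : Sweep V s) {k g : ℕ} {q : ℕ × Sym2 V} (hq : q ∈ S.compsE k g) :
    S.renR k g (S.rstR k g q.1 q.2) q.2 = q.1 := by
  rw [S.mem_compsER] at hq
  exact S.ren_eqR (S.rst_leR hq.2.1) hq.1 (S.rst_rnR k g _ _) hq.2.2

theorem Sweep.compsE_card (S : Sweep V s) (k g : ℕ) :
    (S.compsE k g).card = (S.comps k g).card := by
  refine Finset.card_bij' (fun q _ => (S.rstR k g q.1 q.2, q.2))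
    (fun q _ => (S.renR k g q.1 q.2, q.2)) ?_ ?_ ?_ ?_
  · intro q hq
    have := S.mem_compsER.1 hq
    exact S.rst_memR this.1 this.2.1
  · intro q hq
    exact S.ren_memR hq
  · intro q hq
    exact Prod.ext (S.ren_rstR hq) rfl
  · intro q hq
    exact Prod.ext (S.rst_renR hq) rfl

theorem Sweep.lms_lmeR (S : Sweep V s) {k g : ℕ} {q : ℕ × Sym2 V} (hq : q ∈ S.comps k g) :
    S.LMs k g q.1 q.2 ↔ S.LMe k g (S.renR k g q.1 q.2) q.2 := by
  have h := S.mem_compsR.1 hq
  have hr := S.ren_rnR h.1 h.2.1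
  constructor
  · rintro ⟨τ, h1, h2, h3, h4, h5, h6⟩
    have h7 : τ + 1 ≤ S.renR k g q.1 q.2 := S.ren_maxR h3.1 h2
    exact ⟨τ, h7, fun u h8 h9 => hr u (h1.trans h8) h9, h3, h4, h5, h6⟩
  · rintro ⟨τ, h1, h2, h3, h4, h5, h6⟩
    have h7 : q.1 ≤ τ := by
      have := S.rst_renR hq
      rw [← this]
      exact S.rst_minR h2
    exact ⟨τ, h7, fun u h8 h9 => hr u h8 (by omega), h3, h4, h5, h6⟩

theorem Sweep.LM_card (S : Sweep V s) (k g : ℕ) :
    ((S.compsE k g).filter fun q => S.LMe k g q.1 q.2).card =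
      ((S.comps k g).filter fun q => S.LMs k g q.1 q.2).card := by
  refine Finset.card_bij' (fun q _ => (S.rstR k g q.1 q.2, q.2))
    (fun q _ => (S.renR k g q.1 q.2, q.2)) ?_ ?_ ?_ ?_
  · intro q hq
    rw [Finset.mem_filter] at hq ⊢
    have := S.mem_compsER.1 hq.1
    have h1 := S.rst_memR this.1 this.2.1
    refine ⟨h1, ?_⟩
    rw [S.lms_lmeR h1]
    simp only
    rw [S.ren_rstR hq.1]
    exact hq.2
  · intro q hq
    rw [Finset.mem_filter] at hq ⊢
    exact ⟨S.ren_memR hq.1, (S.lms_lmeR hq.1).1 hq.2⟩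
  · intro q hq
    exact Prod.ext (S.ren_rstR (Finset.mem_filter.1 hq).1) rfl
  · intro q hq
    exact Prod.ext (S.rst_renR (Finset.mem_filter.1 hq).1) rfl

/-- the exchanges in the band -/
noncomputable def Sweep.bandR (S : Sweep V s) (k g : ℕ) : Finset ℕ :=
  (Finset.range S.M).filter fun t => S.gap t ≠ 0 ∧ k < S.gap t + g ∧ S.gap t < k + g

/-- the pair of a step -/
def Sweep.prR (S : Sweep V s) (t : ℕ) : Sym2 V := s(S.x t, S.y t)

theorem Sweep.band_swR (S : Sweep V s) {k g t : ℕ} (h : t ∈ S.bandR k g) : S.Sw t (S.prR t) := by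
  simp only [Sweep.bandR, Finset.mem_filter, Finset.mem_range] at h
  exact ⟨h.1, h.2.1, rfl⟩

theorem Sweep.band_JR (S : Sweep V s) {k g t : ℕ} (h : t ∈ S.bandR k g) :
    S.J k g t (S.prR t) ∧ S.J k g (t + 1) (S.prR t) := by
  simp only [Sweep.bandR, Finset.mem_filter, Finset.mem_range] at h
  exact S.int_in h.1 h.2.1 h.2.2.1 h.2.2.2

theorem Sweep.band_ltR (S : Sweep V s) {k g t : ℕ} (h : t ∈ S.bandR k g) : t < S.M := by
  simp only [Sweep.bandR, Finset.mem_filter, Finset.mem_range] at h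
  exact h.1

theorem Sweep.cnt_monoR (S : Sweep V s) {a b : ℕ} (h : a ≤ b) (p : Sym2 V) :
    S.cnt a p ≤ S.cnt b p := by
  unfold Sweep.cnt
  exact Finset.card_le_card (Finset.filter_subset_filter _ (Finset.range_mono h))

theorem Sweep.cnt_succ_swR (S : Sweep V s) {t : ℕ} {p : Sym2 V} (h : S.Sw t p) :
    S.cnt (t + 1) p = S.cnt t p + 1 := by
  unfold Sweep.cnt
  rw [Finset.range_add_one, Finset.filter_insert, if_pos h, Finset.card_insert_of_notMem]
  simp

theorem Sweep.cnt_ltR (S : Sweep V s) {t t' : ℕ} {p : Sym2 V} (h : S.Sw t p) (htt : t < t') :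
    S.cnt t p < S.cnt t' p := by
  have h1 := S.cnt_monoR (show t + 1 ≤ t' from htt) p
  rw [S.cnt_succ_swR h] at h1
  omega

theorem Sweep.cnt_injR (S : Sweep V s) {t t' : ℕ} {p : Sym2 V} (h : S.Sw t p) (h' : S.Sw t' p)
    (he : S.cnt t p = S.cnt t' p) : t = t' := by
  rcases lt_trichotomy t t' with h1 | h1 | h1
  · have := S.cnt_ltR h h1; omega
  · exact h1
  · have := S.cnt_ltR h' h1; omega

theorem Sweep.cnt_lt_sR (S : Sweep V s) {t : ℕ} {p : Sym2 V} (h : S.Sw t p) :
    S.cnt t p + 1 ≤ s := by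
  rw [← S.cnt_succ_swR h]
  obtain ⟨h1, h2, rfl⟩ := h
  exact S.cnt_le (S.xy h1 h2).1 _

/-- the run of an exchange in the band, by its first moment -/
noncomputable def Sweep.runR (S : Sweep V s) (k g t : ℕ) : ℕ × Sym2 V :=
  (S.rstR k g (t + 1) (S.prR t), S.prR t)

theorem Sweep.run_leR (S : Sweep V s) {k g t : ℕ} (h : t ∈ S.bandR k g) : (S.runR k g t).1 ≤ t := by
  have hJ := S.band_JR h
  refine S.rst_minR fun u h1 h2 => ?_
  rcases Nat.eq_or_lt_of_le h2 with h4 | h4
  · rw [h4]; exact hJ.2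
  · have : u = t := by omega
    rw [this]; exact hJ.1

theorem Sweep.run_memR (S : Sweep V s) {k g t : ℕ} (h : t ∈ S.bandR k g) :
    S.runR k g t ∈ S.comps k g :=
  S.rst_memR (S.band_ltR h) (S.band_JR h).2

theorem Sweep.run_rnR (S : Sweep V s) (k g t : ℕ) :
    S.Rn k g (S.runR k g t).1 (t + 1) (S.runR k g t).2 :=
  S.rst_rnR k g (t + 1) (S.prR t)

theorem Sweep.first_cardR (S : Sweep V s) (k g : ℕ) :
    ((S.bandR k g).filter fun t => S.cnt t (S.prR t) = 0).card ≤
      ((S.comps k g).filter fun q => S.LB k g q.1 q.2).card := by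
  refine Finset.card_le_card_of_injOn (S.runR k g) ?_ ?_
  · intro t ht
    simp only [Finset.coe_filter, Set.mem_ofPred_eq] at ht ⊢
    exact ⟨S.run_memR ht.1, t, S.run_leR ht.1, S.run_rnR k g t, S.band_swR ht.1, ht.2⟩
  · intro t ht t' ht' he
    simp only [Finset.coe_filter, Set.mem_ofPred_eq] at ht ht'
    have hp : S.prR t = S.prR t' := congrArg Prod.snd he
    have h1 := S.band_swR ht'.1
    have h2 := ht'.2
    rw [← hp] at h1 h2
    exact S.cnt_injR (S.band_swR ht.1) h1 (by omega)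

theorem Sweep.last_cardR (S : Sweep V s) (k g : ℕ) :
    ((S.bandR k g).filter fun t => S.cnt t (S.prR t) + 1 = s).card ≤
      ((S.compsE k g).filter fun q => S.RB k g q.1 q.2).card := by
  refine Finset.card_le_card_of_injOn (fun t => (S.renR k g t (S.prR t), S.prR t)) ?_ ?_
  · intro t ht
    simp only [Finset.coe_filter, Set.mem_ofPred_eq] at ht ⊢
    have hJ := S.band_JR ht.1
    have hl := S.band_ltR ht.1
    have h1 : t + 1 ≤ S.renR k g t (S.prR t) := S.ren_maxR hl fun u h1 h2 => by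
      rcases Nat.eq_or_lt_of_le h2 with h4 | h4
      · rw [h4]; exact hJ.2
      · have : u = t := by omega
        rw [this]; exact hJ.1
    refine ⟨S.mem_compsER.2 ⟨S.ren_leR _ _ _ _, S.ren_rnR hl.le hJ.1 _ (by omega) le_rfl,
      S.ren_endR hl.le hJ.1⟩, t, h1, S.ren_rnR hl.le hJ.1, S.band_swR ht.1, ht.2⟩
  · intro t ht t' ht' he
    simp only [Finset.coe_filter, Set.mem_ofPred_eq] at ht ht'
    have hp : S.prR t = S.prR t' := congrArg Prod.snd he
    have h1 := S.band_swR ht'.1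
    have h2 := ht'.2
    rw [← hp] at h1 h2
    exact S.cnt_injR (S.band_swR ht.1) h1 (by omega)

/-- the middle exchanges and the lonely exchanges of one run -/
theorem Sweep.one_runR (h3 : 3 ≤ s) (S : Sweep V s) (k g : ℕ) (q : ℕ × Sym2 V) :
    ((S.bandR k g).filter fun t => (0 < S.cnt t (S.prR t) ∧ S.cnt t (S.prR t) + 1 < s) ∧
        S.runR k g t = q).card +
      ((S.bandR k g).filter fun t => S.Ln k g t ∧ S.runR k g t = q).card ≤
      (s - 2) + if S.LMs k g q.1 q.2 then 1 else 0 := by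
  by_cases hl : ∃ τ ∈ S.bandR k g, S.Ln k g τ ∧ S.runR k g τ = q
  · obtain ⟨τ, hτ, hL, rfl⟩ := hl
    have key : ∀ t ∈ S.bandR k g, S.runR k g t = S.runR k g τ → t = τ := by
      intro t ht he
      have hp : S.prR t = S.prR τ := congrArg Prod.snd he
      have h1 : (S.runR k g t).1 = (S.runR k g τ).1 := congrArg Prod.fst he
      have hs : S.Sw t s(S.x τ, S.y τ) := by
        have := S.band_swR ht
        rw [hp] at this
        exact this
      refine hL t hs fun u h2 h4 => ?_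
      have h5 := S.run_leR hτ
      have h6 := S.run_leR ht
      rcases le_total t τ with h7 | h7
      · rw [min_eq_right h7] at h2
        rw [max_eq_left h7] at h4
        exact S.run_rnR k g τ u (by omega) h4
      · rw [min_eq_left h7] at h2
        rw [max_eq_right h7] at h4
        have := S.run_rnR k g t u (by omega) h4
        rw [he] at this
        exact this
    have hA : ((S.bandR k g).filter fun t => S.Ln k g t ∧ S.runR k g t = S.runR k g τ).card ≤ 1 := by
      rw [Finset.card_le_one]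
      intro a ha b hb
      rw [Finset.mem_filter] at ha hb
      rw [key a ha.1 ha.2.2, key b hb.1 hb.2.2]
    by_cases hm : 0 < S.cnt τ (S.prR τ) ∧ S.cnt τ (S.prR τ) + 1 < s
    · have hLM : S.LMs k g (S.runR k g τ).1 (S.runR k g τ).2 :=
        ⟨τ, S.run_leR hτ, S.run_rnR k g τ, S.band_swR hτ, hm.1, hm.2, hL⟩
      rw [if_pos hLM]
      have hM : ((S.bandR k g).filter fun t => (0 < S.cnt t (S.prR t) ∧
          S.cnt t (S.prR t) + 1 < s) ∧ S.runR k g t = S.runR k g τ).card ≤ 1 := by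
        rw [Finset.card_le_one]
        intro a ha b hb
        rw [Finset.mem_filter] at ha hb
        rw [key a ha.1 ha.2.2, key b hb.1 hb.2.2]
      omega
    · have hM : ((S.bandR k g).filter fun t => (0 < S.cnt t (S.prR t) ∧
          S.cnt t (S.prR t) + 1 < s) ∧ S.runR k g t = S.runR k g τ).card = 0 := by
        rw [Finset.card_eq_zero, Finset.filter_eq_empty_iff]
        rintro t ht ⟨h1, h2⟩
        rw [key t ht h2] at h1
        exact hm h1
      omega
  · have hA : ((S.bandR k g).filter fun t => S.Ln k g t ∧ S.runR k g t = q).card = 0 := by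
      rw [Finset.card_eq_zero, Finset.filter_eq_empty_iff]
      intro t ht h1
      exact hl ⟨t, ht, h1⟩
    have hM : ((S.bandR k g).filter fun t => (0 < S.cnt t (S.prR t) ∧
          S.cnt t (S.prR t) + 1 < s) ∧ S.runR k g t = q).card ≤ (Finset.Icc 1 (s - 2)).card := by
      refine Finset.card_le_card_of_injOn (fun t => S.cnt t q.2) ?_ ?_
      · intro t ht
        simp only [Finset.coe_filter, Set.mem_ofPred_eq] at ht
        obtain ⟨h1, ⟨h2, h4⟩, h5⟩ := ht
        have hp : S.prR t = q.2 := congrArg Prod.snd h5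
        rw [hp] at h2 h4
        simp only [Finset.coe_Icc, Set.mem_Icc]
        omega
      · intro t ht t' ht' he
        simp only [Finset.coe_filter, Set.mem_ofPred_eq] at ht ht'
        have hp : S.prR t = q.2 := congrArg Prod.snd ht.2.2
        have hp' : S.prR t' = q.2 := congrArg Prod.snd ht'.2.2
        exact S.cnt_injR (hp ▸ S.band_swR ht.1) (hp' ▸ S.band_swR ht'.1) he
    rw [Nat.card_Icc] at hM
    omega

theorem Sweep.runs (h3 : 3 ≤ s) (S : Sweep V s) (k g : ℕ) (_ : 1 ≤ g) :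
    S.N k g + (S.A k g).card ≤ (s - 2) * (S.comps k g).card +
      ((S.comps k g).filter fun q => S.LMs k g q.1 q.2).card +
      ((S.comps k g).filter fun q => S.LB k g q.1 q.2).card +
      ((S.compsE k g).filter fun q => S.RB k g q.1 q.2).card := by
  have h1 := S.first_cardR k g
  have h2 := S.last_cardR k g
  have hN : S.N k g = (S.bandR k g).card := rfl
  have hA : S.A k g = (S.bandR k g).filter fun t => S.Ln k g t := by
    ext t
    simp only [Sweep.A, Sweep.bandR, Finset.mem_filter]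
    tauto
  have hsplit : (S.bandR k g).card ≤
      ((S.bandR k g).filter fun t => S.cnt t (S.prR t) = 0).card +
      ((S.bandR k g).filter fun t => S.cnt t (S.prR t) + 1 = s).card +
      ((S.bandR k g).filter fun t => 0 < S.cnt t (S.prR t) ∧ S.cnt t (S.prR t) + 1 < s).card := by
    refine (Finset.card_le_card ?_).trans (Finset.card_union_le _ _ |>.trans
      (Nat.add_le_add_right (Finset.card_union_le _ _) _))
    intro t ht
    have := S.cnt_lt_sR (S.band_swR ht)
    simp only [Finset.mem_union, Finset.mem_filter]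
    by_cases h5 : S.cnt t (S.prR t) = 0
    · exact Or.inl (Or.inl ⟨ht, h5⟩)
    · by_cases h6 : S.cnt t (S.prR t) + 1 = s
      · exact Or.inl (Or.inr ⟨ht, h6⟩)
      · exact Or.inr ⟨ht, by omega, by omega⟩
  have hM : ((S.bandR k g).filter fun t => 0 < S.cnt t (S.prR t) ∧
      S.cnt t (S.prR t) + 1 < s).card = ∑ q ∈ S.comps k g,
      ((S.bandR k g).filter fun t => (0 < S.cnt t (S.prR t) ∧ S.cnt t (S.prR t) + 1 < s) ∧
        S.runR k g t = q).card := by
    rw [Finset.card_eq_sum_card_fiberwise (f := S.runR k g) (t := S.comps k g)]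
    · refine Finset.sum_congr rfl fun q _ => ?_
      rw [Finset.filter_filter]
    · intro t ht
      exact S.run_memR (Finset.mem_filter.1 ht).1
  have hL : ((S.bandR k g).filter fun t => S.Ln k g t).card = ∑ q ∈ S.comps k g,
      ((S.bandR k g).filter fun t => S.Ln k g t ∧ S.runR k g t = q).card := by
    rw [Finset.card_eq_sum_card_fiberwise (f := S.runR k g) (t := S.comps k g)]
    · refine Finset.sum_congr rfl fun q _ => ?_
      rw [Finset.filter_filter]
    · intro t ht
      exact S.run_memR (Finset.mem_filter.1 ht).1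
  have hsum : ((S.bandR k g).filter fun t => 0 < S.cnt t (S.prR t) ∧
      S.cnt t (S.prR t) + 1 < s).card + ((S.bandR k g).filter fun t => S.Ln k g t).card ≤
      (s - 2) * (S.comps k g).card +
        ((S.comps k g).filter fun q => S.LMs k g q.1 q.2).card := by
    rw [hM, hL, ← Finset.sum_add_distrib]
    refine (Finset.sum_le_sum fun q _ => S.one_runR h3 k g q).trans ?_
    rw [Finset.sum_add_distrib, Finset.sum_const, smul_eq_mul, Finset.card_filter, mul_comm]
  rw [hN, hA]
  omega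

end LUB
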