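import Pool.Agent.LUB.Band

/-!
# The exchanges at the boundaries of the inner bands
-/

open scoped Classical

namespace LUB

variable {V : Type} [DecidableEq V] [Fintype V] {s : ℕ}

namespace Xa

theorem change {P : ℕ → Prop} {a b : ℕ} (hab : a ≤ b) (h1 : P a) (h2 : ¬ P b) :
    ∃ u, a ≤ u ∧ u < b ∧ P u ∧ ¬ P (u + 1) := by
  induction b, hab using Nat.le_induction with
  | base => exact absurd h1 h2
  | succ b hb ih =>
    by_cases h : P b
    · exact ⟨b, hb, Nat.lt_succ_self b, h, h2⟩
    · obtain ⟨u, hu1, hu2, hu3, hu4⟩ := ih h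
      exact ⟨u, hu1, by omega, hu3, hu4⟩

theorem xi_le (S : Sweep V s) {k h t t' : ℕ} (C : Finset V) (p : Sym2 V) (ht : t < S.M)
    (ht' : t' < S.M) (hR : S.Rn k h (min t t') (max t t' + 1) p) (hC1 : ∀ c ∈ C, c ∈ S.L t)
    (hC2 : ∀ c ∈ C, c ∉ S.L t') :
    C.card ≤ ((Finset.range S.M).filter fun u => S.gap u = 0 ∧ S.J k h u p).card := by
  have hex : ∀ c ∈ C, ∃ u, min t t' ≤ u ∧ u < max t t' ∧ ¬ (c ∈ S.L (u + 1) ↔ c ∈ S.L u) := by
    intro c hc
    rcases le_total t t' with h | h
    · obtain ⟨u, h1, h2, h3, h4⟩ := change (P := fun u => c ∈ S.L u) h (hC1 c hc) (hC2 c hc)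
      exact ⟨u, by omega, by omega, fun hcon => h4 (hcon.2 h3)⟩
    · obtain ⟨u, h1, h2, h3, h4⟩ := change (P := fun u => c ∉ S.L u) h (hC2 c hc)
        (not_not.2 (hC1 c hc))
      exact ⟨u, by omega, by omega, fun hcon => h4 (fun h5 => h3 (hcon.1 h5))⟩
  choose! f hf using hex
  apply Finset.card_le_card_of_injOn f
  · intro c hc
    obtain ⟨h1, h2, h3⟩ := hf c hc
    have hM : f c < S.M := by
      rcases le_total t t' with h | h
      · rw [max_eq_right h] at h2; omega
      · rw [max_eq_left h] at h2; omega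
    simp only [Finset.coe_filter, Finset.mem_range, Set.mem_ofPred_eq]
    refine ⟨hM, ?_, hR _ h1 (by omega)⟩
    by_contra h0
    exact h3 (S.mem_swap hM h0 c)
  · intro c hc c' hc' hcc
    obtain ⟨h1, h2, h3⟩ := hf c hc
    obtain ⟨h1', h2', h3'⟩ := hf c' hc'
    have hM : f c < S.M := by
      rcases le_total t t' with h | h
      · rw [max_eq_right h] at h2; omega
      · rw [max_eq_left h] at h2; omega
    have h0 : S.gap (f c) = 0 := by
      by_contra h0
      exact h3 (S.mem_swap hM h0 c)
    obtain ⟨v, hv⟩ := S.mem_jump hM h0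
    have e1 : c = v := by
      by_contra hne
      exact h3 (hv c hne)
    have e2 : c' = v := by
      by_contra hne
      apply h3'
      rw [← hcc]
      exact hv c' hne
    rw [e1, e2]

theorem pairs_card (S : Sweep V s) (k h u : ℕ) :
    ((Finset.univ : Finset (Sym2 V)).filter fun p => S.J k h u p).card ≤ 2 * h ^ 2 := by
  set B := (Finset.univ : Finset V).filter fun v => S.In k h u v with hB
  have h1 : ((Finset.univ : Finset (Sym2 V)).filter fun p => S.J k h u p) ⊆
      B.offDiag.image Sym2.mk.uncurry := by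
    intro p hp
    induction p using Sym2.ind with
    | _ a b =>
      simp only [Finset.mem_filter, Finset.mem_univ, true_and, Sweep.J, Sym2.mk_isDiag_iff,
        Sym2.mem_iff, forall_eq_or_imp, forall_eq] at hp
      rw [Finset.mem_image]
      refine ⟨(a, b), ?_, rfl⟩
      rw [Finset.mem_offDiag]
      exact ⟨by simp [hB, hp.2.1], by simp [hB, hp.2.2], hp.1⟩
  have h2 := Finset.card_le_card h1
  have h3 : B.card ≤ 2 * h := S.in_card k h u
  rw [Sym2.card_image_offDiag] at h2
  have h4 : B.card.choose 2 ≤ (2 * h).choose 2 := Nat.choose_le_choose 2 h3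
  have h5 : (2 * h).choose 2 ≤ 2 * h ^ 2 := by
    rw [Nat.choose_two_right]
    have : 2 * h * (2 * h - 1) ≤ 2 * h * (2 * h) := Nat.mul_le_mul_left _ (Nat.sub_le _ _)
    have h6 : 2 * h * (2 * h) / 2 = 2 * h ^ 2 := by
      rw [show 2 * h * (2 * h) = 2 * (2 * h ^ 2) by ring]
      exact Nat.mul_div_cancel_left _ (by norm_num)
    calc _ ≤ 2 * h * (2 * h) / 2 := Nat.div_le_div_right this
      _ = _ := h6
  omega

/-- the jumps with the pair of step `t` in the band -/
noncomputable def K (S : Sweep V s) (k h t : ℕ) : Finset ℕ :=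
  (Finset.range S.M).filter fun u => S.gap u = 0 ∧ S.J k h u s(S.x t, S.y t)

theorem sum_K (S : Sweep V s) (k h : ℕ) :
    ∑ t ∈ (Finset.range S.M).filter (fun t => S.gap t ≠ 0), (K S k h t).card ≤
      2 * Fintype.card V * (2 * h ^ 2 * s) := by
  have h1 : ∑ t ∈ (Finset.range S.M).filter (fun t => S.gap t ≠ 0), (K S k h t).card =
      ∑ u ∈ (Finset.range S.M).filter (fun u => S.gap u = 0),
        (((Finset.range S.M).filter (fun t => S.gap t ≠ 0)).filter fun t =>
          S.J k h u s(S.x t, S.y t)).card := by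
    have e1 : ∀ t, (K S k h t).card =
        ∑ u ∈ (Finset.range S.M).filter (fun u => S.gap u = 0),
          if S.J k h u s(S.x t, S.y t) then 1 else 0 := by
      intro t
      rw [← Finset.card_filter, Finset.filter_filter]
      rfl
    simp only [e1]
    rw [Finset.sum_comm]
    refine Finset.sum_congr rfl fun u _ => ?_
    rw [← Finset.card_filter]
  rw [h1]
  have h2 : ∀ u, (((Finset.range S.M).filter (fun t => S.gap t ≠ 0)).filter fun t =>
      S.J k h u s(S.x t, S.y t)).card ≤ 2 * h ^ 2 * s := by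
    intro u
    have e2 := Finset.card_le_mul_card_image_of_maps_to
      (f := fun t => s(S.x t, S.y t))
      (s := ((Finset.range S.M).filter (fun t => S.gap t ≠ 0)).filter fun t =>
        S.J k h u s(S.x t, S.y t))
      (t := (Finset.univ : Finset (Sym2 V)).filter fun p => S.J k h u p)
      (fun t ht => by
        simp only [Finset.mem_filter, Finset.mem_univ, true_and] at ht ⊢
        exact ht.2) s
      (fun p hp => by
        simp only [Finset.mem_filter, Finset.mem_univ, true_and] at hp
        induction p using Sym2.ind with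
        | _ a b =>
          have hab : a ≠ b := by
            intro hcon
            exact hp.1 (Sym2.mk_isDiag_iff.2 hcon)
          refine le_trans (Finset.card_le_card ?_) (S.budget a b hab)
          intro t ht
          simp only [Finset.mem_filter, Finset.mem_range] at ht ⊢
          exact ⟨ht.1.1.1, ht.1.1.2, ht.2⟩)
    have e3 := pairs_card S k h u
    calc _ ≤ s * _ := e2
      _ ≤ s * (2 * h ^ 2) := Nat.mul_le_mul_left _ e3
      _ = _ := by ring
  calc _ ≤ ∑ u ∈ (Finset.range S.M).filter (fun u => S.gap u = 0), 2 * h ^ 2 * s :=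
        Finset.sum_le_sum fun u _ => h2 u
    _ = ((Finset.range S.M).filter (fun u => S.gap u = 0)).card * (2 * h ^ 2 * s) := by
        rw [Finset.sum_const, smul_eq_mul]
    _ ≤ _ := Nat.mul_le_mul_right _ S.jumps

/-- one boundary exchange -/
theorem term_le (S : Sweep V s) {k h g t : ℕ} (hg1 : 1 ≤ g) (hgh : g < h) (hg8 : h ≤ 8 * g)
    (ht : t < S.M) (hb : S.Bd k g t) :
    (((S.QX k g).filter fun q => q.1 = t).card : ℝ) / (2 * g) ≤
      (if t ∈ S.A k h then 1 else 0) + 4 / h * ((K S k h t).card : ℝ) := by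
  set F := (S.QX k g).filter fun q => q.1 = t with hF
  set C := F.image Prod.snd with hC
  have hcard : C.card = F.card := by
    apply Finset.card_image_of_injOn
    rintro ⟨a, b⟩ ha ⟨a', b'⟩ ha' hab
    simp only [hF, Finset.coe_filter, Set.mem_ofPred_eq] at ha ha'
    simp only at hab
    rw [Prod.mk.injEq]
    exact ⟨ha.2.trans ha'.2.symm, hab⟩
  have hCp : ∀ c ∈ C, S.In k g t c ∧ S.Ex t c := by
    intro c hc
    rw [hC, Finset.mem_image] at hc
    obtain ⟨⟨a, b⟩, hq, rfl⟩ := hc
    simp only [hF, Finset.mem_filter, Sweep.QX, Sweep.Q] at hq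
    obtain ⟨⟨⟨-, h1⟩, h2⟩, h3⟩ := hq
    subst h3
    exact ⟨h1.2.1, h2⟩
  have hg0 : (0 : ℝ) < 2 * g := by
    have : (0 : ℝ) < g := by exact_mod_cast hg1
    linarith
  have hh0 : (0 : ℝ) < h := by
    have : 0 < h := by omega
    exact_mod_cast this
  have hK0 : 0 ≤ 4 / (h : ℝ) * ((K S k h t).card : ℝ) := by positivity
  rw [← hcard]
  have hgap : k < S.gap t + h ∧ S.gap t < k + h := by
    rcases hb.2 with h1 | h1
    · omega
    · omega
  by_cases hL : S.Ln k h t
  · have hA : t ∈ S.A k h := by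
      simp only [Sweep.A, Finset.mem_filter, Finset.mem_range]
      exact ⟨ht, hb.1, hgap.1, hgap.2, hL⟩
    have h1 : C.card ≤ 2 * g := by
      refine le_trans (Finset.card_le_card ?_) (S.in_card k g t)
      intro c hc
      simp only [Finset.mem_filter, Finset.mem_univ, true_and]
      exact (hCp c hc).1
    have h2 : (C.card : ℝ) ≤ 2 * g := by exact_mod_cast h1
    rw [if_pos hA]
    have h3 : (C.card : ℝ) / (2 * g) ≤ 1 := (div_le_one hg0).2 h2
    linarith
  · have h0 : (0 : ℝ) ≤ (if t ∈ S.A k h then 1 else 0) := by split_ifs <;> norm_num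
    unfold Sweep.Ln at hL
    push Not at hL
    obtain ⟨t', hS, hR, hne⟩ := hL
    have h1 : C.card ≤ (K S k h t).card := by
      apply xi_le S C s(S.x t, S.y t) ht hS.1 hR
      · intro c hc
        exact (hCp c hc).1.1
      · intro c hc hcon
        exact hne ((hCp c hc).2 t' hS hcon)
    have h2 : (C.card : ℝ) ≤ (K S k h t).card := by exact_mod_cast h1
    have h3 : 1 / (2 * (g : ℝ)) ≤ 4 / h := by
      rw [div_le_div_iff₀ hg0 hh0]
      have : (h : ℝ) ≤ 8 * g := by exact_mod_cast hg8
      linarith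
    calc (C.card : ℝ) / (2 * g) = 1 / (2 * g) * C.card := by ring
      _ ≤ 4 / h * (K S k h t).card := mul_le_mul h3 h2 (by positivity) (by positivity)
      _ ≤ _ := by linarith

theorem col_le (S : Sweep V s) {k h t : ℕ} (ht : t < S.M) :
    ∑ g ∈ (Finset.Ico 1 h).filter (fun g => h ≤ 8 * g),
      (((S.QX k g).filter fun q => q.1 = t).card : ℝ) / (2 * g) ≤
      (if t ∈ S.A k h then 1 else 0) +
        if S.gap t ≠ 0 then 4 / h * ((K S k h t).card : ℝ) else 0 := by
  have h0 : (0 : ℝ) ≤ (if t ∈ S.A k h then 1 else 0) := by split_ifs <;> norm_num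
  have hz : ∀ g, ¬ S.Bd k g t →
      (((S.QX k g).filter fun q => q.1 = t).card : ℝ) / (2 * g) = 0 := by
    intro g hb
    have : (S.QX k g).filter (fun q => q.1 = t) = ∅ := by
      apply Finset.filter_eq_empty_iff.2
      rintro ⟨a, b⟩ hq hqt
      simp only [Sweep.QX, Sweep.Q, Finset.mem_filter] at hq
      simp only at hqt
      subst hqt
      exact hb hq.1.2.1
    rw [this]
    simp
  by_cases hex : ∃ g ∈ (Finset.Ico 1 h).filter (fun g => h ≤ 8 * g), S.Bd k g t
  · obtain ⟨g, hg, hb⟩ := hex
    rw [Finset.sum_eq_single_of_mem g hg]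
    · rw [if_pos hb.1]
      simp only [Finset.mem_filter, Finset.mem_Ico] at hg
      exact term_le S hg.1.1 hg.1.2 hg.2 ht hb
    · intro g' hg' hne
      apply hz
      intro hb'
      simp only [Finset.mem_filter, Finset.mem_Ico] at hg hg'
      have h1 := hb.2
      have h2 := hb'.2
      omega
  · push Not at hex
    rw [Finset.sum_eq_zero fun g hg => hz g (hex g hg)]
    have : (0 : ℝ) ≤ if S.gap t ≠ 0 then 4 / h * ((K S k h t).card : ℝ) else 0 := by
      split_ifs <;> positivity
    linarith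

end Xa

open Xa in
theorem Sweep.xacc (S : Sweep V s) (k h : ℕ) (hh : 1 ≤ h) :
    ∑ g ∈ (Finset.Ico 1 h).filter (fun g => h ≤ 8 * g), ((S.QX k g).card : ℝ) / (2 * g) ≤
      (S.A k h).card + 16 * s * Fintype.card V * h := by
  have h1 : ∀ g, ((S.QX k g).card : ℝ) / (2 * g) =
      ∑ t ∈ Finset.range S.M, (((S.QX k g).filter fun q => q.1 = t).card : ℝ) / (2 * g) := by
    intro g
    rw [Finset.card_eq_sum_card_fiberwise (f := Prod.fst) (t := Finset.range S.M)]
    · push_cast
      rw [Finset.sum_div]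
    · rintro ⟨a, b⟩ hq
      simp only [Sweep.QX, Sweep.Q, Finset.coe_filter, Finset.mem_filter, Finset.mem_product,
        Set.mem_ofPred_eq] at hq
      exact hq.1.1.1
  simp only [h1]
  rw [Finset.sum_comm]
  have hh0 : (0 : ℝ) < h := by
    have : 0 < h := by omega
    exact_mod_cast this
  have hA : (∑ t ∈ Finset.range S.M, (if t ∈ S.A k h then (1 : ℝ) else 0)) =
      (S.A k h).card := by
    rw [← Finset.sum_filter, Finset.sum_const, nsmul_eq_mul, mul_one]
    congr 2
    ext t
    simp only [Finset.mem_filter, Finset.mem_range, Sweep.A]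
    tauto
  have hK : (∑ t ∈ Finset.range S.M,
      (if S.gap t ≠ 0 then 4 / h * ((K S k h t).card : ℝ) else 0)) ≤
      16 * s * Fintype.card V * h := by
    rw [← Finset.sum_filter, ← Finset.mul_sum]
    have h2 : (∑ t ∈ (Finset.range S.M).filter (fun t => S.gap t ≠ 0),
        ((K S k h t).card : ℝ)) ≤ 2 * Fintype.card V * (2 * h ^ 2 * s) := by
      exact_mod_cast sum_K S k h
    calc _ ≤ 4 / (h : ℝ) * (2 * Fintype.card V * (2 * h ^ 2 * s)) :=
          mul_le_mul_of_nonneg_left h2 (by positivity)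
      _ = _ := by
          field_simp
          ring
  calc _ ≤ ∑ t ∈ Finset.range S.M, ((if t ∈ S.A k h then (1 : ℝ) else 0) +
        if S.gap t ≠ 0 then 4 / h * ((K S k h t).card : ℝ) else 0) :=
        Finset.sum_le_sum fun t ht => col_le S (Finset.mem_range.1 ht)
    _ = _ := Finset.sum_add_distrib
    _ ≤ _ := by rw [hA]; linarith

end LUB
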