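import Pool.Agent.LUB.Order
import Pool.Agent.LUB.Runs
import Pool.Agent.LUB.Count
import Pool.Agent.LUB.Xacc
import Pool.Agent.LUB.Charge

/-!
# Upper bounds for a level: the recursion

The bound of the number of exchanges in the band of half width `h` by the increase at the boundary.
-/

open scoped Classical

namespace LUB

variable {V : Type} [DecidableEq V] [Fintype V] {s : ℕ}

/-- inclusion and exclusion for the boundary exchanges -/
private theorem Sweep.core_nl (S : Sweep V s) (k g : ℕ) :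
    ((S.Q k g).filter fun q => S.LB k g (q.1 + 1) s(S.en k g q.1, q.2)).card +
      ((S.Q k g).filter fun q => S.RB k g q.1 s(S.ex k g q.1, q.2)).card ≤
      (S.Q k g).card + (S.NL k g).card := by
  have h := Finset.card_union_add_card_inter
    ((S.Q k g).filter fun q => S.LB k g (q.1 + 1) s(S.en k g q.1, q.2))
    ((S.Q k g).filter fun q => S.RB k g q.1 s(S.ex k g q.1, q.2))
  have h1 : (((S.Q k g).filter fun q => S.LB k g (q.1 + 1) s(S.en k g q.1, q.2)) ∪
      ((S.Q k g).filter fun q => S.RB k g q.1 s(S.ex k g q.1, q.2))).card ≤ (S.Q k g).card :=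
    Finset.card_le_card (Finset.union_subset (Finset.filter_subset _ _) (Finset.filter_subset _ _))
  have h2 : (((S.Q k g).filter fun q => S.LB k g (q.1 + 1) s(S.en k g q.1, q.2)) ∩
      ((S.Q k g).filter fun q => S.RB k g q.1 s(S.ex k g q.1, q.2))) = S.NL k g := by
    ext q
    simp only [Sweep.NL, Finset.mem_inter, Finset.mem_filter]
    tauto
  rw [h2] at h
  omega

/-- the main inequality in natural numbers -/
private theorem Sweep.core_nat (hs : Odd s) (h3 : 3 ≤ s) (S : Sweep V s) (k g : ℕ) (hg : 1 ≤ g) :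
    2 * S.N k g + 2 * (S.A k g).card ≤ (2 * s - 1) * (S.Q k g).card + (S.QX k g).card +
      2 * s * (2 * g ^ 2 + 4 * Fintype.card V * g) := by
  have hr := S.runs h3 k g hg
  have hc := S.compsE_card k g
  have hm := S.LM_card k g
  have e1 := S.count_start k g hg (fun a p => S.LB k g a p)
  have e2 := S.count_end k g hg (fun a p => S.RB k g a p)
  have e3 : (S.comps k g).card ≤ (S.Q k g).card + (2 * g ^ 2 + 4 * Fintype.card V * g) := by
    have h := S.count_start k g hg (fun _ _ => True)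
    simpa only [Finset.filter_true] using h
  have hch := S.charge hs h3 k g hg
  have hnl := S.core_nl k g
  have f1 := Finset.card_filter_add_card_filter_not (s := S.comps k g) (fun q => S.LB k g q.1 q.2)
  have f2 := Finset.card_filter_add_card_filter_not (s := S.compsE k g) (fun q => S.RB k g q.1 q.2)
  obtain ⟨m, rfl⟩ : ∃ m, s = m + 3 := ⟨s - 3, by omega⟩
  set E := 2 * g ^ 2 + 4 * Fintype.card V * g with hE
  set c := (S.comps k g).card
  set q := (S.Q k g).card
  have g1 : m + 3 - 2 = m + 1 := by omega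
  have g2 : 2 * (m + 3) - 1 = 2 * m + 5 := by omega
  rw [g1] at hr
  rw [g2]
  have k1 : m * c ≤ m * q + m * E := by
    calc m * c ≤ m * (q + E) := Nat.mul_le_mul_left _ e3
      _ = m * q + m * E := by ring
  have k2 : (m + 1) * c = m * c + c := by ring
  have k3 : (2 * m + 5) * q = 2 * (m * q) + 5 * q := by ring
  have k4 : 2 * (m + 3) * E = 2 * (m * E) + 6 * E := by ring
  rw [k2] at hr
  rw [k3, k4]
  omega

private theorem Sweep.core_n (S : Sweep V s) (k g : ℕ) :
    S.N k g ≤ s * Fintype.card V ^ 2 := by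
  have h := Finset.card_le_mul_card_image_of_maps_to
    (s := (Finset.range S.M).filter fun t => S.gap t ≠ 0 ∧ k < S.gap t + g ∧ S.gap t < k + g)
    (t := (Finset.univ : Finset (V × V))) (f := fun t => (S.x t, S.y t))
    (fun _ _ => Finset.mem_univ _) s ?_
  · rw [Finset.card_univ, Fintype.card_prod, ← sq] at h
    exact h
  · rintro ⟨u, v⟩ -
    by_cases huv : u = v
    · subst huv
      rw [Finset.card_eq_zero.2]
      · exact Nat.zero_le _
      · rw [Finset.filter_eq_empty_iff]
        intro t ht hxy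
        rw [Finset.mem_filter, Finset.mem_range] at ht
        have := (S.xy ht.1 ht.2.1).1
        rw [Prod.mk.injEq] at hxy
        exact this (hxy.1.trans hxy.2.symm)
    · refine le_trans (Finset.card_le_card ?_) (S.budget u v huv)
      intro t ht
      rw [Finset.mem_filter, Finset.mem_filter, Prod.mk.injEq] at ht
      rw [Finset.mem_filter]
      exact ⟨ht.1.1, ht.1.2.1, by rw [ht.2.1, ht.2.2]⟩

/-- K6 -/
theorem core {s : ℕ} (hs : Odd s) (h3 : 3 ≤ s) : ∃ A : ℝ, 0 ≤ A ∧ ∀ (V : Type) [DecidableEq V]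
    [Fintype V] (S : Sweep V s) (k : ℕ), ∃ X : ℕ → ℝ,
      (∀ h, 1 ≤ h → 0 ≤ X h ∧ X h ≤ (S.N k (h + 1) : ℝ) - S.N k h) ∧
      (∀ h, (S.N k h : ℝ) ≤ A * (Fintype.card V : ℝ) ^ 2) ∧
      (∀ h, 1 ≤ h → (S.N k h : ℝ) + ∑ g ∈ (Finset.Ico 1 h).filter (fun g => h ≤ 8 * g), X g ≤
        h * ((2 * s - 1) * ((S.N k (h + 1) : ℝ) - S.N k h) + X h) +
          A * (Fintype.card V * h + (h : ℝ) ^ 2)) := by
  refine ⟨20 * s, by positivity, fun V _ _ S k => ⟨fun g => ((S.QX k g).card : ℝ) / (2 * g),
    fun h hh => ⟨by positivity, ?_⟩, fun h => ?_, fun h hh => ?_⟩⟩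
  · have hq : ((S.QX k h).card : ℝ) ≤ (S.Q k h).card := by
      exact_mod_cast Finset.card_le_card (Finset.filter_subset _ _)
    have hQ := S.Q_card k h hh
    have hQ' : ((S.Q k h).card : ℝ) + (2 * h - 1) * S.N k h ≤ (2 * h - 1) * S.N k (h + 1) := by
      have e : ((2 * h - 1 : ℕ) : ℝ) = 2 * h - 1 := by
        rw [Nat.cast_sub (by omega)]; push_cast; ring
      have := (Nat.cast_le (α := ℝ)).2 hQ
      push_cast [e] at this
      exact this
    have hh' : (1 : ℝ) ≤ h := by exact_mod_cast hh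
    have hd : 0 ≤ (S.N k (h + 1) : ℝ) - S.N k h := by
      have h0 : (0 : ℝ) ≤ (S.Q k h).card := by positivity
      have h1 : 0 ≤ (2 * (h : ℝ) - 1) * ((S.N k (h + 1) : ℝ) - S.N k h) := by nlinarith
      exact nonneg_of_mul_nonneg_right h1 (by linarith)
    simp only
    rw [div_le_iff₀ (by positivity)]
    nlinarith
  · have h1 := S.core_n k h
    have h2 : (S.N k h : ℝ) ≤ s * (Fintype.card V : ℝ) ^ 2 := by exact_mod_cast h1
    have h3 : (0 : ℝ) ≤ s * (Fintype.card V : ℝ) ^ 2 := by positivity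
    nlinarith
  · have hx := S.xacc k h hh
    have hn := S.core_nat hs h3 k h hh
    have hQ := S.Q_card k h hh
    have hQ' : ((S.Q k h).card : ℝ) + (2 * h - 1) * S.N k h ≤ (2 * h - 1) * S.N k (h + 1) := by
      have e : ((2 * h - 1 : ℕ) : ℝ) = 2 * h - 1 := by
        rw [Nat.cast_sub (by omega)]; push_cast; ring
      have := (Nat.cast_le (α := ℝ)).2 hQ
      push_cast [e] at this
      exact this
    have hn' : 2 * (S.N k h : ℝ) + 2 * (S.A k h).card ≤ (2 * s - 1) * (S.Q k h).card +
        (S.QX k h).card + 2 * s * (2 * h ^ 2 + 4 * Fintype.card V * h) := by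
      have e : ((2 * s - 1 : ℕ) : ℝ) = 2 * s - 1 := by
        rw [Nat.cast_sub (by omega)]; push_cast; ring
      have := (Nat.cast_le (α := ℝ)).2 hn
      push_cast [e] at this
      exact this
    have hh' : (1 : ℝ) ≤ h := by exact_mod_cast hh
    have hs' : (3 : ℝ) ≤ s := by exact_mod_cast h3
    have hX : (h : ℝ) * (((S.QX k h).card : ℝ) / (2 * h)) = (S.QX k h).card / 2 := by
      field_simp
    have hd : 0 ≤ (S.N k (h + 1) : ℝ) - S.N k h := by
      have h0 : (0 : ℝ) ≤ (S.Q k h).card := by positivity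
      have h1 : 0 ≤ (2 * (h : ℝ) - 1) * ((S.N k (h + 1) : ℝ) - S.N k h) := by nlinarith
      exact nonneg_of_mul_nonneg_right h1 (by linarith)
    have hq : (S.Q k h).card ≤ (2 * (h : ℝ)) * ((S.N k (h + 1) : ℝ) - S.N k h) := by nlinarith
    have hq2 : (2 * (s : ℝ) - 1) * (S.Q k h).card ≤
        (2 * s - 1) * ((2 * (h : ℝ)) * ((S.N k (h + 1) : ℝ) - S.N k h)) :=
      mul_le_mul_of_nonneg_left hq (by linarith)
    have hp : (0 : ℝ) ≤ s * (Fintype.card V * h) := by positivity
    have hp2 : (0 : ℝ) ≤ s * (h : ℝ) ^ 2 := by positivity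
    have hsum : ∑ g ∈ (Finset.Ico 1 h).filter (fun g => h ≤ 8 * g),
        (fun g : ℕ => ((S.QX k g).card : ℝ) / (2 * g)) g ≤
        (S.A k h).card + 16 * s * Fintype.card V * h := by
      convert hx using 3
    rw [mul_add, hX]
    nlinarith

end LUB
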