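import Pool.Agent.LUB.Defs

/-!
# Upper bounds for a level: the band around a gap

The band of half width `g` around the gap `k`: the indices `k - g, ..., k + g - 1`. Runs are the
maximal intervals of time in which both curves of a pair are in the band.
-/

open scoped Classical

namespace LUB

variable {V : Type} [DecidableEq V] [Fintype V] {s : ℕ}

/-- the curve is alive and in the band of half width `g` around the gap `k` -/
def Sweep.In (S : Sweep V s) (k g t : ℕ) (v : V) : Prop :=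
  v ∈ S.L t ∧ k < (S.L t).idxOf v + 1 + g ∧ (S.L t).idxOf v + 1 ≤ k + g

/-- `u` is below `v` -/
def Sweep.Lt (S : Sweep V s) (t : ℕ) (u v : V) : Prop := (S.L t).idxOf u < (S.L t).idxOf v

/-- both curves of the pair are in the band -/
def Sweep.J (S : Sweep V s) (k g t : ℕ) (p : Sym2 V) : Prop :=
  ¬ p.IsDiag ∧ ∀ v ∈ p, S.In k g t v

/-- step `t` exchanges the pair `p` -/
def Sweep.Sw (S : Sweep V s) (t : ℕ) (p : Sym2 V) : Prop :=
  t < S.M ∧ S.gap t ≠ 0 ∧ s(S.x t, S.y t) = p

/-- number of exchanges of `p` before `t` -/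
noncomputable def Sweep.cnt (S : Sweep V s) (t : ℕ) (p : Sym2 V) : ℕ :=
  ((Finset.range t).filter fun u => S.Sw u p).card

/-- exchange at the boundary of the band -/
def Sweep.Bd (S : Sweep V s) (k g t : ℕ) : Prop :=
  S.gap t ≠ 0 ∧ (S.gap t = k + g ∨ S.gap t + g = k)

/-- the curve leaving the band at a boundary exchange -/
def Sweep.ex (S : Sweep V s) (k g t : ℕ) : V := if S.gap t = k + g then S.x t else S.y t

/-- the curve entering the band at a boundary exchange -/
def Sweep.en (S : Sweep V s) (k g t : ℕ) : V := if S.gap t = k + g then S.y t else S.x t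

/-- both curves of the pair are in the band from `a` to `b` -/
def Sweep.Rn (S : Sweep V s) (k g a b : ℕ) (p : Sym2 V) : Prop :=
  ∀ u, a ≤ u → u ≤ b → S.J k g u p

/-- the runs, given by their first moment -/
noncomputable def Sweep.comps (S : Sweep V s) (k g : ℕ) : Finset (ℕ × Sym2 V) :=
  (Finset.range (S.M + 1) ×ˢ (Finset.univ : Finset (Sym2 V))).filter fun q =>
    S.J k g q.1 q.2 ∧ (q.1 = 0 ∨ ¬ S.J k g (q.1 - 1) q.2)

/-- the runs, given by their last moment -/
noncomputable def Sweep.compsE (S : Sweep V s) (k g : ℕ) : Finset (ℕ × Sym2 V) :=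
  (Finset.range (S.M + 1) ×ˢ (Finset.univ : Finset (Sym2 V))).filter fun q =>
    S.J k g q.1 q.2 ∧ (q.1 = S.M ∨ ¬ S.J k g (q.1 + 1) q.2)

/-- the run starting at `a` contains the first exchange of its pair -/
def Sweep.LB (S : Sweep V s) (k g a : ℕ) (p : Sym2 V) : Prop :=
  ∃ τ, a ≤ τ ∧ S.Rn k g a (τ + 1) p ∧ S.Sw τ p ∧ S.cnt τ p = 0

/-- the run ending at `b` contains the `s`-th exchange of its pair -/
def Sweep.RB (S : Sweep V s) (k g b : ℕ) (p : Sym2 V) : Prop :=
  ∃ τ, τ < b ∧ S.Rn k g τ b p ∧ S.Sw τ p ∧ S.cnt τ p + 1 = s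

/-- the exchange `τ` is the only one of its pair in its run -/
def Sweep.Ln (S : Sweep V s) (k g τ : ℕ) : Prop :=
  ∀ τ', S.Sw τ' s(S.x τ, S.y τ) →
    S.Rn k g (min τ τ') (max τ τ' + 1) s(S.x τ, S.y τ) → τ' = τ

/-- the run starting at `a` has only one exchange of its pair and it is neither the first nor the
`s`-th one -/
def Sweep.LMs (S : Sweep V s) (k g a : ℕ) (p : Sym2 V) : Prop :=
  ∃ τ, a ≤ τ ∧ S.Rn k g a (τ + 1) p ∧ S.Sw τ p ∧ 0 < S.cnt τ p ∧ S.cnt τ p + 1 < s ∧ S.Ln k g τ

/-- the run ending at `b` has only one exchange of its pair and it is neither the first nor the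
`s`-th one -/
def Sweep.LMe (S : Sweep V s) (k g b : ℕ) (p : Sym2 V) : Prop :=
  ∃ τ, τ < b ∧ S.Rn k g τ b p ∧ S.Sw τ p ∧ 0 < S.cnt τ p ∧ S.cnt τ p + 1 < s ∧ S.Ln k g τ

/-- the exchanges in the band which are alone in their run -/
noncomputable def Sweep.A (S : Sweep V s) (k g : ℕ) : Finset ℕ :=
  (Finset.range S.M).filter fun t =>
    S.gap t ≠ 0 ∧ k < S.gap t + g ∧ S.gap t < k + g ∧ S.Ln k g t

/-- boundary exchanges with another curve in the band -/
noncomputable def Sweep.Q (S : Sweep V s) (k g : ℕ) : Finset (ℕ × V) :=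
  (Finset.range S.M ×ˢ (Finset.univ : Finset V)).filter fun q =>
    S.Bd k g q.1 ∧ S.In k g q.1 q.2 ∧ S.In k g (q.1 + 1) q.2

/-- the pair of step `t` is not exchanged again during the life of `c` -/
def Sweep.Ex (S : Sweep V s) (t : ℕ) (c : V) : Prop :=
  ∀ t', S.Sw t' s(S.x t, S.y t) → c ∈ S.L t' → t' = t

noncomputable def Sweep.QX (S : Sweep V s) (k g : ℕ) : Finset (ℕ × V) :=
  (S.Q k g).filter fun q => S.Ex q.1 q.2

noncomputable def Sweep.NL (S : Sweep V s) (k g : ℕ) : Finset (ℕ × V) :=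
  (S.Q k g).filter fun q => S.LB k g (q.1 + 1) s(S.en k g q.1, q.2) ∧
    S.RB k g q.1 s(S.ex k g q.1, q.2)

end LUB
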