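import Pool.Agent.LevelLower.Defs

/-!
# Upper bounds for a level: the combinatorial model

A sweep of an arrangement: lists of the living curves (from bottom to top), changed by exchanges of
neighbours, insertions and deletions.
-/

namespace LUB

open LevelLower

/-- A sweep. `gap t = 0` means that step `t` is an insertion or a deletion; otherwise step `t`
exchanges the curve `x t` with its upper neighbour `y t` and `gap t` is the number of curves below
the place of exchange. -/
structure Sweep (V : Type) [DecidableEq V] [Fintype V] (s : ℕ) where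
  /-- number of steps -/
  M : ℕ
  /-- the living curves from bottom to top -/
  L : ℕ → List V
  gap : ℕ → ℕ
  x : ℕ → V
  y : ℕ → V
  nodup : ∀ t ≤ M, (L t).Nodup
  swap : ∀ t < M, gap t ≠ 0 → ∃ a b : List V, a.length + 1 = gap t ∧
    L t = a ++ x t :: y t :: b ∧ L (t + 1) = a ++ y t :: x t :: b
  jump : ∀ t < M, gap t = 0 → ∃ (a b : List V) (v : V),
    (L t = a ++ b ∧ L (t + 1) = a ++ v :: b) ∨ (L t = a ++ v :: b ∧ L (t + 1) = a ++ b)
  life : ∀ v, ∀ t₁ t t₂, t₁ ≤ t → t ≤ t₂ → t₂ ≤ M → v ∈ L t₁ → v ∈ L t₂ → v ∈ L t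
  budget : ∀ u v, u ≠ v →
    ((Finset.range M).filter fun t => gap t ≠ 0 ∧ s(x t, y t) = s(u, v)).card ≤ s
  jumps : ((Finset.range M).filter fun t => gap t = 0).card ≤ 2 * Fintype.card V

/-- the number of exchanges at the gaps `k - g + 1, ..., k + g - 1` -/
def Sweep.N {V : Type} [DecidableEq V] [Fintype V] {s : ℕ} (S : Sweep V s) (k g : ℕ) : ℕ :=
  ((Finset.range S.M).filter fun t => S.gap t ≠ 0 ∧ k < S.gap t + g ∧ S.gap t < k + g).card

/-- one step of a run: an exchange at gap `g` of `x` with its upper neighbour `y`, or an insertion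
or deletion -/
inductive Stp (V : Type)
  | swp (g : ℕ) (x y : V)
  | jmp

variable {V : Type} [DecidableEq V]

/-- the step leads from the first list to the second one -/
def Stp.Ok (l l' : List V) : Stp V → Prop
  | .swp g x y => ∃ a b : List V, a.length + 1 = g ∧ l = a ++ x :: y :: b ∧ l' = a ++ y :: x :: b
  | .jmp => ∃ (a b : List V) (v : V),
      (l = a ++ b ∧ l' = a ++ v :: b) ∨ (l = a ++ v :: b ∧ l' = a ++ b)

/-- the step exchanges `u` and `v` -/
def Stp.sw (u v : V) : Stp V → Bool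
  | .swp _ x y => (x = u ∧ y = v) ∨ (x = v ∧ y = u)
  | .jmp => false

def Stp.isJ : Stp V → Bool
  | .swp _ _ _ => false
  | .jmp => true

/-- a run: steps, each with the list after it -/
def Run : List V → List (Stp V × List V) → List V → Prop
  | l, [], l' => l = l'
  | l, q :: R, l' => q.1.Ok l q.2 ∧ Run q.2 R l'

/-- the order of `u` and `v` is different in the two lists -/
def Inv (l l' : List V) (u v : V) : Prop :=
  ¬ (l.idxOf u < l.idxOf v ↔ l'.idxOf u < l'.idxOf v)

instance (l l' : List V) (u v : V) : Decidable (Inv l l' u v) := by unfold Inv; infer_instance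

/-- the arc is alive at the abscissa `x` -/
def Alv {n : ℕ} (Γ : Fin n → XArc) (x : ℝ) (i : Fin n) : Prop := x ∈ Set.Icc (Γ i).lo (Γ i).hi

/-- the list of the living arcs at `x` from bottom to top, no two at the same height -/
def IsLst {n : ℕ} (Γ : Fin n → XArc) (x : ℝ) (l : List (Fin n)) : Prop :=
  (∀ i, i ∈ l ↔ Alv Γ x i) ∧ l.Pairwise fun i j => (Γ i).f x < (Γ j).f x

/-- an abscissa of an end or of a common point of two arcs -/
def IsEv {n : ℕ} (Γ : Fin n → XArc) (x : ℝ) : Prop :=
  (∃ i, x = (Γ i).lo ∨ x = (Γ i).hi) ∨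
    ∃ i j, i ≠ j ∧ Alv Γ x i ∧ Alv Γ x j ∧ (Γ i).f x = (Γ j).f x

/-- sample points `p 0 < e 0 < p 1 < ... < e (m-1) < p m` around all events `e j`, with the lists
of the arcs at the sample points -/
structure Samp {n : ℕ} (Γ : Fin n → XArc) where
  m : ℕ
  e : ℕ → ℝ
  p : ℕ → ℝ
  l : ℕ → List (Fin n)
  lt1 : ∀ j < m, p j < e j
  lt2 : ∀ j < m, e j < p (j + 1)
  ev : ∀ x, IsEv Γ x ↔ ∃ j < m, x = e j
  lst : ∀ j ≤ m, IsLst Γ (p j) (l j)

/-- the two arcs next to the gap `κ` before the event `e j` meet at the event -/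
def Samp.Meet {n : ℕ} {Γ : Fin n → XArc} (P : Samp Γ) (κ j : ℕ) : Prop :=
  1 ≤ κ ∧ ∃ u v, (P.l j)[κ - 1]? = some u ∧ (P.l j)[κ]? = some v ∧ Alv Γ (P.e j) u ∧
    Alv Γ (P.e j) v ∧ (Γ u).f (P.e j) = (Γ v).f (P.e j)

end LUB
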