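import Pool.Agent.LUB.Bubble

/-!
# From the lists at the sample points to a sweep
-/

namespace LUB

namespace Glu

variable {V : Type}

/-- the list after `t` steps (constant after the end of the run) -/
def seq : List V → List (Stp V × List V) → ℕ → List V
  | l, [], _ => l
  | l, _ :: _, 0 => l
  | _, q :: R, t + 1 => seq q.2 R t

theorem seq_zero (l : List V) (R : List (Stp V × List V)) : seq l R 0 = l := by
  cases R <;> rfl

theorem seq_nil (l : List V) (t : ℕ) : seq l [] t = l := by
  cases t <;> rfl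

theorem seq_cons (l : List V) (q : Stp V × List V) (R : List (Stp V × List V)) (t : ℕ) :
    seq l (q :: R) (t + 1) = seq q.2 R t := rfl

theorem run_append {R' : List (Stp V × List V)} {l' l'' : List V} : ∀ (R : List (Stp V × List V))
    (l : List V), Run l R l' → Run l' R' l'' → Run l (R ++ R') l''
  | [], l, h, h' => by
    have h0 : l = l' := h
    subst h0
    exact h'
  | q :: R, l, h, h' => ⟨h.1, run_append R q.2 h.2 h'⟩

theorem seq_of_le {l' : List V} : ∀ (R : List (Stp V × List V)) (l : List V) (t : ℕ),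
    Run l R l' → R.length ≤ t → seq l R t = l'
  | [], l, t, h, _ => by rw [seq_nil]; exact h
  | q :: R, l, 0, h, ht => by simp at ht
  | q :: R, l, t + 1, h, ht => seq_of_le R q.2 t h.2 (by simpa using ht)

theorem seq_append_left (R' : List (Stp V × List V)) : ∀ (R : List (Stp V × List V)) (l : List V)
    (t : ℕ), t ≤ R.length → seq l (R ++ R') t = seq l R t
  | [], l, t, h => by
    have : t = 0 := by simpa using h
    subst this
    rw [seq_zero, seq_zero]
  | q :: R, l, 0, h => rfl
  | q :: R, l, t + 1, h => seq_append_left R' R q.2 t (by simpa using h)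

theorem seq_append_right (R' : List (Stp V × List V)) {l' : List V} :
    ∀ (R : List (Stp V × List V)) (l : List V) (t : ℕ), Run l R l' →
    seq l (R ++ R') (R.length + t) = seq l' R' t
  | [], l, t, h => by
    have h0 : l = l' := h
    subst h0
    simp
  | q :: R, l, t, h => by
    have : (q :: R).length + t = (R.length + t) + 1 := by simp; ring
    rw [this]
    exact seq_append_right R' R q.2 t h.2

theorem ok_of_lt (d : Stp V × List V) {l' : List V} : ∀ (R : List (Stp V × List V)) (l : List V)
    (t : ℕ), Run l R l' → t < R.length → (R.getD t d).1.Ok (seq l R t) (seq l R (t + 1))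
  | [], l, t, _, ht => by simp at ht
  | q :: R, l, 0, h, _ => by
    rw [seq_zero, seq_cons, seq_zero]
    exact h.1
  | q :: R, l, t + 1, h, ht => by
    rw [seq_cons, seq_cons]
    exact ok_of_lt d R q.2 t h.2 (by simpa using ht)

/-- the deletion phase -/
theorem del (P : V → Bool) : ∀ l a : List V, ∃ R : List (Stp V × List V),
    Run (a ++ l) R (a ++ l.filter P) ∧ (∀ q ∈ R, q.1 = Stp.jmp) ∧
      R.length = (l.filter fun v => !P v).length ∧
      ∀ t, (seq (a ++ l) R (t + 1)).Sublist (seq (a ++ l) R t)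
  | [], a => ⟨[], by simp [Run], by simp, by simp, fun t => by rw [seq_nil, seq_nil]⟩
  | v :: l, a => by
    by_cases hv : P v = true
    · obtain ⟨R, h1, h2, h3, h4⟩ := del P l (a ++ [v])
      refine ⟨R, ?_, h2, ?_, ?_⟩
      · simpa [hv] using h1
      · simpa [hv] using h3
      · simpa using h4
    · obtain ⟨R, h1, h2, h3, h4⟩ := del P l a
      refine ⟨(Stp.jmp, a ++ l) :: R, ⟨⟨a, l, v, Or.inr ⟨rfl, rfl⟩⟩, ?_⟩, ?_, ?_, ?_⟩
      · simpa [hv] using h1
      · intro q hq
        rcases List.mem_cons.1 hq with rfl | hq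
        · rfl
        · exact h2 q hq
      · simp [hv, h3]
      · intro t
        cases t with
        | zero =>
          rw [seq_cons, seq_zero, seq_zero]
          exact List.Sublist.append_left (List.sublist_cons_self v l) a
        | succ t => exact h4 t

/-- the insertion phase -/
theorem ins (P : V → Bool) : ∀ l a : List V, ∃ R : List (Stp V × List V),
    Run (a ++ l.filter P) R (a ++ l) ∧ (∀ q ∈ R, q.1 = Stp.jmp) ∧
      R.length = (l.filter fun v => !P v).length ∧
      ∀ t, (seq (a ++ l.filter P) R t).Sublist (seq (a ++ l.filter P) R (t + 1))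
  | [], a => ⟨[], by simp [Run], by simp, by simp, fun t => by rw [seq_nil, seq_nil]⟩
  | v :: l, a => by
    by_cases hv : P v = true
    · obtain ⟨R, h1, h2, h3, h4⟩ := ins P l (a ++ [v])
      refine ⟨R, ?_, h2, ?_, ?_⟩
      · simpa [hv] using h1
      · simpa [hv] using h3
      · simpa [hv] using h4
    · obtain ⟨R, h1, h2, h3, h4⟩ := ins P l (a ++ [v])
      have e1 : a ++ (v :: l).filter P = a ++ l.filter P := by simp [hv]
      rw [e1]
      refine ⟨(Stp.jmp, a ++ v :: l.filter P) :: R, ⟨⟨a, l.filter P, v, Or.inl ⟨rfl, rfl⟩⟩, ?_⟩,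
        ?_, ?_, ?_⟩
      · simpa using h1
      · intro q hq
        rcases List.mem_cons.1 hq with rfl | hq
        · rfl
        · exact h2 q hq
      · simp [hv, h3]
      · intro t
        cases t with
        | zero =>
          rw [seq_cons, seq_zero, seq_zero]
          exact List.Sublist.append_left (List.sublist_cons_self v _) a
        | succ t =>
          have := h4 t
          simpa [seq_cons] using this

theorem anti {f : ℕ → List V} (h : ∀ t, (f (t + 1)).Sublist (f t)) {i j : ℕ} (hij : i ≤ j) :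
    (f j).Sublist (f i) := by
  induction hij with
  | refl => exact List.Sublist.refl _
  | step _ ih => exact (h _).trans ih

theorem mono {f : ℕ → List V} (h : ∀ t, (f t).Sublist (f (t + 1))) {i j : ℕ} (hij : i ≤ j) :
    (f i).Sublist (f j) := by
  induction hij with
  | refl => exact List.Sublist.refl _
  | step _ ih => exact ih.trans (h _)

theorem seq_perm {l0 : List V} : ∀ (R : List (Stp V × List V)) (l : List V), l.Perm l0 →
    (∀ q ∈ R, q.2.Perm l0) → ∀ t, (seq l R t).Perm l0
  | [], l, hl, _, t => by rw [seq_nil]; exact hl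
  | q :: R, l, hl, _, 0 => hl
  | q :: R, l, hl, h, t + 1 =>
    seq_perm R q.2 (h q (by simp)) (fun q' hq' => h q' (List.mem_cons_of_mem _ hq')) t

variable [DecidableEq V]

theorem idxOf_filter_lt (P : V → Bool) (u v : V) (hu : P u = true) (hv : P v = true) :
    ∀ l : List V, (l.filter P).idxOf u < (l.filter P).idxOf v ↔ l.idxOf u < l.idxOf v
  | [] => by simp
  | w :: l => by
    have ih := idxOf_filter_lt P u v hu hv l
    by_cases hw : P w = true
    · rw [List.filter_cons_of_pos hw]
      by_cases h1 : w = u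
      · by_cases h2 : w = v
        · subst h1; subst h2; simp
        · subst h1; simp [List.idxOf_cons_ne _ h2]
      · by_cases h2 : w = v
        · subst h2; simp [List.idxOf_cons_ne _ h1]
        · rw [List.idxOf_cons_ne _ h1, List.idxOf_cons_ne _ h2, List.idxOf_cons_ne _ h1,
            List.idxOf_cons_ne _ h2]
          simpa using ih
    · rw [List.filter_cons_of_neg hw]
      have h1 : w ≠ u := fun h => hw (h ▸ hu)
      have h2 : w ≠ v := fun h => hw (h ▸ hv)
      rw [List.idxOf_cons_ne _ h1, List.idxOf_cons_ne _ h2]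
      simpa using ih

theorem not_inv_left {d e : List V} (hp : d.Perm e) {u : V} (v : V) (hu : u ∉ d) :
    ¬ Inv d e u v := by
  have hu' : u ∉ e := fun h => hu (hp.mem_iff.2 h)
  unfold Inv
  rw [not_not, List.idxOf_of_notMem hu, List.idxOf_of_notMem hu']
  have h1 := List.idxOf_le_length (l := d) (a := v)
  have h2 := List.idxOf_le_length (l := e) (a := v)
  constructor
  · intro h; omega
  · intro h; omega

theorem not_inv_right {d e : List V} (hp : d.Perm e) (u : V) {v : V} (hv : v ∉ d) :
    ¬ Inv d e u v := by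
  have hv' : v ∉ e := fun h => hv (hp.mem_iff.2 h)
  unfold Inv
  rw [not_not, List.idxOf_of_notMem hv, List.idxOf_of_notMem hv', List.idxOf_lt_length_iff,
    List.idxOf_lt_length_iff]
  exact hp.mem_iff

/-- the statement of `bubble` -/
def BubbleStmt (V : Type) [DecidableEq V] : Prop :=
  ∀ (l l' : List V), l.Nodup → l.Perm l' →
    ∃ R : List (Stp V × List V), Run l R l' ∧ (∀ q ∈ R, q.1.isJ = false ∧ q.2.Perm l) ∧
      ∀ u v, u ≠ v → R.countP (fun q => q.1.sw u v) ≤ if Inv l l' u v then 1 else 0

theorem countP_sw_jmp {R : List (Stp V × List V)} (h : ∀ q ∈ R, q.1 = Stp.jmp) (u v : V) :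
    R.countP (fun q => q.1.sw u v) = 0 := by
  rw [List.countP_eq_zero]
  intro q hq
  rw [h q hq]
  simp [Stp.sw]

theorem block (hb : BubbleStmt V) (l l' : List V) (hl : l.Nodup) (hl' : l'.Nodup) :
    ∃ R : List (Stp V × List V), Run l R l' ∧ (∀ t, (seq l R t).Nodup) ∧
      (∀ t v, v ∈ seq l R t → v ∈ l ∨ v ∈ l') ∧
      (∀ v t₁ t t₂, t₁ ≤ t → t ≤ t₂ → v ∈ seq l R t₁ → v ∈ seq l R t₂ → v ∈ seq l R t) ∧
      (∀ u v, u ≠ v → R.countP (fun q => q.1.sw u v) ≤
        if (u ∈ l ∧ v ∈ l ∧ u ∈ l' ∧ v ∈ l' ∧ Inv l l' u v) then 1 else 0) ∧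
      R.countP (fun q => q.1.isJ) ≤ (l.filter fun v => !decide (v ∈ l')).length +
        (l'.filter fun v => !decide (v ∈ l)).length := by
  obtain ⟨R1, r1, j1, n1, s1⟩ := del (fun v => decide (v ∈ l')) l []
  obtain ⟨R3, r3, j3, n3, s3⟩ := ins (fun v => decide (v ∈ l)) l' []
  simp only [List.nil_append] at r1 s1 r3 s3
  set d := l.filter fun v => decide (v ∈ l') with hd
  set e := l'.filter fun v => decide (v ∈ l) with he
  have hdm : ∀ v, v ∈ d ↔ v ∈ l ∧ v ∈ l' := fun v => by simp [hd]
  have hem : ∀ v, v ∈ e ↔ v ∈ l ∧ v ∈ l' := fun v => by simp [he, and_comm]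
  have hdn : d.Nodup := hl.filter _
  have hen : e.Nodup := hl'.filter _
  have hp : d.Perm e := (List.perm_ext_iff_of_nodup hdn hen).2 fun v => by rw [hdm, hem]
  obtain ⟨R2, r2, q2, c2⟩ := hb d e hdn hp
  have r23 : Run d (R2 ++ R3) l' := run_append R2 d r2 r3
  have p2 : ∀ t, (seq d R2 t).Perm d := seq_perm R2 d (List.Perm.refl _) fun q hq => (q2 q hq).2
  set a := R1.length with ha
  set b := R2.length with hb'
  have e1 : ∀ t, t ≤ a → seq l (R1 ++ (R2 ++ R3)) t = seq l R1 t := fun t ht =>
    seq_append_left _ R1 l t ht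
  have e2 : ∀ t, t ≤ b → seq l (R1 ++ (R2 ++ R3)) (a + t) = seq d R2 t := fun t ht => by
    rw [seq_append_right (R2 ++ R3) R1 l t r1, seq_append_left _ R2 d t ht]
  have e3 : ∀ t, seq l (R1 ++ (R2 ++ R3)) (a + b + t) = seq e R3 t := fun t => by
    rw [add_assoc, seq_append_right (R2 ++ R3) R1 l (b + t) r1, seq_append_right R3 R2 d t r2]
  -- facts on the three phases
  have f1 : ∀ t, (seq l R1 t).Sublist l := fun t => by
    have := anti s1 (Nat.zero_le t)
    rwa [seq_zero] at this
  have f1' : ∀ t, d.Sublist (seq l R1 t) := fun t => by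
    rcases le_total t a with h | h
    · have := anti s1 h
      rwa [seq_of_le R1 l a r1 le_rfl] at this
    · rw [seq_of_le R1 l t r1 h]
  have f3 : ∀ t, e.Sublist (seq e R3 t) := fun t => by
    have := mono s3 (Nat.zero_le t)
    rwa [seq_zero] at this
  have f3' : ∀ t, (seq e R3 t).Sublist l' := fun t => by
    rcases le_total t R3.length with h | h
    · have := mono s3 h
      rwa [seq_of_le R3 e R3.length r3 le_rfl] at this
    · rw [seq_of_le R3 e t r3 h]
  have cases3 : ∀ t, t ≤ a ∨ (∃ i, i ≤ b ∧ t = a + i) ∨ ∃ i, t = a + b + i := fun t => by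
    by_cases h1 : t ≤ a
    · exact Or.inl h1
    · by_cases h2 : t ≤ a + b
      · exact Or.inr (Or.inl ⟨t - a, by omega, by omega⟩)
      · exact Or.inr (Or.inr ⟨t - (a + b), by omega⟩)
  have g1 : ∀ t v, v ∈ l → v ∈ l' → v ∈ seq l (R1 ++ (R2 ++ R3)) t := fun t v h h' => by
    rcases cases3 t with ht | ⟨i, hi, rfl⟩ | ⟨i, rfl⟩
    · rw [e1 t ht]; exact (f1' t).subset ((hdm v).2 ⟨h, h'⟩)
    · rw [e2 i hi]; exact (p2 i).mem_iff.2 ((hdm v).2 ⟨h, h'⟩)
    · rw [e3 i]; exact (f3 i).subset ((hem v).2 ⟨h, h'⟩)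
  have g2 : ∀ t v, t ≤ a + b → v ∈ seq l (R1 ++ (R2 ++ R3)) t → v ∈ l := fun t v ht h => by
    rcases cases3 t with ht | ⟨i, hi, rfl⟩ | ⟨i, rfl⟩
    · rw [e1 t ht] at h; exact (f1 t).subset h
    · rw [e2 i hi] at h; exact ((hdm v).1 ((p2 i).mem_iff.1 h)).1
    · have : i = 0 := by omega
      subst this
      rw [e3 0, seq_zero] at h
      exact ((hem v).1 h).1
  have g3 : ∀ t v, a ≤ t → v ∈ seq l (R1 ++ (R2 ++ R3)) t → v ∈ l' := fun t v ht h => by
    rcases cases3 t with ht' | ⟨i, hi, rfl⟩ | ⟨i, rfl⟩
    · have : t = a := by omega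
      rw [e1 t ht', this, seq_of_le R1 l a r1 le_rfl] at h
      exact ((hdm v).1 h).2
    · rw [e2 i hi] at h; exact ((hdm v).1 ((p2 i).mem_iff.1 h)).2
    · rw [e3 i] at h; exact (f3' i).subset h
  refine ⟨R1 ++ (R2 ++ R3), run_append R1 l r1 r23, ?_, ?_, ?_, ?_, ?_⟩
  · intro t
    rcases cases3 t with ht | ⟨i, hi, rfl⟩ | ⟨i, rfl⟩
    · rw [e1 t ht]; exact hl.sublist (f1 t)
    · rw [e2 i hi]; exact (p2 i).nodup_iff.2 hdn
    · rw [e3 i]; exact hl'.sublist (f3' i)
  · intro t v h
    rcases le_total t (a + b) with ht | ht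
    · exact Or.inl (g2 t v ht h)
    · exact Or.inr (g3 t v (by omega) h)
  · intro v t₁ t t₂ h1 h2 m1 m2
    by_cases c1 : a + b ≤ t₁
    · obtain ⟨i, rfl⟩ := Nat.exists_eq_add_of_le c1
      obtain ⟨k, rfl⟩ := Nat.exists_eq_add_of_le h1
      rw [e3 i] at m1
      rw [add_assoc (a + b), e3]
      exact (mono s3 (by omega)).subset m1
    · by_cases c2 : t₂ ≤ a
      · rw [e1 t₂ c2] at m2
        rw [e1 t (by omega)]
        exact (anti s1 h2).subset m2
      · exact g1 t v (g2 t₁ v (by omega) m1) (g3 t₂ v (by omega) m2)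
  · intro u v huv
    rw [List.countP_append, List.countP_append, countP_sw_jmp j1, countP_sw_jmp j3, zero_add,
      add_zero]
    refine (c2 u v huv).trans ?_
    by_cases hi : Inv d e u v
    · have hu : u ∈ d := by
        by_contra h
        exact not_inv_left hp v h hi
      have hv : v ∈ d := by
        by_contra h
        exact not_inv_right hp u h hi
      have hu' := (hdm u).1 hu
      have hv' := (hdm v).1 hv
      have hI : Inv l l' u v := by
        unfold Inv at hi ⊢
        rw [hd, he, idxOf_filter_lt _ u v (by simpa using hu'.2) (by simpa using hv'.2),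
          idxOf_filter_lt _ u v (by simpa using hu'.1) (by simpa using hv'.1)] at hi
        exact hi
      rw [if_pos hi, if_pos ⟨hu'.1, hv'.1, hu'.2, hv'.2, hI⟩]
    · rw [if_neg hi]
      exact Nat.zero_le _
  · rw [List.countP_append, List.countP_append]
    have z2 : R2.countP (fun q => q.1.isJ) = 0 := by
      rw [List.countP_eq_zero]
      intro q hq
      rw [(q2 q hq).1]
      simp
    have z1 := List.countP_le_length (p := fun q : Stp V × List V => q.1.isJ) (l := R1)
    have z3 := List.countP_le_length (p := fun q : Stp V × List V => q.1.isJ) (l := R3)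
    rw [z2, ← n1, ← n3]
    omega

theorem chain (hb : BubbleStmt V) (l : ℕ → List V) : ∀ m : ℕ,
    (∀ j ≤ m, (l j).Nodup) →
    (∀ v, ∀ i j k, i ≤ j → j ≤ k → k ≤ m → v ∈ l i → v ∈ l k → v ∈ l j) →
    ∃ (R : List (Stp V × List V)) (T : ℕ → ℕ), Run (l 0) R (l m) ∧ Monotone T ∧
      (∀ j ≤ m, T j ≤ R.length ∧ seq (l 0) R (T j) = l j) ∧
      (∀ t, (seq (l 0) R t).Nodup) ∧
      (∀ t v, v ∈ seq (l 0) R t → ∃ i ≤ m, v ∈ l i) ∧
      (∀ v t₁ t t₂, t₁ ≤ t → t ≤ t₂ → v ∈ seq (l 0) R t₁ → v ∈ seq (l 0) R t₂ →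
        v ∈ seq (l 0) R t) ∧
      (∀ u v, u ≠ v → R.countP (fun q => q.1.sw u v) ≤ ((Finset.range m).filter fun j =>
        u ∈ l j ∧ v ∈ l j ∧ u ∈ l (j + 1) ∧ v ∈ l (j + 1) ∧ Inv (l j) (l (j + 1)) u v).card) ∧
      R.countP (fun q => q.1.isJ) ≤ ∑ j ∈ Finset.range m,
        (((l j).filter fun v => !decide (v ∈ l (j + 1))).length +
          ((l (j + 1)).filter fun v => !decide (v ∈ l j)).length)
  | 0, hn, _ => ⟨[], fun _ => 0, rfl, fun _ _ _ => le_rfl,
      fun j hj => ⟨le_rfl, by obtain rfl : j = 0 := by omega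
                              rfl⟩,
      fun t => by rw [seq_nil]; exact hn 0 le_rfl,
      fun t v h => ⟨0, le_rfl, by rwa [seq_nil] at h⟩,
      fun v t₁ t t₂ _ _ h _ => by rw [seq_nil] at h ⊢; exact h,
      fun u v _ => by simp, by simp⟩
  | m + 1, hn, hlife => by
    obtain ⟨R, T, r, hT, hTm, nd, sub, cvx, cs, cj⟩ := chain hb l m (fun j hj => hn j (by omega))
      (fun v i j k h1 h2 h3 => hlife v i j k h1 h2 (by omega))
    obtain ⟨B, rB, ndB, subB, cvxB, csB, cjB⟩ := block hb (l m) (l (m + 1)) (hn m (by omega))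
      (hn (m + 1) le_rfl)
    have e1 : ∀ t, t ≤ R.length → seq (l 0) (R ++ B) t = seq (l 0) R t := fun t ht =>
      seq_append_left B R (l 0) t ht
    have e2 : ∀ t, seq (l 0) (R ++ B) (R.length + t) = seq (l m) B t := fun t =>
      seq_append_right B R (l 0) t r
    have rr : Run (l 0) (R ++ B) (l (m + 1)) := run_append R (l 0) r rB
    have key : ∀ t₁ t₂ v, t₁ ≤ R.length → v ∈ seq (l 0) R t₁ → v ∈ seq (l m) B t₂ →
        v ∈ l m := fun t₁ t₂ v _ h1 h2 => by
      obtain ⟨i, hi, hvi⟩ := sub t₁ v h1
      rcases subB t₂ v h2 with h | h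
      · exact h
      · exact hlife v i m (m + 1) hi (by omega) le_rfl hvi h
    refine ⟨R ++ B, fun j => if j ≤ m then T j else (R ++ B).length, rr, ?_, ?_, ?_, ?_, ?_, ?_, ?_⟩
    · intro i j hij
      simp only
      by_cases hj : j ≤ m
      · rw [if_pos hj, if_pos (hij.trans hj)]; exact hT hij
      · rw [if_neg hj]
        by_cases hi : i ≤ m
        · rw [if_pos hi]
          have := (hTm i hi).1
          rw [List.length_append]; omega
        · rw [if_neg hi]
    · intro j hj
      simp only
      by_cases hjm : j ≤ m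
      · rw [if_pos hjm]
        have := (hTm j hjm).1
        exact ⟨by rw [List.length_append]; omega, by rw [e1 _ this]; exact (hTm j hjm).2⟩
      · obtain rfl : j = m + 1 := by omega
        rw [if_neg hjm]
        exact ⟨le_rfl, seq_of_le _ _ _ rr le_rfl⟩
    · intro t
      rcases le_total t R.length with h | h
      · rw [e1 t h]; exact nd t
      · obtain ⟨i, rfl⟩ := Nat.exists_eq_add_of_le h
        rw [e2 i]; exact ndB i
    · intro t v hv
      rcases le_total t R.length with h | h
      · rw [e1 t h] at hv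
        obtain ⟨i, hi, h'⟩ := sub t v hv
        exact ⟨i, by omega, h'⟩
      · obtain ⟨i, rfl⟩ := Nat.exists_eq_add_of_le h
        rw [e2 i] at hv
        rcases subB i v hv with h' | h'
        · exact ⟨m, by omega, h'⟩
        · exact ⟨m + 1, le_rfl, h'⟩
    · intro v t₁ t t₂ h1 h2 m1 m2
      rcases le_total t₂ R.length with c2 | c2
      · rw [e1 t₂ c2] at m2
        rw [e1 t₁ (by omega)] at m1
        rw [e1 t (by omega)]
        exact cvx v t₁ t t₂ h1 h2 m1 m2
      · obtain ⟨k, rfl⟩ := Nat.exists_eq_add_of_le c2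
        rw [e2 k] at m2
        rcases le_total t₁ R.length with c1 | c1
        · rw [e1 t₁ c1] at m1
          have hm : v ∈ l m := key t₁ k v c1 m1 m2
          rcases le_total t R.length with c | c
          · rw [e1 t c]
            refine cvx v t₁ t R.length h1 c m1 ?_
            rw [seq_of_le R (l 0) R.length r le_rfl]
            exact hm
          · obtain ⟨i, rfl⟩ := Nat.exists_eq_add_of_le c
            rw [e2 i]
            refine cvxB v 0 i k (Nat.zero_le _) (by omega) ?_ m2
            rw [seq_zero]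
            exact hm
        · obtain ⟨i₁, rfl⟩ := Nat.exists_eq_add_of_le c1
          obtain ⟨i, rfl⟩ := Nat.exists_eq_add_of_le (c1.trans h1)
          rw [e2] at m1 ⊢
          exact cvxB v i₁ i k (by omega) (by omega) m1 m2
    · intro u v huv
      rw [List.countP_append, Finset.range_add_one, Finset.filter_insert]
      have h1 := cs u v huv
      have h2 := csB u v huv
      split_ifs with h
      · rw [if_pos h] at h2
        rw [Finset.card_insert_of_notMem (by simp)]
        omega
      · rw [if_neg h] at h2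
        omega
    · rw [List.countP_append, Finset.sum_range_succ]
      omega

omit [DecidableEq V] in
theorem countP_eq (p : Stp V × List V → Bool) (d : Stp V × List V)
    (R : List (Stp V × List V)) :
    ((Finset.range R.length).filter fun t => p (R.getD t d) = true).card = R.countP p := by
  induction R using List.reverseRecOn with
  | nil => simp
  | append_singleton R q ih =>
    have h0 : ((Finset.range R.length).filter fun t => p ((R ++ [q]).getD t d) = true) =
        ((Finset.range R.length).filter fun t => p (R.getD t d) = true) := by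
      apply Finset.filter_congr
      intro t ht
      rw [List.getD_append _ _ _ _ (Finset.mem_range.1 ht)]
    have h1 : (R ++ [q]).getD R.length d = q := by
      rw [List.getD_append_right _ _ _ _ le_rfl]
      simp
    rw [List.length_append, List.length_singleton, Finset.range_add_one, Finset.filter_insert, h0,
      h1, List.countP_append, ← ih]
    by_cases hq : p q = true
    · rw [if_pos hq, Finset.card_insert_of_notMem (by simp), List.countP_singleton, if_pos hq]
    · rw [if_neg hq, List.countP_singleton, if_neg hq, add_zero]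

theorem jumps_le [Fintype V] (m : ℕ) (l : ℕ → List V) (hl : ∀ j ≤ m, (l j).Nodup)
    (life : ∀ v, ∀ i j k, i ≤ j → j ≤ k → k ≤ m → v ∈ l i → v ∈ l k → v ∈ l j) :
    ∑ j ∈ Finset.range m,
        (((l j).filter fun v => !decide (v ∈ l (j + 1))).length +
          ((l (j + 1)).filter fun v => !decide (v ∈ l j)).length) ≤ 2 * Fintype.card V := by
  have h1 : ∀ j ∈ Finset.range m, ((l j).filter fun v => !decide (v ∈ l (j + 1))).length =
      ((Finset.univ : Finset V).filter fun v => v ∈ l j ∧ v ∉ l (j + 1)).card := by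
    intro j hj
    rw [← List.toFinset_card_of_nodup ((hl j (by have := Finset.mem_range.1 hj; omega)).filter _)]
    congr 1
    ext v
    simp
  have h2 : ∀ j ∈ Finset.range m, ((l (j + 1)).filter fun v => !decide (v ∈ l j)).length =
      ((Finset.univ : Finset V).filter fun v => v ∈ l (j + 1) ∧ v ∉ l j).card := by
    intro j hj
    rw [← List.toFinset_card_of_nodup ((hl (j + 1) (by
      have := Finset.mem_range.1 hj; omega)).filter _)]
    congr 1
    ext v
    simp
  rw [Finset.sum_add_distrib, Finset.sum_congr rfl h1, Finset.sum_congr rfl h2]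
  have k1 := Finset.sum_card_bipartiteAbove_eq_sum_card_bipartiteBelow
    (s := Finset.range m) (t := (Finset.univ : Finset V)) (fun j v => v ∈ l j ∧ v ∉ l (j + 1))
  have k2 := Finset.sum_card_bipartiteAbove_eq_sum_card_bipartiteBelow
    (s := Finset.range m) (t := (Finset.univ : Finset V)) (fun j v => v ∈ l (j + 1) ∧ v ∉ l j)
  simp only [Finset.bipartiteAbove, Finset.bipartiteBelow] at k1 k2
  rw [k1, k2]
  have b1 : ∀ v ∈ (Finset.univ : Finset V),
      ((Finset.range m).filter fun j => v ∈ l j ∧ v ∉ l (j + 1)).card ≤ 1 := by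
    intro v _
    rw [Finset.card_le_one]
    intro i hi j hj
    rw [Finset.mem_filter, Finset.mem_range] at hi hj
    by_contra hne
    rcases lt_or_gt_of_ne hne with h | h
    · exact hi.2.2 (life v i (i + 1) j (by omega) (by omega) (by omega) hi.2.1 hj.2.1)
    · exact hj.2.2 (life v j (j + 1) i (by omega) (by omega) (by omega) hj.2.1 hi.2.1)
  have b2 : ∀ v ∈ (Finset.univ : Finset V),
      ((Finset.range m).filter fun j => v ∈ l (j + 1) ∧ v ∉ l j).card ≤ 1 := by
    intro v _
    rw [Finset.card_le_one]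
    intro i hi j hj
    rw [Finset.mem_filter, Finset.mem_range] at hi hj
    by_contra hne
    rcases lt_or_gt_of_ne hne with h | h
    · exact hj.2.2 (life v (i + 1) j (j + 1) (by omega) (by omega) (by omega) hi.2.1 hj.2.1)
    · exact hi.2.2 (life v (j + 1) i (i + 1) (by omega) (by omega) (by omega) hj.2.1 hi.2.1)
  have c1 := Finset.sum_le_card_nsmul _ _ 1 b1
  have c2 := Finset.sum_le_card_nsmul _ _ 1 b2
  simp only [smul_eq_mul, mul_one, Finset.card_univ] at c1 c2
  omega

/-- the gap of a step, `0` for a jump -/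
def gapOf : Stp V → ℕ
  | .swp g _ _ => g
  | .jmp => 0

def xOf (v₀ : V) : Stp V → V
  | .swp _ x _ => x
  | .jmp => v₀

def yOf (v₀ : V) : Stp V → V
  | .swp _ _ y => y
  | .jmp => v₀

theorem glue_of (hb : BubbleStmt V) [Fintype V] [Nonempty V] (s m : ℕ) (l : ℕ → List V)
    (hl : ∀ j ≤ m, (l j).Nodup)
    (life : ∀ v, ∀ i j k, i ≤ j → j ≤ k → k ≤ m → v ∈ l i → v ∈ l k → v ∈ l j)
    (budget : ∀ u v, u ≠ v → ((Finset.range m).filter fun j =>
      u ∈ l j ∧ v ∈ l j ∧ u ∈ l (j + 1) ∧ v ∈ l (j + 1) ∧ Inv (l j) (l (j + 1)) u v).card ≤ s) :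
    ∃ (S : Sweep V s) (T : ℕ → ℕ), Monotone T ∧ ∀ j ≤ m, T j ≤ S.M ∧ S.L (T j) = l j := by
  obtain ⟨v₀⟩ := ‹Nonempty V›
  obtain ⟨R, T, r, hT, hTm, nd, sub, cvx, cs, cj⟩ := chain hb l m hl life
  set d : Stp V × List V := (Stp.jmp, []) with hd
  have ok := fun t ht => ok_of_lt d R (l 0) t r ht
  refine ⟨{ M := R.length
            L := seq (l 0) R
            gap := fun t => gapOf (R.getD t d).1
            x := fun t => xOf v₀ (R.getD t d).1
            y := fun t => yOf v₀ (R.getD t d).1
            nodup := fun t _ => nd t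
            swap := ?_
            jump := ?_
            life := fun v t₁ t t₂ h1 h2 _ m1 m2 => cvx v t₁ t t₂ h1 h2 m1 m2
            budget := ?_
            jumps := ?_ }, T, hT, hTm⟩
  · intro t ht hg
    have h := ok t ht
    revert h hg
    cases (R.getD t d).1 with
    | swp g x y =>
      intro hg h
      exact h
    | jmp =>
      intro hg h
      exact absurd rfl hg
  · intro t ht hg
    have h := ok t ht
    revert h hg
    cases (R.getD t d).1 with
    | swp g x y =>
      intro hg h
      obtain ⟨a, b, h1, _⟩ := h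
      change g = 0 at hg
      omega
    | jmp =>
      intro hg h
      exact h
  · intro u v huv
    refine le_trans ?_ ((cs u v huv).trans (budget u v huv))
    rw [← countP_eq _ d]
    apply Finset.card_le_card
    intro t ht
    rw [Finset.mem_filter] at ht ⊢
    refine ⟨ht.1, ?_⟩
    obtain ⟨hg, hs⟩ := ht.2
    revert hg hs
    cases (R.getD t d).1 with
    | swp g x y =>
      intro hg hs
      rw [Sym2.eq_iff] at hs
      simpa [Stp.sw, xOf, yOf] using hs
    | jmp =>
      intro hg hs
      exact absurd rfl hg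
  · refine le_trans ?_ (cj.trans (jumps_le m l hl life))
    rw [← countP_eq _ d]
    apply Finset.card_le_card
    intro t ht
    rw [Finset.mem_filter] at ht ⊢
    refine ⟨ht.1, ?_⟩
    have hlt := Finset.mem_range.1 ht.1
    have h := ok t hlt
    have hg := ht.2
    revert h hg
    cases (R.getD t d).1 with
    | swp g x y =>
      intro h hg
      obtain ⟨a, b, h1, _⟩ := h
      change g = 0 at hg
      omega
    | jmp =>
      intro h hg
      rfl

end Glu

/-- B2: from the lists at the sample points to a sweep -/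
theorem glue {V : Type} [DecidableEq V] [Fintype V] [Nonempty V] (s m : ℕ) (l : ℕ → List V)
    (hl : ∀ j ≤ m, (l j).Nodup)
    (life : ∀ v, ∀ i j k, i ≤ j → j ≤ k → k ≤ m → v ∈ l i → v ∈ l k → v ∈ l j)
    (budget : ∀ u v, u ≠ v → ((Finset.range m).filter fun j =>
      u ∈ l j ∧ v ∈ l j ∧ u ∈ l (j + 1) ∧ v ∈ l (j + 1) ∧ Inv (l j) (l (j + 1)) u v).card ≤ s) :
    ∃ (S : Sweep V s) (T : ℕ → ℕ), Monotone T ∧ ∀ j ≤ m, T j ≤ S.M ∧ S.L (T j) = l j :=
  Glu.glue_of bubble s m l hl life budget

end LUB
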