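import Pool.Agent.LUB.Defs

/-!
# The vertices on the level

At an abscissa of an end there are at most three points of the level; at every other event there is
at most one, and if it is a vertex then two neighbouring arcs next to the level meet there.
-/

namespace LUB

open LevelLower

namespace PsiAux

variable {n : ℕ} {Γ : Fin n → XArc}

/-- the points on arcs with exactly `k` arcs strictly below -/
def lev0 (Γ : Fin n → XArc) (k : ℕ) : Set (ℝ × ℝ) :=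
  {p | (∃ i, p ∈ (Γ i).graph) ∧ (below Γ p).ncard = k}

lemma closed_graph (a : XArc) : IsClosed a.graph := by
  have h : a.graph = (fun x => (x, a.f x)) '' Set.Icc a.lo a.hi := by
    ext ⟨x, y⟩
    constructor
    · rintro ⟨h1, h2⟩
      exact ⟨x, h1, Prod.ext rfl h2.symm⟩
    · rintro ⟨z, hz, h2⟩
      have h3 : z = x := congrArg Prod.fst h2
      have h4 : a.f z = y := congrArg Prod.snd h2
      subst h3
      exact ⟨hz, h4.symm⟩
  rw [h]
  exact (isCompact_Icc.image_of_continuousOn (continuousOn_id.prodMk a.cont)).isClosed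

lemma getElem_countP {α : Type*} (g : α → ℝ) (y : ℝ) : ∀ (l : List α),
    l.Pairwise (fun i j => g i ≤ g j) → (∃ i ∈ l, g i = y) →
    ∃ w, l[l.countP (fun i => decide (g i < y))]? = some w ∧ g w = y
  | [], _, h => by obtain ⟨i, hi, _⟩ := h; simp at hi
  | a :: t, hp, h => by
      rw [List.pairwise_cons] at hp
      by_cases ha : g a < y
      · have h1 : ∃ i ∈ t, g i = y := by
          obtain ⟨i, hi, hy⟩ := h
          rcases List.mem_cons.1 hi with rfl | hi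
          · exact absurd ha (by rw [hy]; exact lt_irrefl y)
          · exact ⟨i, hi, hy⟩
        obtain ⟨w, hw, hw2⟩ := getElem_countP g y t hp.2 h1
        refine ⟨w, ?_, hw2⟩
        rw [List.countP_cons_of_pos (by simpa using ha)]
        simpa using hw
      · have hc : t.countP (fun i => decide (g i < y)) = 0 := by
          rw [List.countP_eq_zero]
          intro i hi
          simp only [decide_eq_true_eq, not_lt]
          exact (not_lt.1 ha).trans (hp.1 i hi)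
        rw [List.countP_cons_of_neg (by simpa using ha), hc]
        refine ⟨a, by simp, ?_⟩
        obtain ⟨i, hi, hy⟩ := h
        rcases List.mem_cons.1 hi with rfl | hi
        · exact hy
        · exact le_antisymm ((hp.1 i hi).trans hy.le) (not_lt.1 ha)

lemma ncard_below {x : ℝ} {l : List (Fin n)} (hl : ∀ i, i ∈ l ↔ Alv Γ x i)
    (hn : l.Nodup) (y : ℝ) :
    (below Γ (x, y)).ncard = l.countP (fun i => decide ((Γ i).f x < y)) := by
  classical
  have h : below Γ (x, y) =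
      ((l.filter (fun i => decide ((Γ i).f x < y))).toFinset : Set (Fin n)) := by
    ext i
    simp only [below, Set.mem_ofPred_eq, List.coe_toFinset, List.mem_filter, decide_eq_true_eq, hl,
      Alv]
  rw [h, Set.ncard_coe_finset, List.toFinset_card_of_nodup (hn.filter _),
    List.countP_eq_length_filter]

lemma lev0_get {k : ℕ} {p : ℝ × ℝ} (hp : p ∈ lev0 Γ k) {l : List (Fin n)}
    (hl : ∀ i, i ∈ l ↔ Alv Γ p.1 i) (hn : l.Nodup)
    (hs : l.Pairwise fun i j => (Γ i).f p.1 ≤ (Γ j).f p.1) :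
    ∃ w, l[k]? = some w ∧ p ∈ (Γ w).graph := by
  obtain ⟨⟨i, hi⟩, hk⟩ := hp
  have hc := ncard_below hl hn p.2
  obtain ⟨w, hw, hw2⟩ := getElem_countP (fun i => (Γ i).f p.1) p.2 l hs
    ⟨i, (hl i).2 hi.1, hi.2.symm⟩
  rw [← hc] at hw
  have hk' : (below Γ (p.1, p.2)).ncard = k := hk
  rw [hk'] at hw
  exact ⟨w, hw, (hl w).1 (List.mem_of_getElem? hw), hw2.symm⟩

lemma lst_nodup {x : ℝ} {l : List (Fin n)} (h : IsLst Γ x l) : l.Nodup :=
  h.2.imp fun {i j} hij => by rintro rfl; exact lt_irrefl _ hij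

lemma alv_iff {a b : ℝ} (hab : a ≤ b) (hno : ∀ x ∈ Set.Icc a b, ¬ IsEv Γ x) (i : Fin n) :
    Alv Γ a i ↔ Alv Γ b i := by
  constructor
  · rintro ⟨h1, h2⟩
    refine ⟨h1.trans hab, ?_⟩
    by_contra h
    exact hno (Γ i).hi ⟨h2, (not_le.1 h).le⟩ (Or.inl ⟨i, Or.inr rfl⟩)
  · rintro ⟨h1, h2⟩
    refine ⟨?_, hab.trans h2⟩
    by_contra h
    exact hno (Γ i).lo ⟨(not_le.1 h).le, h1⟩ (Or.inl ⟨i, Or.inl rfl⟩)

/-- intermediate values for the difference of two arcs -/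
lemma cross {a b : ℝ} (hab : a ≤ b) {i j : Fin n} (hi : Alv Γ a i) (hj : Alv Γ a j)
    (hi' : Alv Γ b i) (hj' : Alv Γ b j) (h1 : (Γ i).f a ≤ (Γ j).f a)
    (h2 : (Γ j).f b ≤ (Γ i).f b) : ∃ x ∈ Set.Icc a b, Alv Γ x i ∧ Alv Γ x j ∧
      (Γ i).f x = (Γ j).f x := by
  have hcont : ContinuousOn (fun x => (Γ j).f x - (Γ i).f x) (Set.Icc a b) :=
    ((Γ j).cont.mono (Set.Icc_subset_Icc hj.1 hj'.2)).sub
      ((Γ i).cont.mono (Set.Icc_subset_Icc hi.1 hi'.2))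
  obtain ⟨x, hx, hx0⟩ := intermediate_value_Icc' hab hcont
    (show (0:ℝ) ∈ Set.Icc ((Γ j).f b - (Γ i).f b) ((Γ j).f a - (Γ i).f a) from
      ⟨by linarith, by linarith⟩)
  exact ⟨x, hx, ⟨hi.1.trans hx.1, hx.2.trans hi'.2⟩, ⟨hj.1.trans hx.1, hx.2.trans hj'.2⟩, by
    have h0 : (Γ j).f x - (Γ i).f x = 0 := hx0
    linarith⟩

lemma lst_right {a b : ℝ} (hab : a ≤ b) (hno : ∀ x ∈ Set.Icc a b, ¬ IsEv Γ x)
    {l : List (Fin n)} (h : IsLst Γ a l) : IsLst Γ b l := by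
  refine ⟨fun i => (h.1 i).trans (alv_iff hab hno i), ?_⟩
  refine h.2.imp_of_mem ?_
  intro i j hi hj hij
  by_contra hc
  have hi0 := (h.1 i).1 hi
  have hj0 := (h.1 j).1 hj
  obtain ⟨x, hx, h1, h2, h3⟩ := cross hab hi0 hj0 ((alv_iff hab hno i).1 hi0)
    ((alv_iff hab hno j).1 hj0) hij.le (not_lt.1 hc)
  exact hno x hx (Or.inr ⟨i, j, by rintro rfl; exact lt_irrefl _ hij, h1, h2, h3⟩)

lemma lst_left {a b : ℝ} (hab : a ≤ b) (hno : ∀ x ∈ Set.Icc a b, ¬ IsEv Γ x)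
    {l : List (Fin n)} (h : IsLst Γ b l) : IsLst Γ a l := by
  refine ⟨fun i => (h.1 i).trans (alv_iff hab hno i).symm, ?_⟩
  refine h.2.imp_of_mem ?_
  intro i j hi hj hij
  by_contra hc
  have hi0 := (h.1 i).1 hi
  have hj0 := (h.1 j).1 hj
  obtain ⟨x, hx, h1, h2, h3⟩ := cross hab ((alv_iff hab hno j).2 hj0)
    ((alv_iff hab hno i).2 hi0) hj0 hi0 (not_lt.1 hc) hij.le
  exact hno x hx (Or.inr ⟨j, i, by rintro rfl; exact lt_irrefl _ hij, h1, h2, h3⟩)

lemma closed_get (l : List (Fin n)) (k : ℕ) :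
    IsClosed {q : ℝ × ℝ | ∃ w, l[k]? = some w ∧ q ∈ (Γ w).graph} := by
  rcases h : l[k]? with _ | w
  · simp
  · have : {q : ℝ × ℝ | ∃ w', some w = some w' ∧ q ∈ (Γ w').graph} = (Γ w).graph := by
      ext q; simp
    rw [this]; exact closed_graph _

lemma left_pt {a x0 : ℝ} (hax : a < x0) (hL : ∀ x ∈ Set.Ico a x0, ¬ IsEv Γ x)
    {l : List (Fin n)} (hl : IsLst Γ a l) {k : ℕ} {p : ℝ × ℝ}
    (hp : p ∈ closure (lev0 Γ k ∩ {q | q.1 < x0})) (hp1 : p.1 = x0) :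
    ∃ w, l[k]? = some w ∧ p ∈ (Γ w).graph := by
  have hsub : lev0 Γ k ∩ {q | q.1 < x0} ∩ {q | a < q.1} ⊆
      {q | ∃ w, l[k]? = some w ∧ q ∈ (Γ w).graph} := by
    rintro q ⟨⟨hq, hq1⟩, hq2⟩
    have hlst : IsLst Γ q.1 l :=
      lst_right (le_of_lt hq2) (fun x hx => hL x ⟨hx.1, hx.2.trans_lt hq1⟩) hl
    exact lev0_get hq hlst.1 (lst_nodup hlst) (hlst.2.imp le_of_lt)
  have hopen : IsOpen {q : ℝ × ℝ | a < q.1} := isOpen_lt continuous_const continuous_fst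
  have hp' := hopen.closure_inter (s := lev0 Γ k ∩ {q | q.1 < x0})
    ⟨hp, by simp only [Set.mem_ofPred_eq]; rw [hp1]; exact hax⟩
  exact closure_minimal hsub (closed_get l k) hp'

lemma right_pt {b x0 : ℝ} (hxb : x0 < b) (hR : ∀ x ∈ Set.Ioc x0 b, ¬ IsEv Γ x)
    {l : List (Fin n)} (hl : IsLst Γ b l) {k : ℕ} {p : ℝ × ℝ}
    (hp : p ∈ closure (lev0 Γ k ∩ {q | x0 < q.1})) (hp1 : p.1 = x0) :
    ∃ w, l[k]? = some w ∧ p ∈ (Γ w).graph := by
  have hsub : lev0 Γ k ∩ {q | x0 < q.1} ∩ {q | q.1 < b} ⊆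
      {q | ∃ w, l[k]? = some w ∧ q ∈ (Γ w).graph} := by
    rintro q ⟨⟨hq, hq1⟩, hq2⟩
    have hlst : IsLst Γ q.1 l :=
      lst_left (le_of_lt hq2) (fun x hx => hR x ⟨lt_of_lt_of_le hq1 hx.1, hx.2⟩) hl
    exact lev0_get hq hlst.1 (lst_nodup hlst) (hlst.2.imp le_of_lt)
  have hopen : IsOpen {q : ℝ × ℝ | q.1 < b} := isOpen_lt continuous_fst continuous_const
  have hp' := hopen.closure_inter (s := lev0 Γ k ∩ {q | x0 < q.1})
    ⟨hp, by simp only [Set.mem_ofPred_eq]; rw [hp1]; exact hxb⟩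
  exact closure_minimal hsub (closed_get l k) hp'

lemma lev0_not_lt {k : ℕ} {q q' : ℝ × ℝ} (hq : q ∈ lev0 Γ k) (hq' : q' ∈ lev0 Γ k)
    (h1 : q.1 = q'.1) : ¬ q.2 < q'.2 := by
  intro hlt
  obtain ⟨⟨i, hi⟩, hk⟩ := hq
  obtain ⟨-, hk'⟩ := hq'
  have hss : below Γ q ⊂ below Γ q' := by
    refine (Set.ssubset_iff_of_subset ?_).2 ⟨i, ⟨?_, ?_⟩, ?_⟩
    · rintro j ⟨h2, h3⟩
      exact ⟨h1 ▸ h2, by rw [← h1]; exact h3.trans hlt⟩
    · exact h1 ▸ hi.1
    · rw [← h1, ← hi.2]; exact hlt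
    · rintro ⟨-, h3⟩
      rw [← hi.2] at h3
      exact lt_irrefl _ h3
  have := Set.ncard_lt_ncard hss (Set.toFinite _)
  omega

lemma lev0_subsingleton (Γ : Fin n → XArc) (k : ℕ) (x0 : ℝ) :
    (lev0 Γ k ∩ {q | q.1 = x0}).Subsingleton := by
  rintro q ⟨hq, hq1⟩ q' ⟨hq', hq1'⟩
  have h1 : q.1 = q'.1 := hq1.trans hq1'.symm
  exact Prod.ext h1 (le_antisymm (not_lt.1 (lev0_not_lt hq' hq h1.symm))
    (not_lt.1 (lev0_not_lt hq hq' h1)))

lemma level_pt {a b x0 : ℝ} (hax : a < x0) (hL : ∀ x ∈ Set.Ico a x0, ¬ IsEv Γ x)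
    (hxb : x0 < b) (hR : ∀ x ∈ Set.Ioc x0 b, ¬ IsEv Γ x)
    {l l' : List (Fin n)} (hl : IsLst Γ a l) (hl' : IsLst Γ b l') {k : ℕ} {p : ℝ × ℝ}
    (hp : p ∈ level Γ k) (hp1 : p.1 = x0) :
    (∃ w, l[k]? = some w ∧ p ∈ (Γ w).graph) ∨ (∃ w, l'[k]? = some w ∧ p ∈ (Γ w).graph) ∨
      p ∈ lev0 Γ k := by
  have hp2 : p ∈ closure (lev0 Γ k) := hp
  have hdec : lev0 Γ k = (lev0 Γ k ∩ {q | q.1 < x0}) ∪ ((lev0 Γ k ∩ {q | x0 < q.1}) ∪
      (lev0 Γ k ∩ {q | q.1 = x0})) := by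
    ext q
    simp only [Set.mem_union, Set.mem_inter_iff, Set.mem_ofPred_eq]
    constructor
    · intro h
      rcases lt_trichotomy q.1 x0 with h1 | h1 | h1
      · exact Or.inl ⟨h, h1⟩
      · exact Or.inr (Or.inr ⟨h, h1⟩)
      · exact Or.inr (Or.inl ⟨h, h1⟩)
    · rintro (h | h | h) <;> exact h.1
  rw [hdec, closure_union, closure_union] at hp2
  rcases hp2 with h | h | h
  · exact Or.inl (left_pt hax hL hl h hp1)
  · exact Or.inr (Or.inl (right_pt hxb hR hl' h hp1))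
  · rw [(lev0_subsingleton Γ k x0).isClosed.closure_eq] at h
    exact Or.inr (Or.inr h.1)

lemma graph_subsingleton (l : List (Fin n)) (k : ℕ) (x0 : ℝ) :
    {p : ℝ × ℝ | p.1 = x0 ∧ ∃ w, l[k]? = some w ∧ p ∈ (Γ w).graph}.Subsingleton := by
  rintro p ⟨hp, w, hw, hp2⟩ q ⟨hq, w', hw', hq2⟩
  rw [hw] at hw'
  obtain rfl := Option.some.inj hw'
  refine Prod.ext (hp.trans hq.symm) ?_
  rw [hp2.2, hq2.2, hp, hq]

/-- the vertices of the level at `x0` -/
def vat (Γ : Fin n → XArc) (k : ℕ) (x0 : ℝ) : Set (ℝ × ℝ) :=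
  {p | p ∈ vertices Γ ∧ p ∈ level Γ k ∧ p.1 = x0}

lemma ncard_le_one {α : Type*} {s : Set α} (h : s.Subsingleton) : s.ncard ≤ 1 := by
  rcases h.eq_empty_or_singleton with h | ⟨x, h⟩
  · rw [h]; simp
  · rw [h]; simp

lemma vat_le_three {a b x0 : ℝ} (hax : a < x0) (hL : ∀ x ∈ Set.Ico a x0, ¬ IsEv Γ x)
    (hxb : x0 < b) (hR : ∀ x ∈ Set.Ioc x0 b, ¬ IsEv Γ x)
    {l l' : List (Fin n)} (hl : IsLst Γ a l) (hl' : IsLst Γ b l') (k : ℕ) :
    (vat Γ k x0).ncard ≤ 3 := by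
  have h1 := graph_subsingleton (Γ := Γ) l k x0
  have h2 := graph_subsingleton (Γ := Γ) l' k x0
  have h3 := lev0_subsingleton Γ k x0
  have hsub : vat Γ k x0 ⊆ {p : ℝ × ℝ | p.1 = x0 ∧ ∃ w, l[k]? = some w ∧ p ∈ (Γ w).graph} ∪
      ({p : ℝ × ℝ | p.1 = x0 ∧ ∃ w, l'[k]? = some w ∧ p ∈ (Γ w).graph} ∪
        (lev0 Γ k ∩ {q | q.1 = x0})) := by
    rintro p ⟨-, hp, hp1⟩
    rcases level_pt hax hL hxb hR hl hl' hp hp1 with h | h | h
    · exact Or.inl ⟨hp1, h⟩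
    · exact Or.inr (Or.inl ⟨hp1, h⟩)
    · exact Or.inr (Or.inr ⟨h, hp1⟩)
  calc (vat Γ k x0).ncard ≤ _ := Set.ncard_le_ncard hsub
        (h1.finite.union (h2.finite.union h3.finite))
    _ ≤ _ := Set.ncard_union_le _ _
    _ ≤ 1 + (1 + 1) := add_le_add (ncard_le_one h1) ((Set.ncard_union_le _ _).trans
        (add_le_add (ncard_le_one h2) (ncard_le_one h3)))

/-- lists next to an event which is no end, at the event: left side -/
lemma wk_left {a x0 : ℝ} (hax : a < x0) (hL : ∀ x ∈ Set.Ico a x0, ¬ IsEv Γ x)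
    (hne : ∀ i, x0 ≠ (Γ i).lo ∧ x0 ≠ (Γ i).hi) {l : List (Fin n)} (hl : IsLst Γ a l) :
    (∀ i, i ∈ l ↔ Alv Γ x0 i) ∧ l.Pairwise fun i j => (Γ i).f x0 ≤ (Γ j).f x0 := by
  have h1 : ∀ i, i ∈ l ↔ Alv Γ x0 i := by
    intro i
    rw [hl.1]
    constructor
    · rintro ⟨h1, h2⟩
      refine ⟨h1.trans hax.le, ?_⟩
      by_contra h
      exact hL (Γ i).hi ⟨h2, not_le.1 h⟩ (Or.inl ⟨i, Or.inr rfl⟩)
    · rintro ⟨h1, h2⟩
      refine ⟨?_, hax.le.trans h2⟩
      by_contra h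
      exact hL (Γ i).lo ⟨(not_le.1 h).le, lt_of_le_of_ne h1 (fun h => (hne i).1 h.symm)⟩
        (Or.inl ⟨i, Or.inl rfl⟩)
  refine ⟨h1, hl.2.imp_of_mem ?_⟩
  intro i j hi hj hij
  by_contra hc
  obtain ⟨x, hx, h2, h3, h4⟩ := cross hax.le ((hl.1 i).1 hi) ((hl.1 j).1 hj) ((h1 i).1 hi)
    ((h1 j).1 hj) hij.le (not_le.1 hc).le
  refine hL x ⟨hx.1, lt_of_le_of_ne hx.2 ?_⟩ (Or.inr ⟨i, j, by
    rintro rfl; exact lt_irrefl _ hij, h2, h3, h4⟩)
  rintro rfl
  exact hc h4.le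

lemma wk_right {b x0 : ℝ} (hxb : x0 < b) (hR : ∀ x ∈ Set.Ioc x0 b, ¬ IsEv Γ x)
    (hne : ∀ i, x0 ≠ (Γ i).lo ∧ x0 ≠ (Γ i).hi) {l : List (Fin n)} (hl : IsLst Γ b l) :
    (∀ i, i ∈ l ↔ Alv Γ x0 i) ∧ l.Pairwise fun i j => (Γ i).f x0 ≤ (Γ j).f x0 := by
  have h1 : ∀ i, i ∈ l ↔ Alv Γ x0 i := by
    intro i
    rw [hl.1]
    constructor
    · rintro ⟨h1, h2⟩
      refine ⟨?_, hxb.le.trans h2⟩
      by_contra h
      exact hR (Γ i).lo ⟨not_le.1 h, h1⟩ (Or.inl ⟨i, Or.inl rfl⟩)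
    · rintro ⟨h1, h2⟩
      refine ⟨h1.trans hxb.le, ?_⟩
      by_contra h
      exact hR (Γ i).hi ⟨lt_of_le_of_ne h2 (hne i).2, (not_le.1 h).le⟩
        (Or.inl ⟨i, Or.inr rfl⟩)
  refine ⟨h1, hl.2.imp_of_mem ?_⟩
  intro i j hi hj hij
  by_contra hc
  obtain ⟨x, hx, h2, h3, h4⟩ := cross hxb.le ((h1 j).1 hj) ((h1 i).1 hi) ((hl.1 j).1 hj)
    ((hl.1 i).1 hi) (not_le.1 hc).le hij.le
  refine hR x ⟨lt_of_le_of_ne hx.1 ?_, hx.2⟩ (Or.inr ⟨j, i, by
    rintro rfl; exact lt_irrefl _ hij, h2, h3, h4⟩)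
  rintro rfl
  exact hc h4.ge

/-- at an event which is no end the points of the level are on the arc `l[k]` -/
lemma level_get {a b x0 : ℝ} (hax : a < x0) (hL : ∀ x ∈ Set.Ico a x0, ¬ IsEv Γ x)
    (hxb : x0 < b) (hR : ∀ x ∈ Set.Ioc x0 b, ¬ IsEv Γ x)
    (hne : ∀ i, x0 ≠ (Γ i).lo ∧ x0 ≠ (Γ i).hi)
    {l l' : List (Fin n)} (hl : IsLst Γ a l) (hl' : IsLst Γ b l') {k : ℕ} {p : ℝ × ℝ}
    (hp : p ∈ level Γ k) (hp1 : p.1 = x0) : ∃ w, l[k]? = some w ∧ p ∈ (Γ w).graph := by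
  obtain ⟨h1, h2⟩ := wk_left hax hL hne hl
  obtain ⟨h1', h2'⟩ := wk_right hxb hR hne hl'
  rcases level_pt hax hL hxb hR hl hl' hp hp1 with h | h | h
  · exact h
  · obtain ⟨w', hw', hpw⟩ := h
    have hperm : l.Perm l' := (List.perm_ext_iff_of_nodup (lst_nodup hl) (lst_nodup hl')).2
      fun i => (h1 i).trans (h1' i).symm
    have heq : l.map (fun i => (Γ i).f x0) = l'.map (fun i => (Γ i).f x0) := by
      refine List.Perm.eq_of_pairwise' (r := fun x y : ℝ => x ≤ y) ?_ ?_ (hperm.map _)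
      · rw [List.pairwise_map]; exact h2
      · rw [List.pairwise_map]; exact h2'
    have h3 : (l.map (fun i => (Γ i).f x0))[k]? = some ((Γ w').f x0) := by
      rw [heq, List.getElem?_map, hw']; rfl
    rw [List.getElem?_map] at h3
    rcases hk : l[k]? with _ | w
    · rw [hk] at h3; simp at h3
    · rw [hk] at h3
      have h4 : (Γ w).f x0 = (Γ w').f x0 := Option.some.inj h3
      refine ⟨w, rfl, ?_, ?_⟩
      · rw [hp1]; exact (h1 w).1 (List.mem_of_getElem? hk)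
      · rw [hpw.2, hp1, h4]
  · refine lev0_get h (by rw [hp1]; exact h1) (lst_nodup hl) (by rw [hp1]; exact h2)

lemma vat_sub {a b x0 : ℝ} (hax : a < x0) (hL : ∀ x ∈ Set.Ico a x0, ¬ IsEv Γ x)
    (hxb : x0 < b) (hR : ∀ x ∈ Set.Ioc x0 b, ¬ IsEv Γ x)
    (hne : ∀ i, x0 ≠ (Γ i).lo ∧ x0 ≠ (Γ i).hi)
    {l l' : List (Fin n)} (hl : IsLst Γ a l) (hl' : IsLst Γ b l') (k : ℕ) :
    (vat Γ k x0).Subsingleton := by
  refine (graph_subsingleton (Γ := Γ) l k x0).anti ?_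
  rintro p ⟨-, hp, hp1⟩
  exact ⟨hp1, level_get hax hL hxb hR hne hl hl' hp hp1⟩

lemma vat_meet {a b x0 : ℝ} (hax : a < x0) (hL : ∀ x ∈ Set.Ico a x0, ¬ IsEv Γ x)
    (hxb : x0 < b) (hR : ∀ x ∈ Set.Ioc x0 b, ¬ IsEv Γ x)
    (hne : ∀ i, x0 ≠ (Γ i).lo ∧ x0 ≠ (Γ i).hi)
    {l l' : List (Fin n)} (hl : IsLst Γ a l) (hl' : IsLst Γ b l') (k : ℕ)
    (hv : (vat Γ k x0).Nonempty) :
    (1 ≤ k ∧ ∃ u v, l[k - 1]? = some u ∧ l[k]? = some v ∧ Alv Γ x0 u ∧ Alv Γ x0 v ∧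
      (Γ u).f x0 = (Γ v).f x0) ∨
    ∃ u v, l[k]? = some u ∧ l[k + 1]? = some v ∧ Alv Γ x0 u ∧ Alv Γ x0 v ∧
      (Γ u).f x0 = (Γ v).f x0 := by
  obtain ⟨p, hpv, hp, hp1⟩ := hv
  obtain ⟨w, hw, hpw⟩ := level_get hax hL hxb hR hne hl hl' hp hp1
  obtain ⟨h1, h2⟩ := wk_left hax hL hne hl
  -- another arc through `p`
  have hz : ∃ z, z ≠ w ∧ p ∈ (Γ z).graph := by
    rcases hpv with ⟨i, hi⟩ | ⟨i, j, hij, hi, hj⟩
    · exfalso
      rcases hi with hi | hi
      · exact (hne i).1 (by rw [← hp1, hi])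
      · have hi' : p = ((Γ i).hi, (Γ i).f (Γ i).hi) := hi
        exact (hne i).2 (by rw [← hp1, hi'])
    · by_cases h : i = w
      · exact ⟨j, by rw [← h]; exact hij.symm, hj⟩
      · exact ⟨i, h, hi⟩
  obtain ⟨z, hzw, hpz⟩ := hz
  have hzl : z ∈ l := (h1 z).2 (by rw [← hp1]; exact hpz.1)
  obtain ⟨m, hm, hzm⟩ := List.mem_iff_getElem.1 hzl
  obtain ⟨hk, hwk⟩ := List.getElem?_eq_some_iff.1 hw
  have hmk : m ≠ k := by
    rintro rfl
    exact hzw (hzm.symm.trans hwk)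
  have hzv : (Γ z).f x0 = (Γ w).f x0 := by
    have e1 := hpz.2
    have e2 := hpw.2
    rw [hp1] at e1 e2
    rw [← e1, ← e2]
  rw [List.pairwise_iff_getElem] at h2
  rcases lt_or_gt_of_ne hmk with hlt | hgt
  · left
    refine ⟨by omega, l[k - 1], w, by rw [List.getElem?_eq_getElem (by omega)], hw,
      (h1 _).1 (List.getElem_mem _), (h1 _).1 (List.mem_of_getElem? hw), ?_⟩
    have h3 : (Γ l[k - 1]).f x0 ≤ (Γ w).f x0 := by
      have := h2 (k - 1) k (by omega) hk (by omega)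
      rwa [hwk] at this
    have h4 : (Γ z).f x0 ≤ (Γ l[k - 1]).f x0 := by
      rcases Nat.lt_or_ge m (k - 1) with h | h
      · have := h2 m (k - 1) hm (by omega) h
        rwa [hzm] at this
      · have : m = k - 1 := by omega
        subst this
        rw [hzm]
    exact le_antisymm h3 (hzv ▸ h4)
  · right
    have hk1 : k + 1 < l.length := by omega
    refine ⟨w, l[k + 1], hw, by rw [List.getElem?_eq_getElem hk1],
      (h1 _).1 (List.mem_of_getElem? hw), (h1 _).1 (List.getElem_mem _), ?_⟩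
    have h3 : (Γ w).f x0 ≤ (Γ l[k + 1]).f x0 := by
      have := h2 k (k + 1) hk hk1 (by omega)
      rwa [hwk] at this
    have h4 : (Γ l[k + 1]).f x0 ≤ (Γ z).f x0 := by
      rcases Nat.lt_or_ge (k + 1) m with h | h
      · have := h2 (k + 1) m hk1 hm h
        rwa [hzm] at this
      · have : m = k + 1 := by omega
        subst this
        rw [hzm]
    exact le_antisymm h3 (hzv ▸ h4)

end PsiAux

open PsiAux

variable {n : ℕ} {Γ : Fin n → XArc}

lemma Samp.p_le (P : Samp Γ) {i j : ℕ} (hij : i ≤ j) (hj : j ≤ P.m) : P.p i ≤ P.p j := by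
  induction j, hij using Nat.le_induction with
  | base => exact le_rfl
  | succ j hij ih =>
      exact (ih (by omega)).trans ((P.lt1 j (by omega)).trans (P.lt2 j (by omega))).le

lemma Samp.e_lt (P : Samp Γ) {i j : ℕ} (hij : i < j) (hj : j < P.m) : P.e i < P.e j :=
  ((P.lt2 i (by omega)).trans_le (P.p_le (Nat.succ_le_of_lt hij) hj.le)).trans (P.lt1 j hj)

lemma Samp.no_left (P : Samp Γ) {j : ℕ} (hj : j < P.m) : ∀ x ∈ Set.Ico (P.p j) (P.e j),
    ¬ IsEv Γ x := by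
  rintro x ⟨h1, h2⟩ hx
  obtain ⟨i, hi, rfl⟩ := (P.ev x).1 hx
  rcases lt_trichotomy i j with h | h | h
  · exact absurd (h1.trans_lt (P.lt2 i hi)) (not_lt.2 (P.p_le h hj.le))
  · subst h; exact lt_irrefl _ h2
  · exact lt_asymm h2 (P.e_lt h hi)

lemma Samp.no_right (P : Samp Γ) {j : ℕ} (hj : j < P.m) : ∀ x ∈ Set.Ioc (P.e j) (P.p (j + 1)),
    ¬ IsEv Γ x := by
  rintro x ⟨h1, h2⟩ hx
  obtain ⟨i, hi, rfl⟩ := (P.ev x).1 hx
  rcases lt_trichotomy i j with h | h | h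
  · exact lt_asymm h1 (P.e_lt h hj)
  · subst h; exact lt_irrefl _ h1
  · exact absurd ((P.lt1 i hi).trans_le h2) (not_lt.2 (P.p_le h hi.le))

open Classical in
/-- G3: the vertices on the level -/
theorem Samp.psi_le {s n : ℕ} {Γ : Fin n → XArc} (h : Intersecting s Γ) (P : Samp Γ) (k : ℕ) :
    psi Γ k ≤ 6 * n + ((Finset.range P.m).filter fun j => P.Meet k j).card +
      ((Finset.range P.m).filter fun j => P.Meet (k + 1) j).card := by
  have _h := h
  set E : ℕ → Prop := fun j => ∃ i, P.e j = (Γ i).lo ∨ P.e j = (Γ i).hi with hE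
  have hcov : vertices Γ ∩ level Γ k ⊆ ⋃ j ∈ Finset.range P.m, vat Γ k (P.e j) := by
    rintro p ⟨hpv, hpl⟩
    have hev : IsEv Γ p.1 := by
      rcases hpv with ⟨i, hi⟩ | ⟨i, j, hij, hi, hj⟩
      · left
        rcases hi with hi | hi
        · exact ⟨i, Or.inl (by rw [hi])⟩
        · have hi' : p = ((Γ i).hi, (Γ i).f (Γ i).hi) := hi
          exact ⟨i, Or.inr (by rw [hi'])⟩
      · exact Or.inr ⟨i, j, hij, hi.1, hj.1, by rw [← hi.2, ← hj.2]⟩
    obtain ⟨j, hj, hpj⟩ := (P.ev _).1 hev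
    simp only [Set.mem_iUnion]
    exact ⟨j, Finset.mem_range.2 hj, hpv, hpl, hpj⟩
  have hone : ∀ j ∈ Finset.range P.m, (vat Γ k (P.e j)).ncard ≤
      3 * (if E j then 1 else 0) + (if P.Meet k j then 1 else 0) +
        (if P.Meet (k + 1) j then 1 else 0) := by
    intro j hj
    have hj' := Finset.mem_range.1 hj
    have a1 := P.lt1 j hj'
    have a2 := P.no_left hj'
    have a3 := P.lt2 j hj'
    have a4 := P.no_right hj'
    have a5 := P.lst j hj'.le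
    have a6 := P.lst (j + 1) hj'
    by_cases hEj : E j
    · have := vat_le_three a1 a2 a3 a4 a5 a6 k
      rw [if_pos hEj]
      omega
    · have hne : ∀ i, P.e j ≠ (Γ i).lo ∧ P.e j ≠ (Γ i).hi := by
        intro i
        constructor
        · intro h; exact hEj ⟨i, Or.inl h⟩
        · intro h; exact hEj ⟨i, Or.inr h⟩
      rcases (vat Γ k (P.e j)).eq_empty_or_nonempty with h0 | h0
      · rw [h0]; simp
      · have h1 := ncard_le_one (vat_sub a1 a2 a3 a4 hne a5 a6 k)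
        have h2 : P.Meet k j ∨ P.Meet (k + 1) j := by
          rcases vat_meet a1 a2 a3 a4 hne a5 a6 k h0 with h | h
          · exact Or.inl h
          · exact Or.inr ⟨by omega, h⟩
        rcases h2 with h2 | h2
        · rw [if_pos h2]; omega
        · rw [if_pos h2]; omega
  have hEc : ((Finset.range P.m).filter E).card ≤ 2 * n := by
    have hinj : Set.InjOn P.e ((Finset.range P.m).filter E : Set ℕ) := by
      intro i hi j hj hij
      have hi' := Finset.mem_range.1 (Finset.mem_filter.1 hi).1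
      have hj' := Finset.mem_range.1 (Finset.mem_filter.1 hj).1
      rcases lt_trichotomy i j with h | h | h
      · exact absurd hij (P.e_lt h hj').ne
      · exact h
      · exact absurd hij.symm (P.e_lt h hi').ne
    calc ((Finset.range P.m).filter E).card
        = (((Finset.range P.m).filter E).image P.e).card := (Finset.card_image_of_injOn hinj).symm
      _ ≤ ((Finset.univ.image fun i => (Γ i).lo) ∪ (Finset.univ.image fun i => (Γ i).hi)).card := by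
          refine Finset.card_le_card ?_
          intro x hx
          obtain ⟨j, hj, rfl⟩ := Finset.mem_image.1 hx
          obtain ⟨i, hi | hi⟩ := (Finset.mem_filter.1 hj).2
          · exact Finset.mem_union_left _ (Finset.mem_image.2 ⟨i, Finset.mem_univ _, hi.symm⟩)
          · exact Finset.mem_union_right _ (Finset.mem_image.2 ⟨i, Finset.mem_univ _, hi.symm⟩)
      _ ≤ n + n := (Finset.card_union_le _ _).trans (add_le_add
          (Finset.card_image_le.trans (by simp)) (Finset.card_image_le.trans (by simp)))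
      _ = 2 * n := by ring
  have hfin : ∀ j ∈ Finset.range P.m, (vat Γ k (P.e j)).Finite := by
    intro j hj
    have hj' := Finset.mem_range.1 hj
    have h1 := graph_subsingleton (Γ := Γ) (P.l j) k (P.e j)
    have h2 := graph_subsingleton (Γ := Γ) (P.l (j + 1)) k (P.e j)
    have h3 := lev0_subsingleton Γ k (P.e j)
    refine (h1.finite.union (h2.finite.union h3.finite)).subset ?_
    rintro p ⟨-, hp, hp1⟩
    rcases level_pt (P.lt1 j hj') (P.no_left hj') (P.lt2 j hj') (P.no_right hj')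
      (P.lst j hj'.le) (P.lst (j + 1) hj') hp hp1 with h | h | h
    · exact Or.inl ⟨hp1, h⟩
    · exact Or.inr (Or.inl ⟨hp1, h⟩)
    · exact Or.inr (Or.inr ⟨h, hp1⟩)
  have hfin' : (⋃ j ∈ Finset.range P.m, vat Γ k (P.e j)).Finite :=
    Set.Finite.biUnion (Finset.finite_toSet _) hfin
  calc psi Γ k ≤ (⋃ j ∈ Finset.range P.m, vat Γ k (P.e j)).ncard :=
        Set.ncard_le_ncard hcov hfin'
    _ ≤ ∑ j ∈ Finset.range P.m, (vat Γ k (P.e j)).ncard := Finset.set_ncard_biUnion_le _ _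
    _ ≤ ∑ j ∈ Finset.range P.m, (3 * (if E j then 1 else 0) + (if P.Meet k j then 1 else 0) +
        (if P.Meet (k + 1) j then 1 else 0)) := Finset.sum_le_sum hone
    _ = 3 * ((Finset.range P.m).filter E).card +
        ((Finset.range P.m).filter fun j => P.Meet k j).card +
        ((Finset.range P.m).filter fun j => P.Meet (k + 1) j).card := by
        rw [Finset.sum_add_distrib, Finset.sum_add_distrib, ← Finset.mul_sum,
          Finset.card_filter, Finset.card_filter, Finset.card_filter]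
    _ ≤ _ := by omega

end LUB
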