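import Pool.Agent.LUB.Defs

/-!
# The sample points of a family of arcs
-/

namespace LUB

open LevelLower

namespace Smp

variable {n : ℕ}

theorem finite_ev {s : ℕ} {Γ : Fin n → XArc} (h : Intersecting s Γ) : {x | IsEv Γ x}.Finite := by
  classical
  have h1 : (⋃ i : Fin n, ({(Γ i).lo, (Γ i).hi} : Set ℝ)).Finite :=
    Set.finite_iUnion fun i => by simp
  have h2 : (⋃ i : Fin n, ⋃ j : Fin n, if i ≠ j then
      Prod.fst '' ((Γ i).graph ∩ (Γ j).graph) else (∅ : Set ℝ)).Finite := by
    refine Set.finite_iUnion fun i => Set.finite_iUnion fun j => ?_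
    split_ifs with hij
    · refine Set.Finite.image _ ?_
      refine Set.finite_of_encard_le_coe (k := s) ?_
      exact h i j hij
    · exact Set.finite_empty
  refine (h1.union h2).subset ?_
  rintro x (⟨i, hi⟩ | ⟨i, j, hij, hi, hj, hf⟩)
  · left
    rw [Set.mem_iUnion]
    exact ⟨i, by simpa using hi⟩
  · right
    rw [Set.mem_iUnion]
    refine ⟨i, ?_⟩
    rw [Set.mem_iUnion]
    refine ⟨j, ?_⟩
    rw [if_pos hij]
    exact ⟨(x, (Γ i).f x), ⟨⟨hi, rfl⟩, ⟨hj, hf⟩⟩, rfl⟩

/-- between the events the living arcs can be listed -/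
theorem exists_lst (Γ : Fin n → XArc) {x : ℝ} (hx : ¬ IsEv Γ x) : ∃ l, IsLst Γ x l := by
  classical
  let r : Fin n → Fin n → Prop := fun i j => (Γ i).f x ≤ (Γ j).f x
  have hrt : ∀ a b, r a b ∨ r b a := fun a b => le_total _ _
  have hrr : ∀ a b c, r a b → r b c → r a c := fun a b c => le_trans
  have : Std.Total r := ⟨hrt⟩
  have : IsTrans (Fin n) r := ⟨hrr⟩
  let S : Finset (Fin n) := Finset.univ.filter fun i => Alv Γ x i
  let l := S.toList.insertionSort r
  have hperm : l.Perm S.toList := List.perm_insertionSort r _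
  have hnd : l.Nodup := hperm.nodup_iff.2 S.nodup_toList
  have hmem : ∀ i, i ∈ l ↔ Alv Γ x i := by
    intro i
    rw [hperm.mem_iff]
    simp [S]
  refine ⟨l, hmem, ?_⟩
  have hs : l.Pairwise r := List.pairwise_insertionSort r _
  have hp := (hs.and hnd)
  refine hp.imp_of_mem ?_
  intro i j hi hj hij
  refine lt_of_le_of_ne hij.1 fun he => hx (Or.inr ⟨i, j, hij.2, ?_, ?_, he⟩)
  · exact (hmem i).1 hi
  · exact (hmem j).1 hj

end Smp

theorem exists_samp {s n : ℕ} {Γ : Fin n → XArc} (h : Intersecting s Γ) : Nonempty (Samp Γ) := by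
  classical
  have hfin := Smp.finite_ev h
  set F : Finset ℝ := hfin.toFinset with hF
  have hmemF : ∀ x, x ∈ F ↔ IsEv Γ x := fun x => by simp [hF]
  set m := F.card with hm
  obtain ⟨B, hB⟩ : ∃ B : ℝ, ∀ x ∈ F, x < B := by
    rcases F.eq_empty_or_nonempty with h0 | h0
    · exact ⟨0, by simp [h0]⟩
    · exact ⟨F.max' h0 + 1, fun x hx => lt_of_le_of_lt (F.le_max' x hx) (by linarith)⟩
  let e : ℕ → ℝ := fun j => if hj : j < m then F.orderEmbOfFin rfl ⟨j, hj⟩ else B + j
  have he1 : ∀ j (hj : j < m), e j = F.orderEmbOfFin rfl ⟨j, hj⟩ := fun j hj => dif_pos hj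
  have he2 : ∀ j, ¬ j < m → e j = B + j := fun j hj => dif_neg hj
  have hmono : StrictMono e := by
    refine strictMono_nat_of_lt_succ fun j => ?_
    by_cases h1 : j + 1 < m
    · rw [he1 j (by omega), he1 (j + 1) h1]
      exact (F.orderEmbOfFin rfl).strictMono (by simp [Fin.lt_def])
    · rw [he2 (j + 1) h1]
      by_cases h2 : j < m
      · rw [he1 j h2]
        have := hB _ (F.orderEmbOfFin_mem rfl ⟨j, h2⟩)
        have h3 : (0 : ℝ) ≤ ((j + 1 : ℕ) : ℝ) := Nat.cast_nonneg _
        linarith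
      · rw [he2 j h2]
        push_cast
        linarith
  have hev : ∀ x, IsEv Γ x ↔ ∃ j < m, x = e j := by
    intro x
    rw [← hmemF]
    constructor
    · intro hx
      have : x ∈ Set.range (F.orderEmbOfFin rfl) := by
        rw [Finset.range_orderEmbOfFin]
        exact hx
      obtain ⟨⟨j, hj⟩, hj'⟩ := this
      exact ⟨j, hj, by rw [he1 j hj, hj']⟩
    · rintro ⟨j, hj, rfl⟩
      rw [he1 j hj]
      exact F.orderEmbOfFin_mem rfl _
  let p : ℕ → ℝ := fun j => Nat.casesOn j (e 0 - 1) fun i => (e i + e (i + 1)) / 2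
  have hp0 : p 0 = e 0 - 1 := rfl
  have hp1 : ∀ i, p (i + 1) = (e i + e (i + 1)) / 2 := fun i => rfl
  have lt1 : ∀ j, p j < e j := by
    intro j
    cases j with
    | zero => rw [hp0]; linarith
    | succ i =>
        rw [hp1]
        have := hmono (Nat.lt_succ_self i)
        simp only [Nat.succ_eq_add_one] at this
        linarith
  have lt2 : ∀ j, e j < p (j + 1) := by
    intro j
    rw [hp1]
    have := hmono (Nat.lt_succ_self j)
    simp only [Nat.succ_eq_add_one] at this
    linarith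
  have hnot : ∀ j, ¬ IsEv Γ (p j) := by
    intro j hj
    obtain ⟨i, _, hi⟩ := (hev _).1 hj
    rcases Nat.lt_or_ge i j with hij | hij
    · obtain ⟨k, rfl⟩ : ∃ k, j = k + 1 := ⟨j - 1, by omega⟩
      have h1 := lt2 k
      have h2 : e i ≤ e k := hmono.monotone (by omega)
      linarith
    · have h1 := lt1 j
      have h2 : e j ≤ e i := hmono.monotone hij
      linarith
  choose l hl using fun j => Smp.exists_lst Γ (hnot j)
  exact ⟨⟨m, e, p, l, fun j _ => lt1 j, fun j _ => lt2 j, hev, fun j _ => hl j⟩⟩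

end LUB
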