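import Pool.Agent.LUB.Defs

/-!
# Upper bounds for a level: the lists at the sample points

The lists at the sample points satisfy the hypotheses of `glue`: an arc is alive on an interval of
indices, and the order of two arcs changes at most `s` times, by the intermediate value theorem.
-/

namespace LUB

open LevelLower

namespace Samp2

theorem p_le {n : ℕ} {Γ : Fin n → XArc} (P : Samp Γ) {i j : ℕ} (h1 : i ≤ j) (h2 : j ≤ P.m) :
    P.p i ≤ P.p j := by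
  induction j, h1 using Nat.le_induction with
  | base => exact le_rfl
  | succ j hj ih =>
    have h3 := P.lt1 j (by omega)
    have h4 := P.lt2 j (by omega)
    have h5 := ih (by omega)
    linarith

theorem lt_of_idxOf {n : ℕ} {Γ : Fin n → XArc} {x : ℝ} {l : List (Fin n)} (h : IsLst Γ x l)
    {u v : Fin n} (hu : u ∈ l) (hv : v ∈ l) (huv : l.idxOf u < l.idxOf v) :
    (Γ u).f x < (Γ v).f x := by
  have h2 := List.pairwise_iff_getElem.1 h.2 (l.idxOf u) (l.idxOf v)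
    (List.idxOf_lt_length_iff.2 hu) (List.idxOf_lt_length_iff.2 hv) huv
  simpa using h2

theorem idxOf_lt_iff {n : ℕ} {Γ : Fin n → XArc} {x : ℝ} {l : List (Fin n)} (h : IsLst Γ x l)
    {u v : Fin n} (hu : u ∈ l) (hv : v ∈ l) (huv : u ≠ v) :
    l.idxOf u < l.idxOf v ↔ (Γ u).f x < (Γ v).f x := by
  refine ⟨lt_of_idxOf h hu hv, fun h1 => ?_⟩
  by_contra h2
  have h3 : l.idxOf u ≠ l.idxOf v := fun e => huv ((List.idxOf_inj hu).1 e)
  have h4 : l.idxOf v < l.idxOf u := by omega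
  exact absurd (lt_of_idxOf h hv hu h4) (not_lt.2 h1.le)

theorem ne_height {n : ℕ} {Γ : Fin n → XArc} {x : ℝ} {l : List (Fin n)} (h : IsLst Γ x l)
    {u v : Fin n} (hu : u ∈ l) (hv : v ∈ l) (huv : u ≠ v) : (Γ u).f x ≠ (Γ v).f x := by
  have h3 : l.idxOf u ≠ l.idxOf v := fun e => huv ((List.idxOf_inj hu).1 e)
  rcases lt_or_gt_of_ne h3 with h4 | h4
  · exact (lt_of_idxOf h hu hv h4).ne
  · exact (lt_of_idxOf h hv hu h4).ne'

theorem exists_root {n : ℕ} {Γ : Fin n → XArc} (P : Samp Γ) (u v : Fin n) (huv : u ≠ v) (j : ℕ)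
    (hj : j < P.m) (h1 : u ∈ P.l j) (h2 : v ∈ P.l j) (h3 : u ∈ P.l (j + 1))
    (h4 : v ∈ P.l (j + 1)) (h5 : Inv (P.l j) (P.l (j + 1)) u v) :
    ∃ x, P.p j < x ∧ x < P.p (j + 1) ∧ (x, (Γ u).f x) ∈ (Γ u).graph ∩ (Γ v).graph := by
  have L0 := P.lst j hj.le
  have L1 := P.lst (j + 1) hj
  have a1 : P.p j ∈ Set.Icc (Γ u).lo (Γ u).hi := (L0.1 u).1 h1
  have a2 : P.p j ∈ Set.Icc (Γ v).lo (Γ v).hi := (L0.1 v).1 h2
  have a3 : P.p (j + 1) ∈ Set.Icc (Γ u).lo (Γ u).hi := (L1.1 u).1 h3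
  have a4 : P.p (j + 1) ∈ Set.Icc (Γ v).lo (Γ v).hi := (L1.1 v).1 h4
  have hle : P.p j ≤ P.p (j + 1) := p_le P (Nat.le_succ j) hj
  have s1 : Set.Icc (P.p j) (P.p (j + 1)) ⊆ Set.Icc (Γ u).lo (Γ u).hi :=
    Set.Icc_subset_Icc a1.1 a3.2
  have s2 : Set.Icc (P.p j) (P.p (j + 1)) ⊆ Set.Icc (Γ v).lo (Γ v).hi :=
    Set.Icc_subset_Icc a2.1 a4.2
  have hc : ContinuousOn (fun x => (Γ u).f x - (Γ v).f x) (Set.Icc (P.p j) (P.p (j + 1))) :=
    ((Γ u).cont.mono s1).sub ((Γ v).cont.mono s2)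
  have h5' : ¬ ((Γ u).f (P.p j) < (Γ v).f (P.p j) ↔
      (Γ u).f (P.p (j + 1)) < (Γ v).f (P.p (j + 1))) := by
    rw [← idxOf_lt_iff L0 h1 h2 huv, ← idxOf_lt_iff L1 h3 h4 huv]
    exact h5
  have n0 := ne_height L0 h1 h2 huv
  have n1 := ne_height L1 h3 h4 huv
  have key : ∃ x ∈ Set.Ioo (P.p j) (P.p (j + 1)), (Γ u).f x - (Γ v).f x = 0 := by
    rcases lt_or_gt_of_ne n0 with h6 | h6
    · have h7 : ¬ (Γ u).f (P.p (j + 1)) < (Γ v).f (P.p (j + 1)) := fun h => h5' (iff_of_true h6 h)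
      have h8 : (Γ v).f (P.p (j + 1)) < (Γ u).f (P.p (j + 1)) :=
        lt_of_le_of_ne (not_lt.1 h7) n1.symm
      have := intermediate_value_Ioo hle hc
      have h0 : (0 : ℝ) ∈ Set.Ioo ((Γ u).f (P.p j) - (Γ v).f (P.p j))
          ((Γ u).f (P.p (j + 1)) - (Γ v).f (P.p (j + 1))) := ⟨by linarith, by linarith⟩
      obtain ⟨x, hx, hx0⟩ := this h0
      exact ⟨x, hx, hx0⟩
    · have h7 : (Γ u).f (P.p (j + 1)) < (Γ v).f (P.p (j + 1)) := by
        by_contra h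
        exact h5' (iff_of_false (not_lt.2 h6.le) h)
      have := intermediate_value_Ioo' hle hc
      have h0 : (0 : ℝ) ∈ Set.Ioo ((Γ u).f (P.p (j + 1)) - (Γ v).f (P.p (j + 1)))
          ((Γ u).f (P.p j) - (Γ v).f (P.p j)) := ⟨by linarith, by linarith⟩
      obtain ⟨x, hx, hx0⟩ := this h0
      exact ⟨x, hx, hx0⟩
  obtain ⟨x, hx, hx0⟩ := key
  refine ⟨x, hx.1, hx.2, ?_, ?_⟩
  · exact ⟨s1 ⟨hx.1.le, hx.2.le⟩, rfl⟩
  · exact ⟨s2 ⟨hx.1.le, hx.2.le⟩, by dsimp only; linarith⟩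

end Samp2

/-- G2, file Samples2.lean: the hypotheses of `glue` -/
theorem Samp.life {n : ℕ} {Γ : Fin n → XArc} (P : Samp Γ) (v : Fin n) (i j k : ℕ) (h1 : i ≤ j)
    (h2 : j ≤ k) (h3 : k ≤ P.m) (h4 : v ∈ P.l i) (h5 : v ∈ P.l k) : v ∈ P.l j := by
  have a1 : P.p i ∈ Set.Icc (Γ v).lo (Γ v).hi := ((P.lst i (by omega)).1 v).1 h4
  have a2 : P.p k ∈ Set.Icc (Γ v).lo (Γ v).hi := ((P.lst k h3).1 v).1 h5
  refine ((P.lst j (by omega)).1 v).2 ?_
  exact ⟨a1.1.trans (Samp2.p_le P h1 (by omega)), (Samp2.p_le P h2 h3).trans a2.2⟩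

theorem Samp.budget {s n : ℕ} {Γ : Fin n → XArc} (h : Intersecting s Γ) (P : Samp Γ) (u v : Fin n)
    (huv : u ≠ v) : ((Finset.range P.m).filter fun j =>
      u ∈ P.l j ∧ v ∈ P.l j ∧ u ∈ P.l (j + 1) ∧ v ∈ P.l (j + 1) ∧
        Inv (P.l j) (P.l (j + 1)) u v).card ≤ s := by
  set S := (Finset.range P.m).filter fun j =>
      u ∈ P.l j ∧ v ∈ P.l j ∧ u ∈ P.l (j + 1) ∧ v ∈ P.l (j + 1) ∧
        Inv (P.l j) (P.l (j + 1)) u v with hS
  have hex : ∀ j : ℕ, ∃ x : ℝ, j ∈ S → P.p j < x ∧ x < P.p (j + 1) ∧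
      (x, (Γ u).f x) ∈ (Γ u).graph ∩ (Γ v).graph := by
    intro j
    by_cases hj : j ∈ S
    · rw [hS, Finset.mem_filter, Finset.mem_range] at hj
      obtain ⟨hj0, h1, h2, h3, h4, h5⟩ := hj
      obtain ⟨x, hx⟩ := Samp2.exists_root P u v huv j hj0 h1 h2 h3 h4 h5
      exact ⟨x, fun _ => hx⟩
    · exact ⟨0, fun h => absurd h hj⟩
  choose x hx using hex
  have hm : ∀ j ∈ S, j < P.m := fun j hj => by
    rw [hS, Finset.mem_filter, Finset.mem_range] at hj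
    exact hj.1
  have hinj : Set.InjOn (fun j => (x j, (Γ u).f (x j))) (S : Set ℕ) := by
    intro i hi j hj hij
    have e : x i = x j := congrArg Prod.fst hij
    by_contra hne
    rcases lt_or_gt_of_ne hne with hlt | hlt
    · have h1 := (hx i hi).2.1
      have h2 := (hx j hj).1
      have h3 := Samp2.p_le P (show i + 1 ≤ j from hlt) (hm j hj).le
      linarith
    · have h1 := (hx j hj).2.1
      have h2 := (hx i hi).1
      have h3 := Samp2.p_le P (show j + 1 ≤ i from hlt) (hm i hi).le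
      linarith
  have hsub : (fun j => (x j, (Γ u).f (x j))) '' (S : Set ℕ) ⊆ (Γ u).graph ∩ (Γ v).graph := by
    rintro _ ⟨j, hj, rfl⟩
    exact (hx j hj).2.2
  have h1 := (Set.encard_le_encard hsub).trans (h u v huv)
  rw [hinj.encard_image, Set.encard_coe_eq_coe_finsetCard] at h1
  exact_mod_cast h1

end LUB
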