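import Pool.Agent.LUB.Ana
import Pool.Agent.LUB.Glue
import Pool.Agent.LUB.Centre
import Pool.Agent.LUB.Samples
import Pool.Agent.LUB.Samples2
import Pool.Agent.LUB.Psi
import Pool.Agent.LUB.Core

/-!
# Upper bounds for a level: assembly
-/

namespace LUB

open LevelLower

/-- the events at which two given arcs meet -/
theorem Samp.card_meet_pair {s n : ℕ} {Γ : Fin n → XArc} (h : Intersecting s Γ) (P : Samp Γ)
    (a b : Fin n) (hab : a ≠ b) (J : Finset ℕ) (hJ : ∀ j ∈ J, j < P.m)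
    (hm : ∀ j ∈ J, Alv Γ (P.e j) a ∧ Alv Γ (P.e j) b ∧ (Γ a).f (P.e j) = (Γ b).f (P.e j)) :
    J.card ≤ s := by
  have h1 := h a b hab
  have hinj : Set.InjOn (fun j => ((P.e j, (Γ a).f (P.e j)) : ℝ × ℝ)) (J : Set ℕ) := by
    intro i hi j hj hij
    have he : P.e i = P.e j := congrArg Prod.fst hij
    rcases lt_trichotomy i j with hlt | heq | hgt
    · exact absurd he (P.e_lt hlt (hJ j hj)).ne
    · exact heq
    · exact absurd he (P.e_lt hgt (hJ i hi)).ne'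
  have hsub : (fun j => ((P.e j, (Γ a).f (P.e j)) : ℝ × ℝ)) '' (J : Set ℕ) ⊆
      (Γ a).graph ∩ (Γ b).graph := by
    rintro _ ⟨j, hj, rfl⟩
    obtain ⟨h2, h3, h4⟩ := hm j hj
    exact ⟨⟨h2, rfl⟩, ⟨h3, h4⟩⟩
  have h2 := Set.encard_le_encard hsub
  rw [hinj.encard_image, Set.encard_coe_eq_coe_finsetCard] at h2
  exact_mod_cast h2.trans h1

open Classical in
/-- the events next to the gap `κ` -/
theorem card_meet {s n : ℕ} {Γ : Fin n → XArc} (hn : 1 ≤ n) (h : Intersecting s Γ) (P : Samp Γ)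
    (κ : ℕ) (B : ℕ) (hB : ∀ S : Sweep (Fin n) s, S.N κ 2 ≤ B) :
    ((Finset.range P.m).filter fun j => P.Meet κ j).card ≤ s * (1 + 2 * n + B) := by
  rcases Nat.eq_zero_or_pos κ with h0 | hκ
  · have : ((Finset.range P.m).filter fun j => P.Meet κ j) = ∅ := by
      apply Finset.filter_false_of_mem
      intro j _ hj
      have := hj.1
      omega
    rw [this]; simp
  have hne : Nonempty (Fin n) := ⟨⟨0, by omega⟩⟩
  obtain ⟨S, T, hT, hS⟩ := glue (V := Fin n) s P.m P.l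
    (fun j hj => by
      have := (P.lst j hj).2
      exact this.imp (fun {a b} hab heq => by subst heq; exact lt_irrefl _ hab))
    (fun v i j k h1 h2 h3 h4 h5 => P.life v i j k h1 h2 h3 h4 h5)
    (fun u v huv => P.budget h u v huv)
  let u : ℕ → Fin n := fun j => if hj : P.Meet κ j then hj.2.choose else Classical.arbitrary _
  let v : ℕ → Fin n := fun j => if hj : P.Meet κ j then hj.2.choose_spec.choose
    else Classical.arbitrary _
  have huv : ∀ j, P.Meet κ j → (P.l j)[κ - 1]? = some (u j) ∧ (P.l j)[κ]? = some (v j) ∧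
      Alv Γ (P.e j) (u j) ∧ Alv Γ (P.e j) (v j) ∧ (Γ (u j)).f (P.e j) = (Γ (v j)).f (P.e j) := by
    intro j hj
    have := hj.2.choose_spec.choose_spec
    simp only [u, v, dif_pos hj]
    exact this
  have h1 := centre S T hT κ hκ ((Finset.range P.m).filter fun j => P.Meet κ j)
    (fun j hj => (hS j (by
      have := Finset.mem_range.1 (Finset.mem_filter.1 hj).1
      omega)).1) u v
    (fun j hj => by
      have h3 := Finset.mem_range.1 (Finset.mem_filter.1 hj).1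
      rw [(hS j (by omega)).2]
      exact (huv j (Finset.mem_filter.1 hj).2).1)
    (fun j hj => by
      have h3 := Finset.mem_range.1 (Finset.mem_filter.1 hj).1
      rw [(hS j (by omega)).2]
      exact (huv j (Finset.mem_filter.1 hj).2).2.1)
    (fun a b hab => by
      apply P.card_meet_pair h a b hab
      · intro j hj
        exact Finset.mem_range.1 (Finset.mem_filter.1 (Finset.mem_filter.1 hj).1).1
      · intro j hj
        obtain ⟨hj1, hj2⟩ := Finset.mem_filter.1 hj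
        obtain ⟨_, _, h3, h4, h5⟩ := huv j (Finset.mem_filter.1 hj1).2
        rcases Sym2.eq_iff.1 hj2 with ⟨h6, h7⟩ | ⟨h6, h7⟩
        · rw [h6] at h3 h5; rw [h7] at h4 h5
          exact ⟨h3, h4, h5⟩
        · rw [h6] at h3 h5; rw [h7] at h4 h5
          exact ⟨h4, h3, h5.symm⟩)
  have h2 := hB S
  rw [Fintype.card_fin] at h1
  exact h1.trans (Nat.mul_le_mul_left _ (by omega))

/-- the upper bound, for every odd `s ≥ 3`, for every single family and for the maximum -/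
theorem main_psi (s : ℕ) (hs : Odd s) (h3 : 3 ≤ s) : ∃ C : ℝ, ∀ n : ℕ, 1 ≤ n →
    (∀ Γ : Fin n → XArc, Intersecting s Γ → ∀ k,
      (psi Γ k : ℝ) ≤ C * (n : ℝ) ^ (2 - 1 / (2 * (s : ℝ) - 1))) ∧
    (Psi s n : ℝ) ≤ C * (n : ℝ) ^ (2 - 1 / (2 * (s : ℝ) - 1)) := by
  classical
  have h3' : (3 : ℝ) ≤ s := by exact_mod_cast h3
  obtain ⟨A, hA, hcore⟩ := core hs h3
  obtain ⟨C, hC, hana⟩ := ana (2 * (s : ℝ) - 1) A (by linarith) hA
  refine ⟨6 + 2 * (s * (3 + C)), fun n hn => ?_⟩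
  have hn' : (1 : ℝ) ≤ n := by exact_mod_cast hn
  have hexp : (1 : ℝ) ≤ 2 - 1 / (2 * (s : ℝ) - 1) := by
    have : 1 / (2 * (s : ℝ) - 1) ≤ 1 := by
      rw [div_le_one (by linarith)]; linarith
    linarith
  have hpow : (n : ℝ) ≤ (n : ℝ) ^ (2 - 1 / (2 * (s : ℝ) - 1)) := by
    calc (n : ℝ) = (n : ℝ) ^ (1 : ℝ) := (Real.rpow_one _).symm
      _ ≤ _ := Real.rpow_le_rpow_of_exponent_le hn' hexp
  set Y : ℝ := (n : ℝ) ^ (2 - 1 / (2 * (s : ℝ) - 1)) with hY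
  have hY0 : 0 ≤ Y := by linarith
  -- the bound for one sweep
  have hN : ∀ (κ : ℕ) (S : Sweep (Fin n) s), S.N κ 2 ≤ ⌊C * Y⌋₊ := by
    intro κ S
    obtain ⟨X, hX1, hX2, hX3⟩ := hcore (Fin n) S κ
    simp only [Fintype.card_fin] at hX2 hX3
    apply Nat.le_floor
    exact hana n hn (fun h => (S.N κ h : ℝ)) X hX1
      (fun h => ⟨Nat.cast_nonneg _, hX2 h⟩) hX3
  -- one family
  have hpsi : ∀ (Γ : Fin n → XArc), Intersecting s Γ → ∀ k, psi Γ k ≤
      6 * n + 2 * (s * (1 + 2 * n + ⌊C * Y⌋₊)) := by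
    intro Γ hΓ k
    obtain ⟨P⟩ := exists_samp hΓ
    have h1 := P.psi_le hΓ k
    have h2 := card_meet hn hΓ P k _ (hN k)
    have h4 := card_meet hn hΓ P (k + 1) _ (hN (k + 1))
    calc psi Γ k ≤ _ := h1
      _ ≤ 6 * n + s * (1 + 2 * n + ⌊C * Y⌋₊) + s * (1 + 2 * n + ⌊C * Y⌋₊) := by
          gcongr
      _ = _ := by ring
  have hPsi : Psi s n ≤ 6 * n + 2 * (s * (1 + 2 * n + ⌊C * Y⌋₊)) := by
    apply csSup_le'
    rintro m ⟨Γ, hΓ, k, _, rfl⟩
    exact hpsi Γ hΓ k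
  have hfl : ((⌊C * Y⌋₊ : ℕ) : ℝ) ≤ C * Y := Nat.floor_le (mul_nonneg hC hY0)
  have key : ∀ m : ℕ, m ≤ 6 * n + 2 * (s * (1 + 2 * n + ⌊C * Y⌋₊)) →
      (m : ℝ) ≤ (6 + 2 * (s * (3 + C))) * Y := by
    intro m hm
    calc (m : ℝ) ≤ ((6 * n + 2 * (s * (1 + 2 * n + ⌊C * Y⌋₊)) : ℕ) : ℝ) := by
          exact_mod_cast hm
      _ = 6 * (n : ℝ) + 2 * (s * (1 + 2 * n + ((⌊C * Y⌋₊ : ℕ) : ℝ))) := by push_cast; ring
      _ ≤ 6 * Y + 2 * (s * (Y + 2 * Y + C * Y)) := by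
          gcongr
          linarith
      _ = (6 + 2 * (s * (3 + C))) * Y := by ring
  exact ⟨fun Γ hΓ k => key _ (hpsi Γ hΓ k), key _ hPsi⟩

/-- F, file Final.lean: for every odd `s ≥ 3` -/
theorem main (s : ℕ) (hs : Odd s) (h3 : 3 ≤ s) : ∃ C : ℝ, ∀ n : ℕ, 1 ≤ n →
    (Psi s n : ℝ) ≤ C * (n : ℝ) ^ (2 - 1 / (2 * (s : ℝ) - 1)) := by
  obtain ⟨C, hC⟩ := main_psi s hs h3
  exact ⟨C, fun n hn => (hC n hn).2⟩

end LUB
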