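import Pool.Agent.LUB.Band
import Pool.Agent.LUB.Order

/-!
# Upper bounds for a level: the forward part of the key lemma
-/

open scoped Classical

namespace LUB

variable {V : Type} [DecidableEq V] [Fintype V] {s : ℕ}

namespace KeyF

theorem cntMono (S : Sweep V s) {a b : ℕ} (h : a ≤ b) (p : Sym2 V) : S.cnt a p ≤ S.cnt b p := by
  unfold Sweep.cnt
  apply Finset.card_le_card
  intro u hu
  simp only [Finset.mem_filter, Finset.mem_range] at hu ⊢
  exact ⟨lt_of_lt_of_le hu.1 h, hu.2⟩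

theorem cntSucc (S : Sweep V s) {τ b : ℕ} (p : Sym2 V) (h : S.Sw τ p) (hb : τ < b) :
    S.cnt τ p + 1 ≤ S.cnt b p := by
  have h1 : S.cnt (τ + 1) p = S.cnt τ p + 1 := by
    unfold Sweep.cnt
    rw [Finset.range_add_one, Finset.filter_insert, if_pos h, Finset.card_insert_of_notMem]
    simp
  rw [← h1]
  exact cntMono S hb p

/-- the last moment of a run -/
theorem runLast (S : Sweep V s) {k g : ℕ} {p : Sym2 V} : ∀ (d a : ℕ), a + d = S.M → S.J k g a p →
    ∃ b, a ≤ b ∧ b ≤ S.M ∧ S.Rn k g a b p ∧ (b = S.M ∨ ¬ S.J k g (b + 1) p) := by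
  intro d
  induction d with
  | zero =>
    intro a ha h
    refine ⟨a, le_rfl, by omega, fun u h1 h2 => ?_, Or.inl (by omega)⟩
    have : u = a := by omega
    rw [this]
    exact h
  | succ d ih =>
    intro a ha h
    by_cases h1 : S.J k g (a + 1) p
    · obtain ⟨b, b1, b2, b3, b4⟩ := ih (a + 1) (by omega) h1
      refine ⟨b, by omega, b2, fun u h2 h3 => ?_, b4⟩
      rcases Nat.eq_or_lt_of_le h2 with h4 | h4
      · rw [← h4]
        exact h
      · exact b3 u h4 h3
    · refine ⟨a, le_rfl, by omega, fun u h2 h3 => ?_, Or.inr h1⟩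
      have : u = a := by omega
      rw [this]
      exact h

end KeyF

open KeyF in
/-- K5a, file KeyF.lean -/
theorem Sweep.key_f (hs : Odd s) (h3 : 3 ≤ s) (S : Sweep V s) {k g : ℕ} (hg : 1 ≤ g) {t : ℕ}
    {c : V} (hq : (t, c) ∈ S.NL k g)
    (hx : ∃ t', t < t' ∧ S.Sw t' s(S.x t, S.y t) ∧ c ∈ S.L t') :
    (∃ b, t + 1 ≤ b ∧ b ≤ S.M ∧ S.Rn k g (t + 1) b s(S.en k g t, c) ∧
      (b = S.M ∨ ¬ S.J k g (b + 1) s(S.en k g t, c)) ∧ 0 < S.cnt b s(S.en k g t, c) ∧
      ¬ S.RB k g b s(S.en k g t, c) ∧ ¬ S.LMe k g b s(S.en k g t, c)) ∨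
    (∃ e, t < e ∧ e < S.M ∧ (∀ u, t < u → u ≤ e → ¬ S.In k g u (S.ex k g t)) ∧ S.In k g e c ∧
      S.In k g (e + 1) c ∧ S.In k g (e + 1) (S.ex k g t) ∧
      S.cnt (e + 1) s(S.ex k g t, c) = s) := by
  simp only [Sweep.NL, Finset.mem_filter, Sweep.Q, Finset.mem_product, Finset.mem_range,
    Finset.mem_univ, and_true] at hq
  obtain ⟨⟨htM, hBd, hc0, hc1⟩, ⟨τ1, l1, l2, l3, l4⟩, ⟨τ0, r1, r2, r3, r4⟩⟩ := hq
  obtain ⟨b1, b2, b3, b4, b5, b6⟩ := S.bd hg htM hBd
  obtain ⟨t2, ht2, hsw2, hct2⟩ := hx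
  rw [← b6] at hsw2
  generalize hen : S.en k g t = en at *
  generalize hex : S.ex k g t = ex at *
  have hτ1M : τ1 < S.M := l3.1
  have ht2M : t2 < S.M := hsw2.1
  -- the curves are different
  have hJ1 : S.J k g (t + 1) s(en, c) := l2 (t + 1) le_rfl (by omega)
  have hJ0 : S.J k g t s(ex, c) := r2 t r1.le le_rfl
  have hcen : en ≠ c := fun h => hJ1.1 (by rw [h]; exact Sym2.diag_isDiag c)
  have hcex : ex ≠ c := fun h => hJ0.1 (by rw [h]; exact Sym2.diag_isDiag c)
  -- the last moment of the run of {en, c}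
  obtain ⟨b, hb1, hb2, hb3, hb4⟩ := runLast S (S.M - (t + 1)) (t + 1) (by omega) hJ1
  have hτb : τ1 + 1 ≤ b := by
    by_contra hn
    push Not at hn
    rcases hb4 with h | h
    · omega
    · exact h (l2 (b + 1) (by omega) (by omega))
  by_cases hRB : S.RB k g b s(en, c)
  · right
    obtain ⟨τ, q1, q2, q3, q4⟩ := hRB
    -- the counts
    have hcex_s : ∀ T, t ≤ T → S.cnt T s(ex, c) = s := by
      intro T hT
      apply le_antisymm (S.cnt_le hcex T)
      have := cntSucc S _ r3 (lt_of_lt_of_le r1 hT)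
      omega
    have hcen_0 : S.cnt (t + 1) s(en, c) = 0 := by
      have := cntMono S l1 s(en, c)
      omega
    have hττ : τ1 < τ := by
      by_contra hn
      push Not at hn
      have := cntMono S hn s(en, c)
      omega
    -- t2 < τ
    have hlt : t2 < τ := by
      by_contra hn
      push Not at hn
      have hne : t2 ≠ τ := by
        rintro rfl
        have e1 : s(ex, en) = s(en, c) := hsw2.2.2.symm.trans q3.2.2
        rw [Sym2.eq_iff] at e1
        rcases e1 with ⟨e1, -⟩ | ⟨e1, -⟩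
        · exact b5 e1
        · exact hcex e1
      have hτt2 : τ < t2 := by omega
      have hcen_s : S.cnt t2 s(en, c) = s := by
        apply le_antisymm (S.cnt_le hcen t2)
        have := cntSucc S _ q3 hτt2
        omega
      have hgap : S.gap t ≠ 0 := hBd.1
      have hswt : S.Sw t s(ex, en) := ⟨htM, hgap, b6.symm⟩
      -- alive
      have hcL0 : c ∈ S.L t := hc0.1
      have hcL1 : c ∈ S.L (t + 1) := hc1.1
      have hexL1 : ex ∈ S.L (t + 1) := (S.mem_swap htM hgap ex).2 b1.1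
      have henL1 : en ∈ S.L (t + 1) := b4.1
      have hxy := S.xy ht2M hsw2.2.1
      have halive : ∀ v, v ∈ s(ex, en) → v ∈ S.L t2 := by
        intro v hv
        rw [← hsw2.2.2, Sym2.mem_iff] at hv
        rcases hv with rfl | rfl
        · exact hxy.2.1
        · exact hxy.2.2.1
      have hexL2 : ex ∈ S.L t2 := halive ex (Sym2.mem_mk_left _ _)
      have henL2 : en ∈ S.L t2 := halive en (Sym2.mem_mk_right _ _)
      have f1 := S.lt_iff (show t + 1 ≤ t2 by omega) ht2M.le (Ne.symm hcex) hcL1 hexL1 hct2 hexL2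
      have f2 := S.lt_iff (show t + 1 ≤ t2 by omega) ht2M.le (Ne.symm hcen) hcL1 henL1 hct2 henL2
      rw [Sym2.eq_swap, hcex_s (t + 1) (by omega), hcex_s t2 (by omega)] at f1
      rw [Sym2.eq_swap, hcen_0, hcen_s, Nat.zero_add] at f2
      have f1' : S.Lt t2 c ex ↔ S.Lt (t + 1) c ex := f1.2 ⟨s, rfl⟩
      have f2' : ¬ (S.Lt t2 c en ↔ S.Lt (t + 1) c en) := fun h => (Nat.not_even_iff_odd.2 hs) (f2.1 h)
      have g1 := S.adj hswt hcL0 (Ne.symm hcex) (Ne.symm hcen)
      have g2 := S.adj hsw2 hct2 (Ne.symm hcex) (Ne.symm hcen)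
      exact f2' (g2.1.symm.trans (f1'.trans g1.2.1))
    -- ex is in the band at t2
    have hin2 : S.In k g t2 en := (hb3 t2 (by omega) (by omega)).2 en (Sym2.mem_mk_left _ _)
    have hin2' : S.In k g (t2 + 1) en := (hb3 (t2 + 1) (by omega) (by omega)).2 en (Sym2.mem_mk_left _ _)
    have hsw2' : S.Sw t2 s(en, ex) := by
      rw [Sym2.eq_swap]
      exact hsw2
    have hexin := (S.sw_in hg hsw2' hin2 hin2').1
    -- the first moment
    have hfind : ∃ u, t < u ∧ S.In k g u ex := ⟨t2, ht2, hexin⟩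
    have hw := Nat.find_spec hfind
    have hwmin : ∀ u, t < u → u < Nat.find hfind → ¬ S.In k g u ex := fun u hu hu2 hin =>
      Nat.find_min hfind hu2 ⟨hu, hin⟩
    have hwle : Nat.find hfind ≤ t2 := Nat.find_min' hfind ⟨ht2, hexin⟩
    generalize Nat.find hfind = w at *
    have hw1 : w ≠ t + 1 := by
      rintro rfl
      exact b2 hw.2
    have hcin : ∀ u, t + 1 ≤ u → u ≤ b → S.In k g u c := fun u h1 h2 =>
      (hb3 u h1 h2).2 c (Sym2.mem_mk_right _ _)
    have hwe : w - 1 + 1 = w := by omega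
    refine ⟨w - 1, by omega, by omega, fun u h1 h2 => hwmin u h1 (by omega), hcin _ (by omega) (by omega),
      ?_, ?_, ?_⟩
    · rw [hwe]
      exact hcin _ (by omega) (by omega)
    · rw [hwe]
      exact hw.2
    · exact hcex_s _ (by omega)
  · left
    refine ⟨b, hb1, hb2, hb3, hb4, ?_, hRB, ?_⟩
    · have := cntSucc S _ l3 (show τ1 < b by omega)
      omega
    · rintro ⟨τ, q1, q2, q3, q4, q5, q6⟩
      have hp : s(S.x τ, S.y τ) = s(en, c) := q3.2.2
      have e := q6 τ1 (by rw [hp]; exact l3) (by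
        rw [hp]
        intro u h1 h2
        by_cases h4 : τ ≤ u
        · exact q2 u h4 (by omega)
        · exact hb3 u (by omega) (by omega))
      rw [← e] at q4
      omega

end LUB
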