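import Pool.Agent.LUB.Defs

/-!
# The level over an event
-/

namespace LUB.PsiF

open LevelLower

variable {n : ℕ} {Γ : Fin n → XArc}

theorem p_mono (P : Samp Γ) {i j : ℕ} (hij : i ≤ j) (hj : j ≤ P.m) : P.p i ≤ P.p j := by
  induction j, hij using Nat.le_induction with
  | base => exact le_rfl
  | succ j h ih =>
    have h1 := P.lt1 j (by omega)
    have h2 := P.lt2 j (by omega)
    have := ih (by omega)
    linarith

theorem no_ev_left (P : Samp Γ) {j : ℕ} (hj : j < P.m) {x : ℝ} (h1 : P.p j ≤ x)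
    (h2 : x < P.e j) : ¬ IsEv Γ x := by
  intro h
  obtain ⟨i, hi, rfl⟩ := (P.ev x).1 h
  rcases lt_or_ge i j with h | h
  · have a1 := P.lt2 i hi
    have a2 := p_mono P (show i + 1 ≤ j by omega) hj.le
    linarith
  · rcases h.lt_or_eq with h | h
    · have a1 := P.lt2 j hj
      have a2 := p_mono P (show j + 1 ≤ i by omega) hi.le
      have a3 := P.lt1 i hi
      linarith
    · subst h; exact lt_irrefl _ h2

theorem no_ev_right (P : Samp Γ) {j : ℕ} (hj : j < P.m) {x : ℝ} (h1 : P.e j < x)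
    (h2 : x ≤ P.p (j + 1)) : ¬ IsEv Γ x := by
  intro h
  obtain ⟨i, hi, rfl⟩ := (P.ev x).1 h
  rcases lt_or_ge j i with h | h
  · have a2 := p_mono P (show j + 1 ≤ i by omega) hi.le
    have a3 := P.lt1 i hi
    linarith
  · rcases h.lt_or_eq with h | h
    · have a1 := P.lt2 i hi
      have a2 := p_mono P (show i + 1 ≤ j by omega) hj.le
      have a3 := P.lt1 j hj
      linarith
    · subst h; exact lt_irrefl _ h1

theorem alv_left (P : Samp Γ) {j : ℕ} (hj : j < P.m) {x : ℝ} (h1 : P.p j ≤ x)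
    (h2 : x < P.e j) (i : Fin n) : i ∈ P.l j ↔ Alv Γ x i := by
  rw [(P.lst j hj.le).1 i]
  constructor
  · intro h
    refine ⟨h.1.trans h1, ?_⟩
    by_contra hhi
    push Not at hhi
    exact no_ev_left P hj (x := (Γ i).hi) h.2 (hhi.trans h2) (Or.inl ⟨i, Or.inr rfl⟩)
  · intro h
    refine ⟨?_, h1.trans h.2⟩
    by_contra hlo
    push Not at hlo
    exact no_ev_left P hj (x := (Γ i).lo) hlo.le (h.1.trans_lt h2) (Or.inl ⟨i, Or.inl rfl⟩)

theorem alv_right (P : Samp Γ) {j : ℕ} (hj : j < P.m) {x : ℝ} (h1 : P.e j < x)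
    (h2 : x ≤ P.p (j + 1)) (i : Fin n) : i ∈ P.l (j + 1) ↔ Alv Γ x i := by
  rw [(P.lst (j + 1) hj).1 i]
  constructor
  · intro h
    refine ⟨?_, h2.trans h.2⟩
    by_contra hlo
    push Not at hlo
    exact no_ev_right P hj (x := (Γ i).lo) (h1.trans hlo) h.1 (Or.inl ⟨i, Or.inl rfl⟩)
  · intro h
    refine ⟨h.1.trans h2, ?_⟩
    by_contra hhi
    push Not at hhi
    exact no_ev_right P hj (x := (Γ i).hi) (h1.trans_le h.2) hhi.le (Or.inl ⟨i, Or.inr rfl⟩)

theorem alv_e_left (P : Samp Γ) {j : ℕ} (hj : j < P.m) {i : Fin n} (hi : i ∈ P.l j) :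
    Alv Γ (P.e j) i := by
  have h := ((P.lst j hj.le).1 i).1 hi
  refine ⟨h.1.trans (P.lt1 j hj).le, ?_⟩
  by_contra hhi
  push Not at hhi
  exact no_ev_left P hj (x := (Γ i).hi) h.2 hhi (Or.inl ⟨i, Or.inr rfl⟩)

theorem alv_e_right (P : Samp Γ) {j : ℕ} (hj : j < P.m) {i : Fin n} (hi : i ∈ P.l (j + 1)) :
    Alv Γ (P.e j) i := by
  have h := ((P.lst (j + 1) hj).1 i).1 hi
  refine ⟨?_, (P.lt2 j hj).le.trans h.2⟩
  by_contra hlo
  push Not at hlo
  exact no_ev_right P hj (x := (Γ i).lo) hlo h.1 (Or.inl ⟨i, Or.inl rfl⟩)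

theorem icc_sub {i : Fin n} {a b : ℝ} (ha : Alv Γ a i) (hb : Alv Γ b i) :
    Set.Icc a b ⊆ Set.Icc (Γ i).lo (Γ i).hi := fun _ hx => ⟨ha.1.trans hx.1, hx.2.trans hb.2⟩

theorem ord_left (P : Samp Γ) {j : ℕ} (hj : j < P.m) {x : ℝ} (h1 : P.p j ≤ x)
    (h2 : x ≤ P.e j) {u v : Fin n} (hu : u ∈ P.l j) (hv : v ∈ P.l j)
    (huv : (Γ u).f (P.p j) < (Γ v).f (P.p j)) :
    (Γ u).f x ≤ (Γ v).f x ∧ (x < P.e j → (Γ u).f x < (Γ v).f x) := by
  have hne : u ≠ v := by rintro rfl; exact lt_irrefl _ huv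
  have au : Alv Γ x u := by
    rcases h2.lt_or_eq with h | h
    · exact (alv_left P hj h1 h u).1 hu
    · rw [h]; exact alv_e_left P hj hu
  have av : Alv Γ x v := by
    rcases h2.lt_or_eq with h | h
    · exact (alv_left P hj h1 h v).1 hv
    · rw [h]; exact alv_e_left P hj hv
  have pu := ((P.lst j hj.le).1 u).1 hu
  have pv := ((P.lst j hj.le).1 v).1 hv
  have key : ∀ z, P.p j ≤ z → z < P.e j → (Γ v).f z ≠ (Γ u).f z := by
    intro z z1 z2 h
    exact no_ev_left P hj z1 z2 (Or.inr ⟨u, v, hne, (alv_left P hj z1 z2 u).1 hu,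
      (alv_left P hj z1 z2 v).1 hv, h.symm⟩)
  have hc : ContinuousOn (fun z => (Γ v).f z - (Γ u).f z) (Set.Icc (P.p j) x) :=
    ((Γ v).cont.mono (icc_sub pv av)).sub ((Γ u).cont.mono (icc_sub pu au))
  have hmain : (Γ u).f x ≤ (Γ v).f x := by
    by_contra hcon
    push Not at hcon
    have := intermediate_value_Icc' h1 hc
    obtain ⟨z, hz, hz0⟩ := this (show (0 : ℝ) ∈ Set.Icc ((Γ v).f x - (Γ u).f x)
      ((Γ v).f (P.p j) - (Γ u).f (P.p j)) from ⟨by linarith, by linarith⟩)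
    have hzx : z ≠ x := by
      rintro rfl
      simp only at hz0
      linarith
    have hlt : z < x := lt_of_le_of_ne hz.2 hzx
    exact key z hz.1 (hlt.trans_le h2) (by simp only at hz0; linarith)
  refine ⟨hmain, fun hx => lt_of_le_of_ne hmain (key x h1 hx).symm⟩

theorem ord_right (P : Samp Γ) {j : ℕ} (hj : j < P.m) {x : ℝ} (h1 : P.e j ≤ x)
    (h2 : x ≤ P.p (j + 1)) {u v : Fin n} (hu : u ∈ P.l (j + 1)) (hv : v ∈ P.l (j + 1))
    (huv : (Γ u).f (P.p (j + 1)) < (Γ v).f (P.p (j + 1))) :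
    (Γ u).f x ≤ (Γ v).f x ∧ (P.e j < x → (Γ u).f x < (Γ v).f x) := by
  have hne : u ≠ v := by rintro rfl; exact lt_irrefl _ huv
  have au : Alv Γ x u := by
    rcases h1.lt_or_eq with h | h
    · exact (alv_right P hj h h2 u).1 hu
    · rw [← h]; exact alv_e_right P hj hu
  have av : Alv Γ x v := by
    rcases h1.lt_or_eq with h | h
    · exact (alv_right P hj h h2 v).1 hv
    · rw [← h]; exact alv_e_right P hj hv
  have pu := ((P.lst (j + 1) hj).1 u).1 hu
  have pv := ((P.lst (j + 1) hj).1 v).1 hv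
  have key : ∀ z, P.e j < z → z ≤ P.p (j + 1) → (Γ v).f z ≠ (Γ u).f z := by
    intro z z1 z2 h
    exact no_ev_right P hj z1 z2 (Or.inr ⟨u, v, hne, (alv_right P hj z1 z2 u).1 hu,
      (alv_right P hj z1 z2 v).1 hv, h.symm⟩)
  have hc : ContinuousOn (fun z => (Γ v).f z - (Γ u).f z) (Set.Icc x (P.p (j + 1))) :=
    ((Γ v).cont.mono (icc_sub av pv)).sub ((Γ u).cont.mono (icc_sub au pu))
  have hmain : (Γ u).f x ≤ (Γ v).f x := by
    by_contra hcon
    push Not at hcon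
    have := intermediate_value_Icc h2 hc
    obtain ⟨z, hz, hz0⟩ := this (show (0 : ℝ) ∈ Set.Icc ((Γ v).f x - (Γ u).f x)
      ((Γ v).f (P.p (j + 1)) - (Γ u).f (P.p (j + 1))) from ⟨by linarith, by linarith⟩)
    have hzx : x ≠ z := by
      rintro rfl
      simp only at hz0
      linarith
    have hlt : x < z := lt_of_le_of_ne hz.1 hzx
    exact key z (h1.trans_lt hlt) hz.2 (by simp only at hz0; linarith)
  refine ⟨hmain, fun hx => lt_of_le_of_ne hmain (key x hx h2).symm⟩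

theorem lst_left (P : Samp Γ) {j : ℕ} (hj : j < P.m) {x : ℝ} (h1 : P.p j ≤ x)
    (h2 : x < P.e j) : IsLst Γ x (P.l j) :=
  ⟨alv_left P hj h1 h2, List.Pairwise.imp_of_mem
    (fun ha hb hab => (ord_left P hj h1 h2.le ha hb hab).2 h2) (P.lst j hj.le).2⟩

theorem lst_right (P : Samp Γ) {j : ℕ} (hj : j < P.m) {x : ℝ} (h1 : P.e j < x)
    (h2 : x ≤ P.p (j + 1)) : IsLst Γ x (P.l (j + 1)) :=
  ⟨alv_right P hj h1 h2, List.Pairwise.imp_of_mem
    (fun ha hb hab => (ord_right P hj h1.le h2 ha hb hab).2 h1) (P.lst (j + 1) hj).2⟩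

theorem sorted_e_left (P : Samp Γ) {j : ℕ} (hj : j < P.m) :
    (P.l j).Pairwise fun u v => (Γ u).f (P.e j) ≤ (Γ v).f (P.e j) :=
  List.Pairwise.imp_of_mem
    (fun ha hb hab => (ord_left P hj (P.lt1 j hj).le le_rfl ha hb hab).1) (P.lst j hj.le).2

theorem sorted_e_right (P : Samp Γ) {j : ℕ} (hj : j < P.m) :
    (P.l (j + 1)).Pairwise fun u v => (Γ u).f (P.e j) ≤ (Γ v).f (P.e j) :=
  List.Pairwise.imp_of_mem
    (fun ha hb hab => (ord_right P hj le_rfl (P.lt2 j hj).le ha hb hab).1) (P.lst (j + 1) hj).2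

theorem lst_nodup {x : ℝ} {l : List (Fin n)} (h : IsLst Γ x l) : l.Nodup :=
  h.2.imp (fun hab => by rintro rfl; exact lt_irrefl _ hab)

/-! ### lists -/

theorem W1a {l : List (Fin n)} {g : Fin n → ℝ} (hs : l.Pairwise fun i j => g i ≤ g j) {k : ℕ}
    {u : Fin n} (hk : l[k]? = some u) : {i | i ∈ l ∧ g i < g u}.ncard ≤ k := by
  classical
  obtain ⟨hkl, rfl⟩ := List.getElem?_eq_some_iff.1 hk
  rw [List.pairwise_iff_getElem] at hs
  have hsub : {i | i ∈ l ∧ g i < g l[k]} ⊆ ((l.take k).toFinset : Set (Fin n)) := by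
    rintro i ⟨hi, hlt⟩
    obtain ⟨t, ht, rfl⟩ := List.getElem_of_mem hi
    have htk : t < k := by
      by_contra hc
      push Not at hc
      rcases hc.lt_or_eq with h | h
      · exact absurd (hs k t hkl ht h) (not_le.2 hlt)
      · subst h; exact lt_irrefl _ hlt
    simp only [List.coe_toFinset, Set.mem_ofPred_eq]
    rw [List.mem_take_iff_getElem]
    exact ⟨t, by omega, rfl⟩
  calc _ ≤ ((l.take k).toFinset : Set (Fin n)).ncard :=
        Set.ncard_le_ncard hsub (Finset.finite_toSet _)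
    _ = (l.take k).toFinset.card := Set.ncard_coe_finset _
    _ ≤ (l.take k).length := List.toFinset_card_le _
    _ ≤ k := List.length_take_le _ _

theorem W1b {l : List (Fin n)} {g : Fin n → ℝ} (hs : l.Pairwise fun i j => g i ≤ g j)
    (hn : l.Nodup) {k : ℕ}
    {u : Fin n} (hk : l[k]? = some u) : k < {i | i ∈ l ∧ g i ≤ g u}.ncard := by
  classical
  obtain ⟨hkl, rfl⟩ := List.getElem?_eq_some_iff.1 hk
  rw [List.pairwise_iff_getElem] at hs
  have hsub : ((l.take (k + 1)).toFinset : Set (Fin n)) ⊆ {i | i ∈ l ∧ g i ≤ g l[k]} := by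
    intro i hi
    simp only [List.coe_toFinset, Set.mem_ofPred_eq] at hi
    rw [List.mem_take_iff_getElem] at hi
    obtain ⟨t, ht, rfl⟩ := hi
    have ht' : t < l.length := by omega
    refine ⟨List.getElem_mem _, ?_⟩
    rcases (show t ≤ k by omega).lt_or_eq with h | h
    · exact hs t k ht' hkl h
    · subst h; exact le_rfl
  have h1 : ((l.take (k + 1)).toFinset : Set (Fin n)).ncard = k + 1 := by
    rw [Set.ncard_coe_finset, List.toFinset_card_of_nodup (hn.sublist (List.take_sublist _ _)),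
      List.length_take]
    omega
  have h2 := Set.ncard_le_ncard hsub (Set.toFinite _)
  omega

theorem W2 {l : List (Fin n)} {g : Fin n → ℝ} (hs : l.Pairwise fun i j => g i < g j)
    {k : ℕ} {u : Fin n} (hk : l[k]? = some u) : {i | i ∈ l ∧ g i < g u}.ncard = k := by
  classical
  have hn : l.Nodup := hs.imp (fun hab => by rintro rfl; exact lt_irrefl _ hab)
  apply le_antisymm (W1a (hs.imp fun h => h.le) hk)
  obtain ⟨hkl, rfl⟩ := List.getElem?_eq_some_iff.1 hk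
  rw [List.pairwise_iff_getElem] at hs
  have hsub : ((l.take k).toFinset : Set (Fin n)) ⊆ {i | i ∈ l ∧ g i < g l[k]} := by
    intro i hi
    simp only [List.coe_toFinset, Set.mem_ofPred_eq] at hi
    rw [List.mem_take_iff_getElem] at hi
    obtain ⟨t, ht, rfl⟩ := hi
    exact ⟨List.getElem_mem _, hs t k (by omega) hkl (by omega)⟩
  have h1 : ((l.take k).toFinset : Set (Fin n)).ncard = k := by
    rw [Set.ncard_coe_finset, List.toFinset_card_of_nodup (hn.sublist (List.take_sublist _ _)),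
      List.length_take]
    omega
  have h2 := Set.ncard_le_ncard hsub (Set.toFinite _)
  omega

theorem on_level {l : List (Fin n)} {x y : ℝ} (hl : IsLst Γ x l) {k : ℕ}
    (h1 : ∃ i, (x, y) ∈ (Γ i).graph) (h2 : (below Γ (x, y)).ncard = k) :
    ∃ u, l[k]? = some u ∧ y = (Γ u).f x := by
  obtain ⟨i, hi, hy⟩ := h1
  simp only at hi hy
  have him : i ∈ l := (hl.1 i).2 hi
  obtain ⟨t, ht, rfl⟩ := List.getElem_of_mem him
  have h3 := W2 (g := fun i => (Γ i).f x) hl.2 (List.getElem?_eq_getElem ht)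
  have h4 : below Γ (x, y) = {i | i ∈ l ∧ (Γ i).f x < (Γ l[t]).f x} := by
    ext i
    simp only [below, Set.mem_ofPred_eq]
    rw [hl.1 i, hy]
    rfl
  rw [h4] at h2
  have : t = k := h3.symm.trans h2
  subst this
  exact ⟨l[t], List.getElem?_eq_getElem ht, hy⟩

theorem closed_graph {o : Option (Fin n)} {a b : ℝ} (h : ∀ u, o = some u →
    Set.Icc a b ⊆ Set.Icc (Γ u).lo (Γ u).hi) :
    IsClosed {q : ℝ × ℝ | ∃ u, o = some u ∧ q.1 ∈ Set.Icc a b ∧ q.2 = (Γ u).f q.1} := by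
  cases o with
  | none =>
    have : {q : ℝ × ℝ | ∃ u, (none : Option (Fin n)) = some u ∧ q.1 ∈ Set.Icc a b ∧
        q.2 = (Γ u).f q.1} = ∅ := by
      ext q; simp
    rw [this]; exact isClosed_empty
  | some u =>
    have : {q : ℝ × ℝ | ∃ u', (some u : Option (Fin n)) = some u' ∧ q.1 ∈ Set.Icc a b ∧
        q.2 = (Γ u').f q.1} = (fun x => (x, (Γ u).f x)) '' Set.Icc a b := by
      ext ⟨x, y⟩
      simp only [Option.some.injEq, Set.mem_ofPred_eq, Set.mem_image, Prod.mk.injEq]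
      constructor
      · rintro ⟨u', rfl, hx, rfl⟩
        exact ⟨x, hx, rfl, rfl⟩
      · rintro ⟨x', hx, rfl, rfl⟩
        exact ⟨u, rfl, hx, rfl⟩
    rw [this]
    apply IsCompact.isClosed
    apply IsCompact.image_of_continuousOn isCompact_Icc
    exact continuousOn_id.prodMk ((Γ u).cont.mono (h u rfl))

/-- the points of the level over an event -/
theorem level_fib (P : Samp Γ) {k j : ℕ} (hj : j < P.m) {y : ℝ} (hy : (P.e j, y) ∈ level Γ k) :
    (∃ u, (P.l j)[k]? = some u ∧ y = (Γ u).f (P.e j)) ∨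
    (∃ u, (P.l (j + 1))[k]? = some u ∧ y = (Γ u).f (P.e j)) ∨
    ((∃ i, (P.e j, y) ∈ (Γ i).graph) ∧ (below Γ (P.e j, y)).ncard = k) := by
  set S : Set (ℝ × ℝ) := {p | (∃ i, p ∈ (Γ i).graph) ∧ (below Γ p).ncard = k} with hS
  set AL : Set (ℝ × ℝ) := {q : ℝ × ℝ | ∃ u, (P.l j)[k]? = some u ∧
    q.1 ∈ Set.Icc (P.p j) (P.e j) ∧ q.2 = (Γ u).f q.1} with hAL
  set AR : Set (ℝ × ℝ) := {q : ℝ × ℝ | ∃ u, (P.l (j + 1))[k]? = some u ∧
    q.1 ∈ Set.Icc (P.e j) (P.p (j + 1)) ∧ q.2 = (Γ u).f q.1} with hAR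
  set A0 : Set (ℝ × ℝ) := {q : ℝ × ℝ | q.1 = P.e j ∧ q ∈ S} with hA0
  have cL : IsClosed AL := by
    apply closed_graph
    intro u hu
    have hm : u ∈ P.l j := List.mem_of_getElem? hu
    exact icc_sub (((P.lst j hj.le).1 u).1 hm) (alv_e_left P hj hm)
  have cR : IsClosed AR := by
    apply closed_graph
    intro u hu
    have hm : u ∈ P.l (j + 1) := List.mem_of_getElem? hu
    exact icc_sub (alv_e_right P hj hm) (((P.lst (j + 1) hj).1 u).1 hm)
  have c0 : IsClosed A0 := by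
    apply Set.Finite.isClosed
    apply Set.Finite.subset (Set.finite_range (fun i => (P.e j, (Γ i).f (P.e j))))
    rintro ⟨x, y⟩ ⟨hx, ⟨i, hi, hy⟩, -⟩
    simp only at hx hy
    subst hx
    exact ⟨i, by rw [hy]⟩
  set U : Set (ℝ × ℝ) := {q | P.p j < q.1 ∧ q.1 < P.p (j + 1)} with hU
  have oU : IsOpen U :=
    (isOpen_lt continuous_const continuous_fst).inter (isOpen_lt continuous_fst continuous_const)
  have hsub : U ∩ S ⊆ AL ∪ AR ∪ A0 := by
    rintro ⟨x, y⟩ ⟨⟨hx1, hx2⟩, hq⟩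
    simp only at hx1 hx2
    rcases lt_trichotomy x (P.e j) with h | h | h
    · obtain ⟨u, hu, hy⟩ := on_level (lst_left P hj hx1.le h) hq.1 hq.2
      exact Or.inl (Or.inl ⟨u, hu, ⟨hx1.le, h.le⟩, hy⟩)
    · exact Or.inr ⟨h, hq⟩
    · obtain ⟨u, hu, hy⟩ := on_level (lst_right P hj h hx2.le) hq.1 hq.2
      exact Or.inl (Or.inr ⟨u, hu, ⟨h.le, hx2.le⟩, hy⟩)
  have hmem : (P.e j, y) ∈ closure (U ∩ S) :=
    oU.inter_closure ⟨⟨P.lt1 j hj, P.lt2 j hj⟩, hy⟩
  have hmem2 : (P.e j, y) ∈ AL ∪ AR ∪ A0 :=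
    closure_minimal hsub ((cL.union cR).union c0) hmem
  rcases hmem2 with (⟨u, hu, -, h⟩ | ⟨u, hu, -, h⟩) | ⟨-, h⟩
  · exact Or.inl ⟨u, hu, h⟩
  · exact Or.inr (Or.inl ⟨u, hu, h⟩)
  · exact Or.inr (Or.inr h)

/-- at most one height has exactly `k` arcs below -/
theorem uniq0 {x y y' : ℝ} {k : ℕ} (h1 : ∃ i, (x, y) ∈ (Γ i).graph)
    (h2 : (below Γ (x, y)).ncard = k) (h3 : (below Γ (x, y')).ncard = k) : ¬ y < y' := by
  intro hlt
  obtain ⟨i, hi, hy⟩ := h1
  simp only at hi hy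
  have hss : below Γ (x, y) ⊂ below Γ (x, y') := by
    refine (Set.ssubset_iff_of_subset ?_).2 ⟨i, ⟨hi, by rw [← hy]; exact hlt⟩, ?_⟩
    · rintro a ⟨ha, hb⟩
      exact ⟨ha, lt_trans hb hlt⟩
    · rintro ⟨-, hb⟩
      simp only at hb
      rw [hy] at hb
      exact lt_irrefl _ hb
  have := Set.ncard_lt_ncard hss (Set.toFinite _)
  omega

theorem fib_le (P : Samp Γ) (k j : ℕ) (hj : j < P.m) :
    {y | (P.e j, y) ∈ level Γ k}.encard ≤ 3 := by
  have hsub : {y | (P.e j, y) ∈ level Γ k} ⊆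
      ({y | ∃ u, (P.l j)[k]? = some u ∧ y = (Γ u).f (P.e j)} ∪
      {y | ∃ u, (P.l (j + 1))[k]? = some u ∧ y = (Γ u).f (P.e j)}) ∪
      {y | (∃ i, (P.e j, y) ∈ (Γ i).graph) ∧ (below Γ (P.e j, y)).ncard = k} := by
    intro y hy
    rcases level_fib P hj hy with h | h | h
    · exact Or.inl (Or.inl h)
    · exact Or.inl (Or.inr h)
    · exact Or.inr h
  have s1 : {y | ∃ u, (P.l j)[k]? = some u ∧ y = (Γ u).f (P.e j)}.encard ≤ 1 := by
    rw [Set.encard_le_one_iff]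
    rintro a b ⟨u, hu, rfl⟩ ⟨v, hv, rfl⟩
    rw [hu] at hv
    cases hv; rfl
  have s2 : {y | ∃ u, (P.l (j + 1))[k]? = some u ∧ y = (Γ u).f (P.e j)}.encard ≤ 1 := by
    rw [Set.encard_le_one_iff]
    rintro a b ⟨u, hu, rfl⟩ ⟨v, hv, rfl⟩
    rw [hu] at hv
    cases hv; rfl
  have s3 : {y | (∃ i, (P.e j, y) ∈ (Γ i).graph) ∧
      (below Γ (P.e j, y)).ncard = k}.encard ≤ 1 := by
    rw [Set.encard_le_one_iff]
    rintro a b ⟨ha1, ha2⟩ ⟨hb1, hb2⟩
    exact le_antisymm (not_lt.1 (uniq0 hb1 hb2 ha2)) (not_lt.1 (uniq0 ha1 ha2 hb2))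
  calc _ ≤ _ := Set.encard_le_encard hsub
    _ ≤ _ := Set.encard_union_le _ _
    _ ≤ (1 + 1) + 1 := add_le_add ((Set.encard_union_le _ _).trans (add_le_add s1 s2)) s3
    _ = 3 := by norm_num

/-- `y` is the height number `k` over the event -/
def Mid (Γ : Fin n → XArc) (x : ℝ) (k : ℕ) (y : ℝ) : Prop :=
  {i | Alv Γ x i ∧ (Γ i).f x < y}.ncard ≤ k ∧ k < {i | Alv Γ x i ∧ (Γ i).f x ≤ y}.ncard

theorem Mid.uniq {x y y' : ℝ} {k : ℕ} (h : Mid Γ x k y) (h' : Mid Γ x k y') : ¬ y < y' := by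
  intro hlt
  have hss : {i | Alv Γ x i ∧ (Γ i).f x ≤ y} ⊆ {i | Alv Γ x i ∧ (Γ i).f x < y'} := by
    rintro a ⟨ha, hb⟩
    exact ⟨ha, lt_of_le_of_lt hb hlt⟩
  have := Set.ncard_le_ncard hss (Set.toFinite _)
  have h1 := h.2
  have h2 := h'.1
  omega

theorem mid_of_list {x : ℝ} {l : List (Fin n)} (ha : ∀ i, i ∈ l ↔ Alv Γ x i) (hn : l.Nodup)
    (hs : l.Pairwise fun u v => (Γ u).f x ≤ (Γ v).f x) {k : ℕ} {u : Fin n}
    (hu : l[k]? = some u) : Mid Γ x k ((Γ u).f x) := by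
  have h1 := W1a (g := fun i => (Γ i).f x) hs hu
  have h2 := W1b (g := fun i => (Γ i).f x) hs hn hu
  simp only [ha] at h1 h2
  exact ⟨h1, h2⟩

theorem mid_of_below {x y : ℝ} {k : ℕ} (h1 : ∃ i, (x, y) ∈ (Γ i).graph)
    (h2 : (below Γ (x, y)).ncard = k) : Mid Γ x k y := by
  obtain ⟨i, hi, hy⟩ := h1
  simp only at hi hy
  refine ⟨h2.le, ?_⟩
  rw [← h2]
  apply Set.ncard_lt_ncard _ (Set.toFinite _)
  refine (Set.ssubset_iff_of_subset ?_).2 ⟨i, ⟨hi, hy.ge⟩, ?_⟩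
  · rintro a ⟨ha, hb⟩
    exact ⟨ha, le_of_lt hb⟩
  · rintro ⟨-, hb⟩
    simp only at hb
    rw [hy] at hb
    exact lt_irrefl _ hb

theorem alv_e_iff_left (P : Samp Γ) {j : ℕ} (hj : j < P.m)
    (hne : ∀ i, P.e j ≠ (Γ i).lo ∧ P.e j ≠ (Γ i).hi) (i : Fin n) :
    i ∈ P.l j ↔ Alv Γ (P.e j) i := by
  refine ⟨alv_e_left P hj, fun h => ?_⟩
  rw [(P.lst j hj.le).1 i]
  refine ⟨?_, (P.lt1 j hj).le.trans h.2⟩
  by_contra hlo
  push Not at hlo
  exact no_ev_left P hj (x := (Γ i).lo) hlo.le (lt_of_le_of_ne h.1 (hne i).1.symm)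
    (Or.inl ⟨i, Or.inl rfl⟩)

theorem alv_e_iff_right (P : Samp Γ) {j : ℕ} (hj : j < P.m)
    (hne : ∀ i, P.e j ≠ (Γ i).lo ∧ P.e j ≠ (Γ i).hi) (i : Fin n) :
    i ∈ P.l (j + 1) ↔ Alv Γ (P.e j) i := by
  refine ⟨alv_e_right P hj, fun h => ?_⟩
  rw [(P.lst (j + 1) hj).1 i]
  refine ⟨h.1.trans (P.lt2 j hj).le, ?_⟩
  by_contra hhi
  push Not at hhi
  exact no_ev_right P hj (x := (Γ i).hi) (lt_of_le_of_ne h.2 (hne i).2) hhi.le
    (Or.inl ⟨i, Or.inr rfl⟩)

theorem mid_of_level (P : Samp Γ) {k j : ℕ} (hj : j < P.m)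
    (hne : ∀ i, P.e j ≠ (Γ i).lo ∧ P.e j ≠ (Γ i).hi) {y : ℝ} (hy : (P.e j, y) ∈ level Γ k) :
    Mid Γ (P.e j) k y := by
  rcases level_fib P hj hy with ⟨u, hu, rfl⟩ | ⟨u, hu, rfl⟩ | h
  · exact mid_of_list (alv_e_iff_left P hj hne) (lst_nodup (P.lst j hj.le))
      (sorted_e_left P hj) hu
  · exact mid_of_list (alv_e_iff_right P hj hne) (lst_nodup (P.lst (j + 1) hj))
      (sorted_e_right P hj) hu
  · exact mid_of_below h.1 h.2

theorem fib_mid (P : Samp Γ) (k j : ℕ) (hj : j < P.m)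
    (hne : ∀ i, P.e j ≠ (Γ i).lo ∧ P.e j ≠ (Γ i).hi) :
    {y | (P.e j, y) ∈ vertices Γ ∩ level Γ k}.encard ≤ 1 ∧
    (({y | (P.e j, y) ∈ vertices Γ ∩ level Γ k}).Nonempty → P.Meet k j ∨ P.Meet (k + 1) j) := by
  constructor
  · rw [Set.encard_le_one_iff]
    rintro a b ⟨-, ha⟩ ⟨-, hb⟩
    have ha' := mid_of_level P hj hne ha
    have hb' := mid_of_level P hj hne hb
    exact le_antisymm (not_lt.1 (hb'.uniq ha')) (not_lt.1 (ha'.uniq hb'))
  · rintro ⟨y, hv, hy⟩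
    have hm := mid_of_level P hj hne hy
    have hA := alv_e_iff_left P hj hne
    have hnd := lst_nodup (P.lst j hj.le)
    have hso := sorted_e_left P hj
    -- the height number k
    have hk : k < (P.l j).length := by
      have h2 := hm.2
      have : {i | Alv Γ (P.e j) i ∧ (Γ i).f (P.e j) ≤ y} ⊆
          (((P.l j).toFinset : Finset (Fin n)) : Set (Fin n)) := by
        rintro i ⟨hi, -⟩
        simp only [List.coe_toFinset, Set.mem_ofPred_eq]
        exact (hA i).2 hi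
      have h3 := Set.ncard_le_ncard this (Set.toFinite _)
      rw [Set.ncard_coe_finset] at h3
      have h4 := List.toFinset_card_le (P.l j)
      omega
    set l := P.l j with hl
    have hyk : (Γ l[k]).f (P.e j) = y := by
      have hb' := mid_of_list hA hnd hso (List.getElem?_eq_getElem hk)
      exact le_antisymm (not_lt.1 (hm.uniq hb')) (not_lt.1 (hb'.uniq hm))
    rw [List.pairwise_iff_getElem] at hso
    obtain ⟨a, b, hab, hma, hmb⟩ : ∃ a b, a ≠ b ∧ (P.e j, y) ∈ (Γ a).graph ∧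
        (P.e j, y) ∈ (Γ b).graph := by
      rcases hv with ⟨i, hi⟩ | ⟨a, b, hab, h1, h2⟩
      · exfalso
        rcases hi with h | h
        · exact (hne i).1 (congrArg Prod.fst h)
        · exact (hne i).2 (congrArg Prod.fst h)
      · exact ⟨a, b, hab, h1, h2⟩
    -- some position t ≠ k with height y
    obtain ⟨t, ht, htk, hty⟩ : ∃ t, ∃ ht : t < l.length, t ≠ k ∧ (Γ l[t]).f (P.e j) = y := by
      obtain ⟨ta, hta, rfl⟩ := List.getElem_of_mem ((hA a).2 hma.1)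
      obtain ⟨tb, htb, rfl⟩ := List.getElem_of_mem ((hA b).2 hmb.1)
      by_cases h : ta = k
      · refine ⟨tb, htb, ?_, hmb.2.symm⟩
        rintro rfl
        subst h
        exact hab rfl
      · exact ⟨ta, hta, h, hma.2.symm⟩
    rcases lt_or_gt_of_ne htk with h | h
    · -- t < k
      left
      have hk1 : k - 1 < l.length := by omega
      have hh1 : (Γ l[k - 1]).f (P.e j) = y := by
        apply le_antisymm
        · rw [← hyk]
          exact hso (k - 1) k hk1 hk (by omega)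
        · rw [← hty]
          rcases (show t ≤ k - 1 by omega).lt_or_eq with h' | h'
          · exact hso t (k - 1) ht hk1 h'
          · subst h'; exact le_rfl
      refine ⟨by omega, l[k - 1], l[k], List.getElem?_eq_getElem hk1,
        List.getElem?_eq_getElem hk, ?_, ?_, ?_⟩
      · exact (hA _).1 (List.getElem_mem _)
      · exact (hA _).1 (List.getElem_mem _)
      · rw [hh1, hyk]
    · right
      have hk1 : k + 1 < l.length := by omega
      have hh1 : (Γ l[k + 1]).f (P.e j) = y := by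
        apply le_antisymm
        · rw [← hty]
          rcases (show k + 1 ≤ t by omega).lt_or_eq with h' | h'
          · exact hso (k + 1) t hk1 ht h'
          · subst h'; exact le_rfl
        · rw [← hyk]
          exact hso k (k + 1) hk hk1 (by omega)
      refine ⟨by omega, l[k], l[k + 1], ?_, List.getElem?_eq_getElem hk1, ?_, ?_, ?_⟩
      · rw [Nat.add_sub_cancel]
        exact List.getElem?_eq_getElem hk
      · exact (hA _).1 (List.getElem_mem _)
      · exact (hA _).1 (List.getElem_mem _)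
      · rw [hh1, hyk]

end LUB.PsiF
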